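import Pool.Agent.Run7.h833.SF.B
import Pool.Agent.Run7.h114.CA.P6a

/-! # Entire functions with all zeros on the imaginary axis are largest on the real axis -/

set_option autoImplicit false

open Complex Filter Topology Polynomial
open scoped ComplexConjugate

namespace Pool.Agent.Run7.h966.FD.An

open Pool.Agent.Run7.h833.SF

lemma poly_le (P : ℂ[X]) (hP : ∀ z, P.eval z = 0 → z.im = 0 ∧ z.re < 0) {x : ℝ} {z : ℂ} (hz : ‖z‖ ≤ x) :
    ‖P.eval z‖ ≤ ‖P.eval (x : ℂ)‖ := by
  rcases eq_or_ne P 0 with rfl | hP0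
  · simp
  have hs : P.Splits := IsAlgClosed.splits P
  have hx : 0 ≤ x := (norm_nonneg _).trans hz
  have key : ∀ S : Multiset ℂ, (∀ r ∈ S, r.im = 0 ∧ r.re < 0) →
      ‖(S.map fun a => z - a).prod‖ ≤ ‖(S.map fun a => (x : ℂ) - a).prod‖ := by
    intro S
    induction S using Multiset.induction_on with
    | empty => intro _; simp
    | cons r S ih =>
      intro h
      have h1 := ih fun r' hr' => h r' (Multiset.mem_cons_of_mem hr')
      obtain ⟨h2, h3⟩ := h r (Multiset.mem_cons_self r S)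
      have e1 : r = (r.re : ℂ) := by apply Complex.ext <;> simp [h2]
      simp only [Multiset.map_cons, Multiset.prod_cons, norm_mul]
      refine mul_le_mul ?_ h1 (norm_nonneg _) (norm_nonneg _)
      have h4 : ‖(x : ℂ) - r‖ = x - r.re := by
        rw [e1, ← Complex.ofReal_sub, Complex.norm_real, Real.norm_eq_abs, Complex.ofReal_re, abs_of_pos (by linarith)]
      have h5 : ‖r‖ = -r.re := by
        conv_lhs => rw [e1]
        rw [Complex.norm_real, Real.norm_eq_abs, abs_of_neg h3]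
      rw [h4]
      have h6 := norm_sub_le z r
      rw [h5] at h6
      linarith
  rw [hs.eval_eq_prod_roots, hs.eval_eq_prod_roots, norm_mul, norm_mul]
  exact mul_le_mul_of_nonneg_left (key P.roots fun r hr => hP r ((Polynomial.mem_roots hP0).1 hr)) (norm_nonneg _)

theorem Cl.le {f : ℂ → ℂ} (hf : Cl f) {x : ℝ} {z : ℂ} (hz : ‖z‖ ≤ x) : ‖f z‖ ≤ ‖f x‖ := by
  obtain ⟨K, hK⟩ := hf.grow
  obtain ⟨P, hP, hl⟩ := H24R2.JP.had f K hf.diff hf.nz hf.symm hK
  have t : ∀ z, Tendsto (fun N => aeval z (P N)) atTop (𝓝 (f z)) := fun z =>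
    (tendstoLocallyUniformlyOn_univ.2 hl).tendsto_at (Set.mem_univ z)
  have e : ∀ (N : ℕ) (z : ℂ), aeval z (P N) = ((P N).map (algebraMap ℝ ℂ)).eval z := fun N z => by
    rw [eval_map_algebraMap]
  refine le_of_tendsto_of_tendsto' (t z).norm (t x).norm fun N => ?_
  rw [e, e]
  exact poly_le _ (fun w hw => hf.zeros w (hP N w (by rw [e]; exact hw))) hz

/-- even functions -/
theorem even_le {f : ℂ → ℂ} (hf : Differentiable ℂ f) (hg : ∃ A : ℝ, ∀ w, ‖f w‖ ≤ Real.exp (A * (1 + ‖w‖) ^ (3 / 2 : ℝ)))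
    (hr : ∀ w, f (-conj w) = conj (f w)) (he : ∀ w, f (-w) = f w) (hz : ∀ w, f w = 0 → w.re = 0) (h0 : f 0 ≠ 0)
    {x : ℝ} {w : ℂ} (hw : ‖w‖ ≤ x) : ‖f w‖ ≤ ‖f x‖ := by
  obtain ⟨φ, hφ, h1⟩ := Pool.Agent.Run7.h114.CA.exists_sq hf he
  have hroot : ∀ u : ℂ, ∃ w : ℂ, w ^ 2 = u := fun u => IsAlgClosed.exists_pow_nat_eq u two_pos
  have hcl : Cl φ := by
    refine ⟨hφ, ?_, fun u => ?_, ?_, fun u hu => ?_⟩
    · have := h1 0
      rw [zero_pow two_ne_zero] at this
      rw [← this]
      exact h0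
    · obtain ⟨w, rfl⟩ := hroot u
      rw [show conj (w ^ 2) = (conj w) ^ 2 from map_pow _ _ _, ← h1, ← h1, ← hr w, he]
    · obtain ⟨A, hA⟩ := hg
      refine ⟨|A| * 3, fun u => ?_⟩
      obtain ⟨w, rfl⟩ := hroot u
      rw [← h1]
      refine (hA w).trans (Real.exp_le_exp.2 ?_)
      have hn := norm_nonneg w
      have h2 : (1 + ‖w‖) ^ (3 / 2 : ℝ) ≤ 3 * (1 + ‖w ^ 2‖) ^ (3 / 4 : ℝ) := by
        have h3 : (1 + ‖w‖) ^ 2 ≤ 2 * (1 + ‖w ^ 2‖) := by
          rw [norm_pow]
          nlinarith [sq_nonneg (1 - ‖w‖)]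
        have h4 : (1 + ‖w‖) ^ (3 / 2 : ℝ) = ((1 + ‖w‖) ^ 2) ^ (3 / 4 : ℝ) := by
          rw [← Real.rpow_natCast, ← Real.rpow_mul (by linarith)]
          norm_num
        rw [h4]
        calc ((1 + ‖w‖) ^ 2) ^ (3 / 4 : ℝ) ≤ (2 * (1 + ‖w ^ 2‖)) ^ (3 / 4 : ℝ) :=
              Real.rpow_le_rpow (by positivity) h3 (by norm_num)
          _ = 2 ^ (3 / 4 : ℝ) * (1 + ‖w ^ 2‖) ^ (3 / 4 : ℝ) := Real.mul_rpow (by norm_num) (by positivity)
          _ ≤ 3 * (1 + ‖w ^ 2‖) ^ (3 / 4 : ℝ) := by
              refine mul_le_mul_of_nonneg_right ?_ (by positivity)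
              calc (2 : ℝ) ^ (3 / 4 : ℝ) ≤ 2 ^ (1 : ℝ) := Real.rpow_le_rpow_of_exponent_le (by norm_num) (by norm_num)
                _ ≤ 3 := by norm_num
      calc A * (1 + ‖w‖) ^ (3 / 2 : ℝ) ≤ |A| * (1 + ‖w‖) ^ (3 / 2 : ℝ) :=
            mul_le_mul_of_nonneg_right (le_abs_self A) (by positivity)
        _ ≤ |A| * (3 * (1 + ‖w ^ 2‖) ^ (3 / 4 : ℝ)) := mul_le_mul_of_nonneg_left h2 (abs_nonneg A)
        _ = _ := by ring
    · obtain ⟨w, rfl⟩ := hroot u
      rw [← h1] at hu
      have h2 := hz w hu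
      have h3 : w = (w.im : ℂ) * I := by apply Complex.ext <;> simp [h2]
      have h4 : w.im ≠ 0 := by
        intro h5
        rw [h5, Complex.ofReal_zero, zero_mul] at h3
        rw [h3] at hu
        exact h0 hu
      have h5 : w ^ 2 = ((-(w.im ^ 2) : ℝ) : ℂ) := by
        rw [h3, mul_pow, Complex.I_sq]
        push_cast
        simp
      rw [h5, Complex.ofReal_im, Complex.ofReal_re]
      exact ⟨rfl, by have := sq_pos_of_ne_zero h4; linarith⟩
  rw [h1, h1]
  have hx : 0 ≤ x := (norm_nonneg _).trans hw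
  have h2 : ((x : ℂ)) ^ 2 = ((x ^ 2 : ℝ) : ℂ) := by push_cast; rfl
  rw [h2]
  refine Cl.le hcl ?_
  rw [norm_pow]
  exact pow_le_pow_left₀ (norm_nonneg _) hw 2

/-- functions with simple zeros on the imaginary axis, even or odd -/
theorem sym_le {f : ℂ → ℂ} (hf : Differentiable ℂ f) (hg : ∃ A : ℝ, ∀ w, ‖f w‖ ≤ Real.exp (A * (1 + ‖w‖) ^ (3 / 2 : ℝ)))
    (hr : ∀ w, f (-conj w) = conj (f w)) (hp : (∀ w, f (-w) = f w) ∨ ∀ w, f (-w) = -f w)
    (hz : ∀ w, f w = 0 → w.re = 0) (hs : ∀ w, f w = 0 → deriv f w ≠ 0) 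
    {x : ℝ} {w : ℂ} (hw : ‖w‖ ≤ x) : ‖f w‖ ≤ ‖f x‖ := by
  have hx : 0 ≤ x := (norm_nonneg _).trans hw
  rcases hp with he | ho
  · refine even_le hf hg hr he hz (fun h0 => hs 0 h0 ?_) hw
    have h1 : deriv f 0 = -deriv f 0 := by
      have h2 : (fun w => f (-w)) = f := funext he
      have h3 := deriv_comp_neg f 0
      rw [h2, neg_zero] at h3
      exact h3
    have h2 : (2 : ℂ) * deriv f 0 = 0 := by linear_combination h1
    rcases mul_eq_zero.1 h2 with h | h
    · norm_num at h
    · exact h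
  · -- odd functions
    have h0 : f 0 = 0 := by
      have h1 := ho 0
      rw [neg_zero] at h1
      have h2 : (2 : ℂ) * f 0 = 0 := by linear_combination h1
      rcases mul_eq_zero.1 h2 with h | h
      · norm_num at h
      · exact h
    set g : ℂ → ℂ := dslope f 0 with hgd
    have hfg : ∀ w, f w = w * g w := by
      intro w
      have := sub_smul_dslope f 0 w
      rw [sub_zero, h0, sub_zero, smul_eq_mul] at this
      exact this.symm
    have hgdiff : Differentiable ℂ g := by
      intro z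
      rcases eq_or_ne z 0 with rfl | hz0
      · have h1 : DifferentiableOn ℂ g Set.univ := (Complex.differentiableOn_dslope (c := (0 : ℂ)) univ_mem).2 hf.differentiableOn
        exact (h1 0 (Set.mem_univ _)).differentiableAt univ_mem
      · have h1 : DifferentiableOn ℂ g Set.univ := (Complex.differentiableOn_dslope (c := (0 : ℂ)) univ_mem).2 hf.differentiableOn
        exact (h1 z (Set.mem_univ _)).differentiableAt univ_mem
    have hg0 : g 0 ≠ 0 := by
      rw [hgd, dslope_same]
      exact hs 0 h0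
    have hge : ∀ w, g (-w) = g w := by
      intro w
      rcases eq_or_ne w 0 with rfl | hw0
      · rw [neg_zero]
      · have h1 := ho w
        rw [hfg, hfg] at h1
        have h2 : w * (g (-w) - g w) = 0 := by linear_combination -h1
        exact sub_eq_zero.1 ((mul_eq_zero.1 h2).resolve_left hw0)
    have hcg : ∀ w, g (-conj w) = -conj (g w) := by
      intro w
      rcases eq_or_ne w 0 with rfl | hw0
      · rw [map_zero, neg_zero]
        -- by continuity
        have h1 : Continuous fun w => g (-conj w) + conj (g w) := by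
          have := hgdiff.continuous
          fun_prop
        have h2 : ∀ w : ℂ, w ≠ 0 → g (-conj w) + conj (g w) = 0 := by
          intro w hw0
          have h3 := hr w
          rw [hfg, hfg, map_mul] at h3
          have h4 : conj w * (g (-conj w) + conj (g w)) = 0 := by linear_combination -h3
          exact (mul_eq_zero.1 h4).resolve_left (by simpa using hw0)
        have h3 : g (-conj (0 : ℂ)) + conj (g 0) = 0 := by
          have h4 : Tendsto (fun w => g (-conj w) + conj (g w)) (𝓝[≠] (0 : ℂ)) (𝓝 (g (-conj (0 : ℂ)) + conj (g 0))) :=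
            (h1.tendsto 0).mono_left nhdsWithin_le_nhds
          refine tendsto_nhds_unique h4 ?_
          refine tendsto_const_nhds.congr' ?_
          filter_upwards [self_mem_nhdsWithin] with w hw
          exact (h2 w hw).symm
        rw [map_zero, neg_zero] at h3
        linear_combination h3
      · have h3 := hr w
        rw [hfg, hfg, map_mul] at h3
        have h4 : conj w * (g (-conj w) + conj (g w)) = 0 := by linear_combination -h3
        have h5 := (mul_eq_zero.1 h4).resolve_left (by simpa using hw0)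
        linear_combination h5
    have hgz : ∀ w, g w = 0 → w.re = 0 := by
      intro w hw
      apply hz
      rw [hfg, hw, mul_zero]
    have hgg : ∃ A : ℝ, ∀ w, ‖g w‖ ≤ Real.exp (A * (1 + ‖w‖) ^ (3 / 2 : ℝ)) := by
      obtain ⟨A, hA⟩ := hg
      obtain ⟨M, hM⟩ := (isCompact_closedBall (0 : ℂ) 1).exists_bound_of_continuousOn hgdiff.continuous.continuousOn
      refine ⟨|A| + |M|, fun w => ?_⟩
      have hone : (1 : ℝ) ≤ (1 + ‖w‖) ^ (3 / 2 : ℝ) := Real.one_le_rpow (by linarith [norm_nonneg w]) (by norm_num)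
      rcases le_or_gt ‖w‖ 1 with h | h
      · have h1 := hM w (by simpa using h)
        calc ‖g w‖ ≤ |M| := h1.trans (le_abs_self M)
          _ ≤ Real.exp |M| := by linarith [Real.add_one_le_exp |M|]
          _ ≤ _ := Real.exp_le_exp.2 (by nlinarith [abs_nonneg A, abs_nonneg M])
      · have h1 := hA w
        rw [hfg, norm_mul] at h1
        have h2 : ‖g w‖ ≤ ‖w‖ * ‖g w‖ := by nlinarith [norm_nonneg (g w)]
        refine (h2.trans h1).trans (Real.exp_le_exp.2 ?_)
        nlinarith [abs_nonneg A, abs_nonneg M, le_abs_self A]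
    have hmain : ‖I * g w‖ ≤ ‖I * g x‖ := by
      refine even_le (f := fun w => I * g w) (hgdiff.const_mul I) ?_ (fun w => ?_) (fun w => ?_) (fun w hw => ?_) ?_ hw
      · obtain ⟨A, hA⟩ := hgg
        exact ⟨A, fun w => by rw [norm_mul, norm_I, one_mul]; exact hA w⟩
      · rw [hcg, map_mul, Complex.conj_I]
        ring
      · rw [hge]
      · exact hgz w ((mul_eq_zero.1 hw).resolve_left I_ne_zero)
      · exact mul_ne_zero I_ne_zero hg0
    rw [norm_mul, norm_mul, norm_I, one_mul, one_mul] at hmain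
    rw [hfg w, hfg (x : ℂ), norm_mul, norm_mul, Complex.norm_real, Real.norm_eq_abs, abs_of_nonneg hx]
    exact mul_le_mul hw hmain (norm_nonneg _) hx

end Pool.Agent.Run7.h966.FD.An
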