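import Mathlib

/-! # Convergence of locally bounded families of entire functions -/

set_option autoImplicit false

open Complex Filter Topology Set Metric

namespace Pool.Agent.Run7.h966.FD.An

variable {ι : Type*}

/-- equicontinuity -/
lemma equi {l : Filter ι} {F : ι → ℂ → ℂ} (hd : ∀ i, Differentiable ℂ (F i))
    (hb : ∀ R : ℝ, ∃ M : ℝ, ∀ᶠ i in l, ∀ z, ‖z‖ ≤ R → ‖F i z‖ ≤ M) (x : ℂ) {ε : ℝ} (hε : 0 < ε) :
    ∃ δ : ℝ, 0 < δ ∧ ∀ᶠ i in l, ∀ y, dist y x < δ → dist (F i y) (F i x) < ε := by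
  obtain ⟨M, hM⟩ := hb (‖x‖ + 1)
  set M' : ℝ := |M| + 1 with hM'
  have hM0 : 0 < M' := by positivity
  have hc : 0 < 2 * M' + 1 := by positivity
  refine ⟨min 1 (ε / (2 * M' + 1)), by positivity, ?_⟩
  filter_upwards [hM] with i hi y hy
  have hy1 : y ∈ ball x 1 := lt_of_lt_of_le hy (min_le_left _ _)
  have hy2 : dist y x < ε / (2 * M' + 1) := lt_of_lt_of_le hy (min_le_right _ _)
  have hbd : ∀ z ∈ ball x 1, ‖F i z‖ ≤ M' := by
    intro z hz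
    have h1 : ‖z‖ ≤ ‖x‖ + 1 := by
      rw [mem_ball, dist_eq_norm] at hz
      have := norm_le_norm_add_norm_sub' z x
      linarith
    have h2 := hi z h1
    have h3 := le_abs_self M
    linarith
  have hmaps : MapsTo (F i) (ball x 1) (ball (F i x) (2 * M' + 1)) := by
    intro w hw
    rw [mem_ball, dist_eq_norm]
    calc ‖F i w - F i x‖ ≤ ‖F i w‖ + ‖F i x‖ := norm_sub_le _ _
      _ ≤ M' + M' := add_le_add (hbd w hw) (hbd x (mem_ball_self one_pos))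
      _ < 2 * M' + 1 := by linarith
  have h2 := Complex.dist_le_div_mul_dist_of_mapsTo_ball ((hd i).differentiableOn)
    (hmaps.mono_right ball_subset_closedBall) hy1
  refine lt_of_le_of_lt h2 ?_
  rw [lt_div_iff₀ hc] at hy2
  rw [div_one, mul_comm]
  exact hy2

/-- pointwise convergence of an equicontinuous family is locally uniform -/
lemma lu_of_pt {l : Filter ι} [l.NeBot] {F : ι → ℂ → ℂ} {Φ : ℂ → ℂ} (hd : ∀ i, Differentiable ℂ (F i))
    (hb : ∀ R : ℝ, ∃ M : ℝ, ∀ᶠ i in l, ∀ z, ‖z‖ ≤ R → ‖F i z‖ ≤ M)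
    (hp : ∀ z, Tendsto (fun i => F i z) l (𝓝 (Φ z))) : TendstoLocallyUniformly F Φ l := by
  rw [Metric.tendstoLocallyUniformly_iff]
  intro ε hε x
  obtain ⟨δ, hδ, h1⟩ := equi hd hb x (show 0 < ε / 4 by linarith)
  refine ⟨ball x δ, ball_mem_nhds x hδ, ?_⟩
  have h3 : ∀ᶠ n in l, dist (F n x) (Φ x) < ε / 4 := (hp x) (Metric.ball_mem_nhds _ (by linarith))
  filter_upwards [h1, h3] with n hn h5 y hy
  have h4 : dist (Φ y) (Φ x) ≤ ε / 4 := by
    refine le_of_tendsto ((hp y).dist (hp x)) ?_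
    filter_upwards [h1] with m hm
    exact (hm y hy).le
  have h6 := hn y hy
  calc dist (Φ y) (F n y) ≤ dist (Φ y) (Φ x) + dist (Φ x) (F n x) + dist (F n x) (F n y) :=
        dist_triangle4 _ _ _ _
    _ < ε := by
        rw [dist_comm (Φ x), dist_comm (F n x) (F n y)]
        linarith

/-- the limit is entire -/
lemma lu_entire {l : Filter ι} [l.NeBot] {F : ι → ℂ → ℂ} {Φ : ℂ → ℂ} (hd : ∀ i, Differentiable ℂ (F i))
    (h : TendstoLocallyUniformly F Φ l) : Differentiable ℂ Φ := by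
  have h1 : TendstoLocallyUniformlyOn F Φ l univ := tendstoLocallyUniformlyOn_univ.2 h
  have h2 := h1.differentiableOn (Eventually.of_forall fun i => (hd i).differentiableOn) isOpen_univ
  exact fun z => (h2 z (mem_univ z)).differentiableAt univ_mem

/-- Montel along an ultrafilter -/
lemma montel {𝒰 : Ultrafilter ι} {F : ι → ℂ → ℂ} (hd : ∀ i, Differentiable ℂ (F i))
    (hb : ∀ R : ℝ, ∃ M : ℝ, ∀ᶠ i in (𝒰 : Filter ι), ∀ z, ‖z‖ ≤ R → ‖F i z‖ ≤ M) :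
    ∃ Φ : ℂ → ℂ, Differentiable ℂ Φ ∧ ∀ z, Tendsto (fun i => F i z) (𝒰 : Filter ι) (𝓝 (Φ z)) := by
  have h1 : ∀ z, ∃ v : ℂ, Tendsto (fun n => F n z) 𝒰 (𝓝 v) := by
    intro z
    obtain ⟨M, hM⟩ := hb ‖z‖
    have hcomp := isCompact_closedBall (0 : ℂ) M
    have hle : ((𝒰.map (fun n => F n z) : Ultrafilter ℂ) : Filter ℂ) ≤ 𝓟 (closedBall 0 M) := by
      rw [le_principal_iff, Ultrafilter.coe_map, Filter.mem_map]
      filter_upwards [hM] with n hn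
      show F n z ∈ closedBall 0 M
      rw [mem_closedBall_zero_iff]
      exact hn z le_rfl
    obtain ⟨v, -, hv⟩ := hcomp.ultrafilter_le_nhds _ hle
    exact ⟨v, hv⟩
  choose Φ hΦ using h1
  exact ⟨Φ, lu_entire hd (lu_of_pt hd hb hΦ), hΦ⟩

/-- convergence on a half-line implies locally uniform convergence -/
theorem vitali {F : ℝ → ℂ → ℂ} (hd : ∀ i, Differentiable ℂ (F i))
    (hb : ∀ R : ℝ, ∃ M : ℝ, ∀ᶠ i in atTop, ∀ z, ‖z‖ ≤ R → ‖F i z‖ ≤ M) {y0 : ℝ} {Y : ℝ → ℂ}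
    (hY : ∀ y : ℝ, y0 ≤ y → Tendsto (fun a => F a y) atTop (𝓝 (Y y))) :
    ∃ X : ℂ → ℂ, Differentiable ℂ X ∧ (∀ y : ℝ, y0 ≤ y → X y = Y y) ∧ TendstoLocallyUniformly F X atTop := by
  have key : ∀ 𝒰 : Ultrafilter ℝ, (𝒰 : Filter ℝ) ≤ atTop → ∃ Φ : ℂ → ℂ, Differentiable ℂ Φ ∧
      (∀ z, Tendsto (fun i => F i z) (𝒰 : Filter ℝ) (𝓝 (Φ z))) ∧ ∀ y : ℝ, y0 ≤ y → Φ y = Y y := by
    intro 𝒰 hU
    obtain ⟨Φ, h1, h2⟩ := montel (𝒰 := 𝒰) hd fun R => by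
      obtain ⟨M, hM⟩ := hb R
      exact ⟨M, hU hM⟩
    exact ⟨Φ, h1, h2, fun y hy => tendsto_nhds_unique (h2 y) ((hY y hy).mono_left hU)⟩
  obtain ⟨𝒰0, h0⟩ : ∃ 𝒰 : Ultrafilter ℝ, (𝒰 : Filter ℝ) ≤ atTop := ⟨Ultrafilter.of atTop, Ultrafilter.of_le atTop⟩
  obtain ⟨X, hX1, hX2, hX3⟩ := key 𝒰0 h0
  have huniq : ∀ Φ : ℂ → ℂ, Differentiable ℂ Φ → (∀ y : ℝ, y0 ≤ y → Φ y = Y y) → Φ = X := by
    intro Φ hΦ h
    have h1 : AnalyticOnNhd ℂ Φ univ := fun z _ => hΦ.analyticAt z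
    have h2 : AnalyticOnNhd ℂ X univ := fun z _ => hX1.analyticAt z
    refine h1.eq_of_frequently_eq (z₀ := ((y0 + 1 : ℝ) : ℂ)) h2 ?_
    have ht : Tendsto (fun n : ℕ => ((y0 + 1 + 1 / ((n : ℝ) + 1) : ℝ) : ℂ)) atTop (𝓝[≠] ((y0 + 1 : ℝ) : ℂ)) := by
      refine tendsto_nhdsWithin_iff.2 ⟨?_, Eventually.of_forall fun n => ?_⟩
      · have h3 := (tendsto_one_div_add_atTop_nhds_zero_nat (𝕜 := ℝ)).const_add (y0 + 1)
        rw [add_zero] at h3
        exact (Complex.continuous_ofReal.tendsto _).comp h3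
      · rw [mem_compl_iff, mem_singleton_iff]
        intro h4
        have h6 : y0 + 1 + 1 / ((n : ℝ) + 1) = y0 + 1 := by exact_mod_cast h4
        have : (0 : ℝ) < 1 / (n + 1) := by positivity
        linarith
    refine ht.frequently (Eventually.frequently (Eventually.of_forall fun n => ?_))
    have : (0 : ℝ) < 1 / ((n : ℝ) + 1) := by positivity
    show Φ _ = X _
    rw [h _ (by linarith), hX3 _ (by linarith)]
  have hpt : ∀ z, Tendsto (fun i => F i z) atTop (𝓝 (X z)) := by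
    intro z
    rw [tendsto_iff_ultrafilter]
    intro 𝒰 hU
    obtain ⟨Φ, h1, h2, h3⟩ := key 𝒰 hU
    rw [← huniq Φ h1 h3]
    exact h2 z
  exact ⟨X, hX1, hX3, lu_of_pt hd hb hpt⟩

end Pool.Agent.Run7.h966.FD.An
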