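import Pool.Agent.Run7.h336.CB.B11
import Pool.Agent.Run7.h833.CAz.P8

/-! # Hermitian forms which depend only on the product of the transforms; Weil forms of Euler products
(the file and its continuation adapt B1-B5, B11 of project CB, helper336, to forms given without zeros) -/

set_option autoImplicit false
set_option linter.unusedSectionVars false
set_option linter.dupNamespace false
set_option maxHeartbeats 2000000

open Complex Filter Topology Set MeasureTheory Metric
open scoped ComplexConjugate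

namespace Pool.Agent.Run7.h966.FD

open Pool.Agent.Y23 Pool.Agent.Y23.G
open Pool.Agent.Y23.G.CB (Win wi NH IPH wi_meas wi_compact NH_int NH_nonneg NH_le_N2 NH_le_LL NH_smul NH_add_le TT_zero_of_NH)

attribute [local instance] Pool.Agent.Y23.G.CA.Z.zL

/-- a Hermitian form on the functions supported in `[-a, a]`, which depends only on the product of the
transforms, with the inequality of Garding -/
class FD (a : ℝ) : Type where
  /-- the form -/
  B : (ℝ → ℂ) → (ℝ → ℂ) → ℂ
  herm : ∀ f g, B g f = conj (B f g)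
  add : ∀ f g h, Hd a f → Hd a g → Hd a h → B (fun x => f x + g x) h = B f h + B g h
  smul : ∀ f g (c : ℂ), B (fun x => c * f x) g = c * B f g
  congr : ∀ f g f' g', (∀ w, GG f g w = GG f' g' w) → B f g = B f' g'
  co : ∃ C : ℝ, 0 < C ∧ ∀ f, Hd a f → LL f ≤ 4 * Real.pi * (B f f).re + C * N2 f
  bd : ∃ C : ℝ, 0 < C ∧ ∀ f, Hd a f → |(B f f).re| ≤ C * LL f

/-- the form -/
def QB (a : ℝ) [F : FD a] (f g : ℝ → ℂ) : ℂ := F.B f g

/-- the quadratic form -/
def QQ (a : ℝ) [F : FD a] (f : ℝ → ℂ) : ℝ := (F.B f f).re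

variable {a : ℝ}

section

variable [F : FD a]

lemma QB_conj (f g : ℝ → ℂ) : QB a g f = conj (QB a f g) := F.herm f g

lemma QB_smul_left (f h : ℝ → ℂ) (c : ℂ) : QB a (fun x => c * f x) h = c * QB a f h := F.smul f h c

lemma QB_add_left {f g h : ℝ → ℂ} (hf : Hd a f) (hg : Hd a g) (hh : Hd a h) :
    QB a (fun x => f x + g x) h = QB a f h + QB a g h := F.add f g h hf hg hh

lemma QB_congr {f g f' g' : ℝ → ℂ} (h : ∀ w, GG f g w = GG f' g' w) : QB a f g = QB a f' g' := F.congr f g f' g' h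

lemma QB_self (f : ℝ → ℂ) : QB a f f = (QQ a f : ℂ) := by
  have h1 := QB_conj (a := a) f f
  exact (Complex.conj_eq_iff_re.1 h1.symm).symm

lemma QQ_congr {f g : ℝ → ℂ} (h : ∀ w, GG f f w = GG g g w) : QQ a f = QQ a g :=
  congrArg Complex.re (QB_congr h)

lemma QQ_smul (f : ℝ → ℂ) (c : ℂ) : QQ a (fun x => c * f x) = ‖c‖ ^ 2 * QQ a f := by
  have h1 : QB a (fun x => c * f x) (fun x => c * f x) = ((‖c‖ ^ 2 * QQ a f : ℝ) : ℂ) := by
    rw [QB_smul_left, QB_conj, QB_smul_left, map_mul, ← QB_conj, QB_self, ← mul_assoc, Complex.mul_conj,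
      Complex.normSq_eq_norm_sq]
    push_cast
    rfl
  have h2 := congrArg Complex.re h1
  rw [Complex.ofReal_re] at h2
  exact h2

lemma QQ_zero_of_TT {f : ℝ → ℂ} (h : ∀ w, TT f w = 0) : QQ a f = 0 := by
  have h1 : QQ a f = QQ a (fun x => 0 * f x) := QQ_congr fun w => by
    unfold GG
    rw [h, TT_smul, zero_mul, zero_mul, zero_mul]
  rw [h1, QQ_smul]
  simp

lemma coer : ∃ C : ℝ, 0 < C ∧ ∀ f : ℝ → ℂ, Hd a f → LL f ≤ 4 * Real.pi * QQ a f + C * N2 f := F.co

lemma QQ_bd : ∃ C : ℝ, 0 < C ∧ ∀ f : ℝ → ℂ, Hd a f → |QQ a f| ≤ C * LL f := F.bd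

end

variable [K : Win]

lemma IPH_int {a : ℝ} {f g : ℝ → ℂ} (hf : Fa a f) (hg : Fa a g) :
    IntegrableOn (fun t : ℝ => GG f g (t * I)) wi :=
  ((GG_diff hf hg).continuous.comp (by fun_prop : Continuous fun t : ℝ => (t * I : ℂ))).continuousOn.integrableOn_compact
    wi_compact

lemma IPH_conj (f g : ℝ → ℂ) : IPH g f = conj (IPH f g) := by
  unfold IPH
  rw [← integral_conj]
  refine integral_congr_ae (Eventually.of_forall fun x => ?_)
  simp only
  rw [GG_line', GG_line', map_mul, Complex.conj_conj]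
  ring

lemma IPH_add_left {a : ℝ} {f g h : ℝ → ℂ} (hf : Fa a f) (hg : Fa a g) (hh : Fa a h) :
    IPH (fun x => f x + g x) h = IPH f h + IPH g h := by
  unfold IPH
  rw [← integral_add (IPH_int hf hh) (IPH_int hg hh)]
  refine integral_congr_ae (Eventually.of_forall fun x => ?_)
  simp only
  exact GG_add_left hf hg _

lemma IPH_smul_left (f h : ℝ → ℂ) (c : ℂ) : IPH (fun x => c * f x) h = c * IPH f h := by
  unfold IPH
  rw [← integral_const_mul]
  refine integral_congr_ae (Eventually.of_forall fun x => ?_)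
  simp only
  exact GG_smul_left _ _ _ _

lemma IPH_self (f : ℝ → ℂ) : IPH f f = (NH f : ℂ) := by
  unfold IPH NH
  rw [← integral_complex_ofReal]
  refine integral_congr_ae (Eventually.of_forall fun x => ?_)
  simp only
  rw [GG_line', Complex.mul_conj, Complex.normSq_eq_norm_sq]

variable [F : FD a]

/-- a large multiple of the mass on the window makes the form coercive -/
theorem poinc (ha : 0 < a) (M : ℝ) : ∃ Λ : ℝ, 0 < Λ ∧ ∀ f : ℝ → ℂ, Hd a f →
    M * N2 f ≤ QQ a f + Λ * NH f := by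
  by_contra hcon
  push Not at hcon
  obtain ⟨C, hC, hco⟩ := coer (a := a)
  have hpi := Real.pi_pos
  have h1 : ∀ n : ℕ, ∃ f : ℝ → ℂ, Hd a f ∧ N2 f = 1 ∧ QQ a f + ((n : ℝ) + 1) * NH f < M := by
    intro n
    obtain ⟨f, hf, hlt⟩ := hcon ((n : ℝ) + 1) (by positivity)
    have hN : 0 < N2 f := by
      refine lt_of_le_of_ne (N2_nonneg f) fun h0 => ?_
      have h2 := TT_zero_of_N2 ha hf.1 h0.symm
      rw [QQ_zero_of_TT h2, ← h0] at hlt
      have h3 : NH f = 0 := by
        unfold NH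
        simp only [h2, norm_zero, ne_eq, OfNat.ofNat_ne_zero, not_false_eq_true, zero_pow, integral_zero]
      rw [h3] at hlt
      linarith
    set c : ℂ := ((1 / Real.sqrt (N2 f) : ℝ) : ℂ) with hc
    have hc2 : ‖c‖ ^ 2 = 1 / N2 f := by
      rw [hc, Complex.norm_real, Real.norm_eq_abs, sq_abs, div_pow, Real.sq_sqrt hN.le, one_pow]
    refine ⟨fun x => c * f x, hf.smul c, ?_, ?_⟩
    · rw [N2_smul, hc2]; exact one_div_mul_cancel hN.ne'
    · rw [QQ_smul, NH_smul, hc2]
      have e : 1 / N2 f * QQ a f + ((n : ℝ) + 1) * (1 / N2 f * NH f) = (QQ a f + ((n : ℝ) + 1) * NH f) / N2 f := by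
        field_simp
      rw [e, div_lt_iff₀ hN]
      exact hlt
  choose f hf hN hQ using h1
  have hQb : ∀ n, QQ a (f n) ≤ M := fun n => by
    have h1 := hQ n
    have h2 := NH_nonneg (f n)
    have h3 : 0 ≤ ((n : ℝ) + 1) * NH (f n) := by positivity
    linarith
  have hLb : ∀ n, LL (f n) ≤ 4 * Real.pi * M + C := fun n => by
    have h1 := hco (f n) (hf n)
    rw [hN n, mul_one] at h1
    have := mul_le_mul_of_nonneg_left (hQb n) (by positivity : (0 : ℝ) ≤ 4 * Real.pi)
    linarith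
  have hQl : ∀ n, -C / (4 * Real.pi) ≤ QQ a (f n) := fun n => by
    have h1 := hco (f n) (hf n)
    rw [hN n, mul_one] at h1
    have h2 := LL_nonneg (f n)
    rw [div_le_iff₀ (by positivity)]
    linarith
  have hNHb : ∀ n : ℕ, NH (f n) ≤ (M + C / (4 * Real.pi)) / ((n : ℝ) + 1) := fun n => by
    rw [le_div_iff₀ (by positivity)]
    have h1 := hQ n
    have h2 := hQl n
    rw [neg_div] at h2
    linarith
  obtain ⟨φ, hφ, hcau⟩ := compact_seq ha hf hLb
  -- the limit in mean square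
  have hM : ∀ n, MemLp (f n) 2 volume := fun n => (hf n).1.1
  have hcs : CauchySeq (fun n => (hM (φ n)).toLp (f (φ n))) := by
    rw [Metric.cauchySeq_iff]
    intro ε hε
    obtain ⟨N, hN'⟩ := hcau ((ε / 2) ^ 2) (by positivity)
    refine ⟨N, fun m hm n hn => ?_⟩
    have h1 := hN' m n hm hn
    have h3 : ‖(hM (φ m)).toLp (f (φ m)) - (hM (φ n)).toLp (f (φ n))‖ ^ 2 = N2 (fun x => f (φ m) x - f (φ n) x) := by
      rw [← MemLp.toLp_sub]
      exact norm_toLp_sq _
    rw [dist_eq_norm]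
    rw [← h3] at h1
    have h4 := abs_le_of_sq_le_sq' h1 (by positivity)
    linarith [h4.2]
  obtain ⟨u, hu⟩ := cauchySeq_tendsto_of_complete hcs
  set g : ℝ → ℂ := (Icc (-a) a).indicator (u : ℝ → ℂ) with hg
  have hgF : Fa a g := by
    refine ⟨(Lp.memLp u).indicator measurableSet_Icc, fun x hx => ?_⟩
    rw [hg, indicator_of_notMem]
    rw [mem_Icc, ← abs_le]
    exact not_le.2 hx
  have hN2 : ∀ n, N2 (fun x => f n x - g x) ≤ ‖(hM n).toLp (f n) - u‖ ^ 2 := by
    intro n
    have hmu : MemLp (fun x => f n x - (u : ℝ → ℂ) x) 2 volume := (hM n).sub (Lp.memLp u)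
    have h1 : (hM n).toLp (f n) - u = hmu.toLp _ := by
      have : u = (Lp.memLp u).toLp (u : ℝ → ℂ) := (Lp.toLp_coeFn u (Lp.memLp u)).symm
      conv_lhs => rw [this]
      rw [← MemLp.toLp_sub]
      rfl
    rw [h1, norm_toLp_sq]
    unfold N2
    refine integral_mono ((hf n).1.sub hgF).sq_int (hmu.integrable_norm_pow (by norm_num)) fun x => ?_
    simp only
    by_cases hx : x ∈ Icc (-a) a
    · rw [hg, indicator_of_mem hx]
    · rw [hg, indicator_of_notMem hx]
      have : f n x = 0 := (hf n).1.2 x (by rw [mem_Icc, ← abs_le, not_le] at hx; exact hx)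
      rw [this]
      simp
  have hN0 : Tendsto (fun n => N2 (fun x => f (φ n) x - g x)) atTop (𝓝 0) := by
    have h1 : Tendsto (fun n => ‖(hM (φ n)).toLp (f (φ n)) - u‖ ^ 2) atTop (𝓝 0) := by
      have := (tendsto_iff_norm_sub_tendsto_zero.1 hu).pow 2
      simpa using this
    exact squeeze_zero (fun n => N2_nonneg _) (fun n => hN2 (φ n)) h1
  -- the mass of the limit on the window
  have hNHg : NH g = 0 := by
    refine le_antisymm (le_of_forall_pos_le_add fun ε hε => ?_) (NH_nonneg g)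
    have t1 : Tendsto (fun n : ℕ => (M + C / (4 * Real.pi)) / (((φ n : ℕ) : ℝ) + 1)) atTop (𝓝 0) := by
      have h1 : Tendsto (fun n : ℕ => ((n : ℝ) + 1)) atTop atTop :=
        tendsto_atTop_add_const_right _ _ tendsto_natCast_atTop_atTop
      exact ((h1.comp hφ.tendsto_atTop).const_div_atTop _)
    obtain ⟨n, h1, h2⟩ := ((t1.eventually (gt_mem_nhds (show 0 < ε / 4 by positivity))).and
      (hN0.eventually (gt_mem_nhds (show 0 < ε / (16 * Real.pi) by positivity)))).exists
    have h3 := NH_add_le (hf (φ n)).1 (hgF.sub (hf (φ n)).1)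
    have e : (fun x => f (φ n) x + (g x - f (φ n) x)) = g := by funext x; ring
    rw [e] at h3
    have h4 := NH_le_N2 (hgF.sub (hf (φ n)).1)
    have h5 : N2 (fun x => g x - f (φ n) x) = N2 (fun x => f (φ n) x - g x) := by
      unfold N2
      congr 1
      funext x
      rw [norm_sub_rev]
    rw [h5] at h4
    have h6 := hNHb (φ n)
    have h7 : 2 * Real.pi * N2 (fun x => f (φ n) x - g x) ≤ 2 * Real.pi * (ε / (16 * Real.pi)) :=
      mul_le_mul_of_nonneg_left h2.le (by positivity)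
    have h8 : 2 * Real.pi * (ε / (16 * Real.pi)) = ε / 8 := by field_simp; ring
    linarith
  have hg0 := N2_zero_of_TT hgF (TT_zero_of_NH hgF hNHg)
  obtain ⟨n, h2⟩ := (hN0.eventually (gt_mem_nhds (show (0 : ℝ) < 1 / 4 by norm_num))).exists
  have h3 := N2_add_le hgF ((hf (φ n)).1.sub hgF)
  have e : (fun x => g x + (f (φ n) x - g x)) = f (φ n) := by funext x; ring
  rw [e, hN, hg0] at h3
  linarith

/-- coercivity with respect to the mass on the window -/
theorem coerH (ha : 0 < a) : ∃ C1 C2 : ℝ, 0 < C1 ∧ 0 < C2 ∧ ∀ f : ℝ → ℂ, Hd a f → LL f ≤ C1 * QQ a f + C2 * NH f := by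
  obtain ⟨C, hC, hco⟩ := coer (a := a)
  obtain ⟨Λ, hΛ, h⟩ := poinc ha 1
  have hpi := Real.pi_pos
  refine ⟨4 * Real.pi + C, C * Λ, by positivity, by positivity, fun f hf => ?_⟩
  have h1 := hco f hf
  have h2 := h f hf
  rw [one_mul] at h2
  have h3 := mul_le_mul_of_nonneg_left h2 hC.le
  linarith



end Pool.Agent.Run7.h966.FD
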