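import Pool.Agent.Run7.h966.FD.F1

set_option autoImplicit false
set_option linter.unusedSectionVars false
set_option linter.dupNamespace false
set_option linter.unusedVariables false
set_option maxHeartbeats 2000000

open Complex Filter Topology Set MeasureTheory Metric
open scoped ComplexConjugate

namespace Pool.Agent.Run7.h966.FD

open Pool.Agent.Y23 Pool.Agent.Y23.G
open Pool.Agent.Y23.G.CB (Win wi NH IPH wi_meas wi_compact NH_int NH_nonneg NH_le_N2 NH_le_LL NH_smul NH_add_le TT_zero_of_NH)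

attribute [local instance] Pool.Agent.Y23.G.CA.Z.zL

variable {a : ℝ} [K : Win] [F : FD a]


/-- the shifted Weil form -/
noncomputable def BB (a : ℝ) [F : FD a] (μ : ℝ) (f g : ℝ → ℂ) : ℂ := QB a f g - μ * IPH f g

/-- the shifted Weil form on the diagonal -/
noncomputable def bq (a : ℝ) [F : FD a] (μ : ℝ) (f : ℝ → ℂ) : ℝ := QQ a f - μ * NH f

lemma BB_conj (μ : ℝ) (f g : ℝ → ℂ) : BB a μ g f = conj (BB a μ f g) := by
  unfold BB
  rw [map_sub, map_mul, Complex.conj_ofReal, QB_conj, IPH_conj]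

lemma BB_smul_left (μ : ℝ) (f g : ℝ → ℂ) (c : ℂ) : BB a μ (fun x => c * f x) g = c * BB a μ f g := by
  unfold BB
  rw [QB_smul_left, IPH_smul_left]; ring

lemma BB_smul_right (μ : ℝ) (f g : ℝ → ℂ) (c : ℂ) : BB a μ f (fun x => c * g x) = conj c * BB a μ f g := by
  rw [BB_conj, BB_smul_left, map_mul, ← BB_conj]

lemma BB_add_left (ha : 0 < a) (μ : ℝ) {f g h : ℝ → ℂ} (hf : Hd a f) (hg : Hd a g) (hh : Hd a h) :
    BB a μ (fun x => f x + g x) h = BB a μ f h + BB a μ g h := by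
  unfold BB
  rw [QB_add_left hf hg hh, IPH_add_left hf.1 hg.1 hh.1]; ring

lemma BB_add_right (ha : 0 < a) (μ : ℝ) {f g h : ℝ → ℂ} (hf : Hd a f) (hg : Hd a g) (hh : Hd a h) :
    BB a μ h (fun x => f x + g x) = BB a μ h f + BB a μ h g := by
  rw [BB_conj, BB_add_left ha μ hf hg hh, map_add, ← BB_conj, ← BB_conj]

lemma BB_self (ha : 0 < a) (μ : ℝ) {f : ℝ → ℂ} (hf : Hd a f) : BB a μ f f = (bq a μ f : ℂ) := by
  unfold BB bq
  rw [QB_self, IPH_self]
  push_cast; ring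

/-- expansion of the form on a line -/
lemma bq_line (ha : 0 < a) (μ : ℝ) {f g : ℝ → ℂ} (hf : Hd a f) (hg : Hd a g) (t : ℂ) :
    bq a μ (fun x => f x + t * g x) = bq a μ f + 2 * (conj t * BB a μ f g).re + ‖t‖ ^ 2 * bq a μ g := by
  have h1 : BB a μ (fun x => f x + t * g x) (fun x => f x + t * g x) =
      bq a μ f + (conj t * BB a μ f g + conj (conj t * BB a μ f g)) + (‖t‖ ^ 2 : ℝ) * bq a μ g := by
    have htg := hg.smul t
    rw [BB_add_left ha μ hf htg (hf.add htg), BB_add_right ha μ hf htg hf, BB_add_right ha μ hf htg htg,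
      BB_smul_left, BB_smul_left, BB_smul_right, BB_smul_right, BB_self ha μ hf, BB_self ha μ hg, BB_conj μ f g,
      map_mul, Complex.conj_conj]
    have : ((‖t‖ ^ 2 : ℝ) : ℂ) = t * conj t := by
      rw [Complex.mul_conj, Complex.normSq_eq_norm_sq]
    rw [this]
    ring
  rw [BB_self ha μ (hf.add (hg.smul t))] at h1
  have h2 := congrArg Complex.re h1
  rw [Complex.ofReal_re, Complex.add_re, Complex.add_re, Complex.add_re, Complex.conj_re, Complex.ofReal_re,
    ← Complex.ofReal_mul, Complex.ofReal_re] at h2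
  linarith

/-- Cauchy-Schwarz -/
lemma BB_cs (ha : 0 < a) {μ : ℝ} (hpos : ∀ f, Hd a f → 0 ≤ bq a μ f) {f g : ℝ → ℂ} (hf : Hd a f) (hg : Hd a g) :
    ‖BB a μ f g‖ ^ 2 ≤ bq a μ f * bq a μ g := by
  set b := BB a μ f g with hb
  have h0 : conj b * b = ((‖b‖ ^ 2 : ℝ) : ℂ) := by
    rw [mul_comm, Complex.mul_conj, Complex.normSq_eq_norm_sq]
  have key : ∀ s : ℝ, 0 ≤ bq a μ f - 2 * s * ‖b‖ ^ 2 + s ^ 2 * ‖b‖ ^ 2 * bq a μ g := by
    intro s
    have h1 := hpos _ (hf.add (hg.smul (-(s : ℂ) * b)))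
    rw [bq_line ha μ hf hg (-(s : ℂ) * b), ← hb] at h1
    have h2 : conj (-(s : ℂ) * b) * b = ((-(s * ‖b‖ ^ 2) : ℝ) : ℂ) := by
      rw [map_mul, map_neg, Complex.conj_ofReal, mul_assoc, h0]
      push_cast; ring
    have h3 : ‖-(s : ℂ) * b‖ ^ 2 = s ^ 2 * ‖b‖ ^ 2 := by
      rw [norm_mul, norm_neg, Complex.norm_real, mul_pow, Real.norm_eq_abs, sq_abs]
    rw [h2, h3, Complex.ofReal_re] at h1
    linarith
  have hf0 := hpos f hf
  have hg0 := hpos g hg
  rcases eq_or_ne (bq a μ g) 0 with h | h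
  · by_contra hcon
    rw [h, mul_zero, not_le] at hcon
    have h1 := key ((bq a μ f + 1) / (2 * ‖b‖ ^ 2))
    rw [h, mul_zero, add_zero] at h1
    have hb0 : ‖b‖ ≠ 0 := fun hb0 => by rw [hb0] at hcon; norm_num at hcon
    have h2 : 2 * ((bq a μ f + 1) / (2 * ‖b‖ ^ 2)) * ‖b‖ ^ 2 = bq a μ f + 1 := by
      field_simp
    rw [h2] at h1
    linarith
  · have hg1 : 0 < bq a μ g := lt_of_le_of_ne hg0 (Ne.symm h)
    have h1 := key (1 / bq a μ g)
    have h2 : bq a μ f - 2 * (1 / bq a μ g) * ‖b‖ ^ 2 + (1 / bq a μ g) ^ 2 * ‖b‖ ^ 2 * bq a μ g =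
        bq a μ f - ‖b‖ ^ 2 / bq a μ g := by
      field_simp
      ring
    rw [h2, sub_nonneg, div_le_iff₀ hg1] at h1
    exact h1

/-- elements of the kernel are orthogonal to everything -/
lemma BB_ker (ha : 0 < a) {μ : ℝ} (hpos : ∀ f, Hd a f → 0 ≤ bq a μ f) {f g : ℝ → ℂ} (hf : Hd a f) (hg : Hd a g)
    (h0 : bq a μ f = 0) : BB a μ f g = 0 := by
  have h := BB_cs ha hpos hf hg
  rw [h0, zero_mul] at h
  have h1 : ‖BB a μ f g‖ ^ 2 = 0 := le_antisymm h (sq_nonneg _)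
  exact norm_eq_zero.1 (pow_eq_zero_iff (two_ne_zero) |>.1 h1)

/-- the form depends only on the product -/
lemma BB_congr (μ : ℝ) {f g f' g' : ℝ → ℂ} (h : ∀ w, GG f g w = GG f' g' w) : BB a μ f g = BB a μ f' g' := by
  have h1 : QB a f g = QB a f' g' := QB_congr h
  have h2 : IPH f g = IPH f' g' := by
    unfold IPH
    exact integral_congr_ae (Eventually.of_forall fun t => h _)
  unfold BB
  rw [h1, h2]

/-- multiplication by `w - w₀` is skew -/
lemma BB_skew (μ : ℝ) {w0 : ℂ} (hw0 : w0.re = 0) {f g f' g' : ℝ → ℂ} (hf : Fa a f) (hg : Fa a g)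
    (hf' : Fa a f') (hg' : Fa a g') (h1 : ∀ w, TT f' w = (w - w0) * TT f w) (h2 : ∀ w, TT g' w = (w - w0) * TT g w) :
    BB a μ f' g = -BB a μ f g' := by
  have e : -BB a μ f g' = BB a μ f (fun x => (-1 : ℂ) * g' x) := by
    rw [BB_smul_right]; simp
  rw [e]
  refine BB_congr μ fun w => ?_
  unfold GG
  rw [TT_smul, h1, h2, map_mul, map_mul]
  have h3 : conj (-conj w - w0) = -(w - w0) := by
    apply Complex.ext
    · simp [hw0]
    · simp
      ring
  rw [h3]
  simp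
  ring




/-- the bottom of the Weil form -/
noncomputable def GM (a : ℝ) [F : FD a] : ℝ := sInf {r : ℝ | ∃ f : ℝ → ℂ, Hd a f ∧ NH f = 1 ∧ QQ a f = r}

/-- ground states -/
def KK (a : ℝ) [F : FD a] (f : ℝ → ℂ) : Prop := Hd a f ∧ bq a (GM a) f = 0

/-- elements of mass one -/
lemma exists_elem (ha : 0 < a) : ∃ f : ℝ → ℂ, Hd a f ∧ NH f = 1 := by
  obtain ⟨f, hf, hN⟩ := Pool.Agent.Y23.G.exists_elem ha
  have h0 : 0 < NH f := by
    refine lt_of_le_of_ne (NH_nonneg f) fun h => ?_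
    have := Pool.Agent.Y23.G.N2_zero_of_TT hf.1 (TT_zero_of_NH hf.1 h.symm)
    rw [this] at hN
    norm_num at hN
  refine ⟨fun x => ((1 / Real.sqrt (NH f) : ℝ) : ℂ) * f x, hf.smul _, ?_⟩
  rw [NH_smul, Complex.norm_real, Real.norm_eq_abs, sq_abs, div_pow, Real.sq_sqrt h0.le, one_pow]
  exact one_div_mul_cancel h0.ne'

lemma bq_smul (μ : ℝ) (f : ℝ → ℂ) (c : ℂ) : bq a μ (fun x => c * f x) = ‖c‖ ^ 2 * bq a μ f := by
  unfold bq
  rw [QQ_smul, NH_smul]; ring

lemma NH_zero_of_TT {f : ℝ → ℂ} (h : ∀ w, TT f w = 0) : NH f = 0 := by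
  unfold NH
  simp only [h, norm_zero, ne_eq, OfNat.ofNat_ne_zero, not_false_eq_true, zero_pow, integral_zero]

lemma GM_bdd (ha : 0 < a) : BddBelow {r : ℝ | ∃ f : ℝ → ℂ, Hd a f ∧ NH f = 1 ∧ QQ a f = r} := by
  obtain ⟨C1, C2, hC1, hC2, h⟩ := coerH ha
  refine ⟨-C2 / C1, ?_⟩
  rintro r ⟨f, hf, hN, rfl⟩
  have h1 := h f hf
  have h2 := LL_nonneg f
  rw [hN, mul_one] at h1
  rw [div_le_iff₀ hC1]
  linarith

lemma bq_nonneg (ha : 0 < a) {f : ℝ → ℂ} (hf : Hd a f) : 0 ≤ bq a (GM a) f := by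
  rcases eq_or_ne (NH f) 0 with h | h
  · have h1 := TT_zero_of_NH hf.1 h
    unfold bq
    rw [QQ_zero_of_TT h1, h]
    simp
  · have hN : 0 < NH f := lt_of_le_of_ne (NH_nonneg f) (Ne.symm h)
    set c : ℂ := ((1 / Real.sqrt (NH f) : ℝ) : ℂ) with hc
    have hc2 : ‖c‖ ^ 2 = 1 / NH f := by
      rw [hc, Complex.norm_real, Real.norm_eq_abs, sq_abs, div_pow, Real.sq_sqrt hN.le, one_pow]
    have h1 : GM a ≤ QQ a (fun x => c * f x) := by
      refine csInf_le (GM_bdd ha) ⟨_, hf.smul c, ?_, rfl⟩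
      rw [NH_smul, hc2]
      exact one_div_mul_cancel hN.ne'
    rw [QQ_smul, hc2, one_div, inv_mul_eq_div, le_div_iff₀ hN] at h1
    unfold bq
    linarith

lemma KK.smul {f : ℝ → ℂ} (hf : KK a f) (c : ℂ) : KK a (fun x => c * f x) :=
  ⟨hf.1.smul c, by rw [bq_smul, hf.2, mul_zero]⟩

lemma KK.add (ha : 0 < a) {f g : ℝ → ℂ} (hf : KK a f) (hg : KK a g) : KK a (fun x => f x + g x) := by
  refine ⟨hf.1.add hg.1, ?_⟩
  have h1 := bq_line ha (GM a) hf.1 hg.1 1
  simp only [one_mul, map_one] at h1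
  rw [h1, BB_ker ha (fun f hf => bq_nonneg ha hf) hf.1 hg.1 hf.2, hf.2, hg.2]
  simp

lemma KK.sub (ha : 0 < a) {f g : ℝ → ℂ} (hf : KK a f) (hg : KK a g) : KK a (fun x => f x - g x) := by
  have := hf.add ha (hg.smul (-1))
  have e : (fun x => f x + -1 * g x) = fun x => f x - g x := by funext x; ring
  rwa [e] at this

lemma bq_add_le (ha : 0 < a) {f g : ℝ → ℂ} (hf : Hd a f) (hg : Hd a g) :
    bq a (GM a) (fun x => f x + g x) ≤ 2 * bq a (GM a) f + 2 * bq a (GM a) g := by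
  have h1 := bq_line ha (GM a) hf hg 1
  have h2 := bq_line ha (GM a) hf hg (-1)
  have h3 := bq_nonneg ha (hf.add (hg.smul (-1)))
  simp only [one_mul, map_one, norm_one, one_pow, map_neg, norm_neg, neg_mul, Complex.neg_re] at h1 h2 h3
  linarith

lemma bq_sub_le (ha : 0 < a) {f g : ℝ → ℂ} (hf : Hd a f) (hg : Hd a g) :
    bq a (GM a) (fun x => f x - g x) ≤ 2 * bq a (GM a) f + 2 * bq a (GM a) g := by
  have := bq_add_le ha hf (hg.smul (-1))
  have e : (fun x => f x + -1 * g x) = fun x => f x - g x := by funext x; ring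
  rw [e, bq_smul] at this
  simpa using this

/-- the form is bounded by the weighted norm -/
lemma bq_le (ha : 0 < a) : ∃ C : ℝ, 0 < C ∧ ∀ f, Hd a f → bq a (GM a) f ≤ C * LL f := by
  obtain ⟨C, hC, h⟩ := QQ_bd (a := a)
  refine ⟨C + |GM a|, by positivity, fun f hf => ?_⟩
  have h2 := h f hf
  have h4 := NH_nonneg f
  have h5 : NH f ≤ LL f := NH_le_LL hf
  have h6 : -(GM a * NH f) ≤ |GM a| * LL f := by
    calc -(GM a * NH f) ≤ |GM a * NH f| := neg_le_abs _
      _ = |GM a| * NH f := by rw [abs_mul, abs_of_nonneg h4]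
      _ ≤ |GM a| * LL f := mul_le_mul_of_nonneg_left h5 (abs_nonneg _)
  unfold bq
  have := (abs_le.1 h2).2
  nlinarith

/-- limits of almost ground states -/
lemma key_seq (ha : 0 < a) {f : ℕ → ℝ → ℂ} (hf : ∀ n, Hd a (f n)) (hN : ∀ n, NH (f n) = 1)
    (hb : Tendsto (fun n => bq a (GM a) (f n)) atTop (𝓝 0)) :
    ∃ (φ : ℕ → ℕ) (g : ℝ → ℂ), StrictMono φ ∧ KK a g ∧ 1 / 4 ≤ NH g ∧
      ∀ ε : ℝ, 0 < ε → ∃ N : ℕ, ∀ n, N ≤ n → LL (fun x => f (φ n) x - g x) ≤ ε := by
  obtain ⟨C, hC, hco⟩ := coer (a := a)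
  obtain ⟨C1, C2, hC1, hC2, hcoH⟩ := coerH ha
  obtain ⟨C', hC', hbq⟩ := bq_le ha
  have hpi := Real.pi_pos
  -- boundedness
  obtain ⟨D, hD⟩ : ∃ D : ℝ, ∀ n, bq a (GM a) (f n) ≤ D := by
    obtain ⟨D, hD⟩ := hb.bddAbove_range
    exact ⟨D, fun n => hD (mem_range_self n)⟩
  have hLb : ∀ n, LL (f n) ≤ C1 * (D + GM a) + C2 := by
    intro n
    have h1 := hcoH (f n) (hf n)
    have h2 := hD n
    unfold bq at h2
    rw [hN n] at h1 h2
    have : C1 * QQ a (f n) ≤ C1 * (D + GM a) := by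
      refine mul_le_mul_of_nonneg_left ?_ hC1.le
      linarith
    linarith
  obtain ⟨φ, hφ, hcau⟩ := compact_seq ha hf hLb
  have hbφ : Tendsto (fun n => bq a (GM a) (f (φ n))) atTop (𝓝 0) := hb.comp hφ.tendsto_atTop
  have hLc : ∀ ε : ℝ, 0 < ε → ∃ N : ℕ, ∀ m n : ℕ, N ≤ m → N ≤ n → LL (fun x => f (φ m) x - f (φ n) x) ≤ ε := by
    intro ε hε
    set K' := 4 * Real.pi * (4 + |GM a| * (2 * Real.pi)) + C with hK
    have hK0 : 0 < K' := by positivity
    obtain ⟨N1, hN1⟩ := hcau (ε / K') (by positivity)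
    have h2 := (Metric.tendsto_atTop.1 hbφ) (ε / K') (by positivity)
    obtain ⟨N3, hN2'⟩ := h2
    refine ⟨max N1 N3, fun m n hm hn => ?_⟩
    have h3 := hN1 m n (le_of_max_le_left hm) (le_of_max_le_left hn)
    have h4 := hN2' m (le_of_max_le_right hm)
    have h5 := hN2' n (le_of_max_le_right hn)
    rw [Real.dist_eq, sub_zero] at h4 h5
    have h6 := (abs_lt.1 h4).2
    have h7 := (abs_lt.1 h5).2
    have h8 := hco _ ((hf (φ m)).sub (hf (φ n)))
    have h9 := bq_sub_le ha (hf (φ m)) (hf (φ n))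
    have h10 := NH_nonneg (fun x => f (φ m) x - f (φ n) x)
    have h10' := NH_le_N2 ((hf (φ m)).sub (hf (φ n))).1
    have h11 : QQ a (fun x => f (φ m) x - f (φ n) x) ≤ (4 + |GM a| * (2 * Real.pi)) * (ε / K') := by
      have : QQ a (fun x => f (φ m) x - f (φ n) x) = bq a (GM a) (fun x => f (φ m) x - f (φ n) x) +
          GM a * NH (fun x => f (φ m) x - f (φ n) x) := by unfold bq; ring
      rw [this]
      have h12 : GM a * NH (fun x => f (φ m) x - f (φ n) x) ≤ |GM a| * (2 * Real.pi * (ε / K')) := by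
        calc _ ≤ |GM a| * NH (fun x => f (φ m) x - f (φ n) x) := mul_le_mul_of_nonneg_right (le_abs_self _) h10
          _ ≤ _ := mul_le_mul_of_nonneg_left (h10'.trans (mul_le_mul_of_nonneg_left h3 (by positivity))) (abs_nonneg _)
      nlinarith
    calc LL (fun x => f (φ m) x - f (φ n) x) ≤ 4 * Real.pi * ((4 + |GM a| * (2 * Real.pi)) * (ε / K')) + C * (ε / K') := by
          refine h8.trans (add_le_add (mul_le_mul_of_nonneg_left h11 (by positivity)) (mul_le_mul_of_nonneg_left h3 hC.le))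
      _ = K' * (ε / K') := by rw [hK]; ring
      _ = ε := mul_div_cancel₀ _ hK0.ne'
  obtain ⟨g, hg, hlim⟩ := complete_seq ha (fun n => hf (φ n)) hLc
  refine ⟨φ, g, hφ, ⟨hg, ?_⟩, ?_, hlim⟩
  · -- vanishing of the form
    refine le_antisymm (le_of_forall_pos_le_add fun ε hε => ?_) (bq_nonneg ha hg)
    obtain ⟨N1, hN1⟩ := hlim (ε / (4 * C')) (by positivity)
    obtain ⟨N3, hN2'⟩ := (Metric.tendsto_atTop.1 hbφ) (ε / 4) (by positivity)
    have h1 := hN1 (max N1 N3) (le_max_left _ _)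
    have h2 := hN2' (max N1 N3) (le_max_right _ _)
    set n := max N1 N3
    rw [Real.dist_eq, sub_zero] at h2
    have h3 := (abs_lt.1 h2).2
    have h4 := bq_sub_le ha (hf (φ n)) ((hf (φ n)).sub hg)
    have e : (fun x => f (φ n) x - (f (φ n) x - g x)) = g := by funext x; ring
    rw [e] at h4
    have h5 := hbq _ ((hf (φ n)).sub hg)
    have h6 : C' * LL (fun x => f (φ n) x - g x) ≤ C' * (ε / (4 * C')) := mul_le_mul_of_nonneg_left h1 hC'.le
    have h7 : C' * (ε / (4 * C')) = ε / 4 := by field_simp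
    linarith
  · obtain ⟨N1, hN1⟩ := hlim (1 / 100) (by norm_num)
    have h1 := hN1 N1 le_rfl
    have h2 := NH_add_le hg.1 ((hf (φ N1)).sub hg).1
    have e : (fun x => g x + (f (φ N1) x - g x)) = f (φ N1) := by funext x; ring
    rw [e, hN] at h2
    have h3 := NH_le_LL ((hf (φ N1)).sub hg)
    have h4 := NH_nonneg (fun x => f (φ N1) x - g x)
    have h5 := Real.pi_gt_three
    nlinarith

/-- ground states exist -/
theorem exists_ground (ha : 0 < a) : ∃ g : ℝ → ℂ, KK a g ∧ 0 < NH g := by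
  have hne : {r : ℝ | ∃ f : ℝ → ℂ, Hd a f ∧ NH f = 1 ∧ QQ a f = r}.Nonempty := by
    obtain ⟨f, hf, hN⟩ := exists_elem ha
    exact ⟨_, f, hf, hN, rfl⟩
  have h1 : ∀ n : ℕ, ∃ f : ℝ → ℂ, Hd a f ∧ NH f = 1 ∧ QQ a f < GM a + 1 / ((n : ℝ) + 1) := by
    intro n
    obtain ⟨r, ⟨f, hf, hN, rfl⟩, hr⟩ := exists_lt_of_csInf_lt hne (show GM a < GM a + 1 / ((n : ℝ) + 1) by
      have : (0 : ℝ) < 1 / ((n : ℝ) + 1) := by positivity
      linarith)
    exact ⟨f, hf, hN, hr⟩
  choose f hf hN hQ using h1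
  have hb : Tendsto (fun n => bq a (GM a) (f n)) atTop (𝓝 0) := by
    refine squeeze_zero (fun n => bq_nonneg ha (hf n)) (fun n => ?_) tendsto_one_div_add_atTop_nhds_zero_nat
    unfold bq
    rw [hN n]
    linarith [hQ n]
  obtain ⟨φ, g, _, hg, hg2, _⟩ := key_seq ha hf hN hb
  exact ⟨g, hg, by linarith⟩




theorem order_bound (ha : 0 < a) (w1 : ℂ) : ∃ N : ℕ, ∀ f : ℝ → ℂ, KK a f → NH f ≠ 0 →
    analyticOrderAt (TT f) w1 < (N : ℕ∞) := by
  by_contra hcon
  push Not at hcon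
  choose f hf hN hord using hcon
  -- normalisation
  have hNp : ∀ n, 0 < NH (f n) := fun n => lt_of_le_of_ne (NH_nonneg _) (Ne.symm (hN n))
  set c : ℕ → ℂ := fun n => ((1 / Real.sqrt (NH (f n)) : ℝ) : ℂ) with hc
  have hc2 : ∀ n, ‖c n‖ ^ 2 = 1 / NH (f n) := fun n => by
    simp only [hc]
    rw [Complex.norm_real, Real.norm_eq_abs, sq_abs, div_pow, Real.sq_sqrt (hNp n).le, one_pow]
  set g : ℕ → ℝ → ℂ := fun n x => c n * f n x with hg
  have hgK : ∀ n, KK a (g n) := fun n => (hf n).smul (c n)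
  have hgN : ∀ n, NH (g n) = 1 := fun n => by
    simp only [hg]
    rw [NH_smul, hc2]
    exact one_div_mul_cancel (hNp n).ne'
  have hder : ∀ n k : ℕ, k < n → iteratedDeriv k (TT (g n)) w1 = 0 := by
    intro n k hk
    have h1 := (natCast_le_analyticOrderAt_iff_iteratedDeriv_eq_zero (TT_an (hf n).1.1 w1)).1 (hord n) k hk
    rw [iteratedDeriv_TT (hf n).1.1] at h1
    rw [iteratedDeriv_TT (hgK n).1.1]
    have e : (fun x : ℝ => g n x * (x : ℂ) ^ k) = fun x : ℝ => c n * (f n x * (x : ℂ) ^ k) := by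
      funext x; simp only [hg]; ring
    rw [e, TT_smul, h1, mul_zero]
  obtain ⟨φ, G, hφ, hG, hG2, hlim⟩ := key_seq ha (fun n => (hgK n).1) hgN (by
    have : (fun n => bq a (GM a) (g n)) = fun _ => 0 := by funext n; exact (hgK n).2
    rw [this]; exact tendsto_const_nhds)
  have hGder : ∀ k : ℕ, iteratedDeriv k (TT G) w1 = 0 := by
    intro k
    have h1 : ∀ ε : ℝ, 0 < ε → ‖iteratedDeriv k (TT G) w1‖ ^ 2 ≤ ε := by
      intro ε hε
      set K := 2 * a * Real.exp (2 * a * |w1.re|) * (a ^ 2) ^ k with hK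
      have hK0 : 0 < K := by positivity
      obtain ⟨N, hN'⟩ := hlim (ε / K) (by positivity)
      set n := max N (k + 1) with hn
      have h2 := hN' n (le_max_left _ _)
      have hd := (hgK (φ n)).1.sub hG.1
      have h3 := norm_iteratedDeriv_TT ha hd.1 k w1
      have h4 : iteratedDeriv k (TT (fun x => g (φ n) x - G x)) w1 = -iteratedDeriv k (TT G) w1 := by
        have h5 := hder (φ n) k (lt_of_lt_of_le (Nat.lt_of_succ_le (le_max_right N (k + 1))) (hφ.id_le n))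
        rw [iteratedDeriv_TT (hgK (φ n)).1.1] at h5
        rw [iteratedDeriv_TT hd.1, iteratedDeriv_TT hG.1.1]
        have e : (fun x : ℝ => (g (φ n) x - G x) * (x : ℂ) ^ k) =
            fun x : ℝ => (g (φ n) x * (x : ℂ) ^ k) - (G x * (x : ℂ) ^ k) := by
          funext x; ring
        rw [e, TT_sub (Fa_pow (hgK (φ n)).1.1 k) (Fa_pow hG.1.1 k), h5, zero_sub]
      rw [h4, norm_neg] at h3
      have h5 := N2_le_LL hd
      have h6 := N2_nonneg (fun x => g (φ n) x - G x)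
      have h7 : N2 (fun x => g (φ n) x - G x) ≤ ε / K := by nlinarith [Real.pi_gt_three]
      calc ‖iteratedDeriv k (TT G) w1‖ ^ 2 ≤ K * N2 (fun x => g (φ n) x - G x) := by
            rw [hK]; linarith
        _ ≤ K * (ε / K) := mul_le_mul_of_nonneg_left h7 hK0.le
        _ = ε := mul_div_cancel₀ _ hK0.ne'
    have h2 : ‖iteratedDeriv k (TT G) w1‖ ^ 2 = 0 :=
      le_antisymm (le_of_forall_pos_le_add fun ε hε => by rw [zero_add]; exact h1 ε hε) (sq_nonneg _)
    exact norm_eq_zero.1 (pow_eq_zero_iff two_ne_zero |>.1 h2)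
  have htop : analyticOrderAt (TT G) w1 = ⊤ := by
    rw [ENat.eq_top_iff_forall_ge]
    intro n
    exact (natCast_le_analyticOrderAt_iff_iteratedDeriv_eq_zero (TT_an hG.1.1 w1)).2 fun i _ => hGder i
  have h0 := NH_zero_of_TT (entire_zero (differentiable_TT hG.1.1) htop)
  rw [h0] at hG2
  norm_num at hG2

lemma bq_congr (μ : ℝ) {f g : ℝ → ℂ} (h : ∀ w, GG f f w = GG g g w) :
    bq a μ f = bq a μ g := by
  have h1 : QQ a f = QQ a g := QQ_congr h
  have h2 : NH f = NH g := by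
    unfold NH
    refine integral_congr_ae (Eventually.of_forall fun t => ?_)
    simp only
    have h3 := h (t * I)
    rw [GG_line', GG_line', Complex.mul_conj, Complex.mul_conj, Complex.normSq_eq_norm_sq,
      Complex.normSq_eq_norm_sq] at h3
    exact_mod_cast h3
  unfold bq
  rw [h1, h2]

/-- the kernel only depends on the transform -/
lemma KK.congr {f g : ℝ → ℂ} (hf : KK a f) (hg : Hd a g) (h : ∀ w, TT f w = TT g w) : KK a g := by
  refine ⟨hg, ?_⟩
  rw [← hf.2]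
  refine bq_congr _ fun w => ?_
  unfold GG
  rw [h, h]

/-- division by a zero off the line -/
lemma KK.div_off (ha : 0 < a) {f : ℝ → ℂ} (hf : KK a f) {w0 : ℂ} (hw0 : w0.re ≠ 0) (h0 : TT f w0 = 0) :
    ∃ g : ℝ → ℂ, KK a g ∧ ∀ w, (w - w0) * TT g w = TT f w := by
  obtain ⟨g, hg, h1, _⟩ := hf.1.div ha w0 h0
  -- the Blaschke transform
  set b : ℂ := ((2 * w0.re : ℝ) : ℂ) with hb
  have hb0 : b ≠ 0 := by
    rw [hb, Complex.ofReal_ne_zero]
    exact mul_ne_zero two_ne_zero hw0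
  have hbc : b = w0 + conj w0 := by
    rw [hb, Complex.add_conj]
  set h : ℝ → ℂ := fun x => f x + b * g x with hh
  have hhH : Hd a h := hf.1.add (hg.smul b)
  have hT : ∀ w, TT h w = (w + conj w0) * TT g w := by
    intro w
    rw [hh, TT_add hf.1.1 (hg.smul b).1, TT_smul, ← h1, hbc]
    ring
  have hK : KK a h := by
    refine ⟨hhH, ?_⟩
    rw [← hf.2]
    refine bq_congr _ fun w => ?_
    unfold GG
    rw [hT, hT, ← h1, ← h1, map_mul, map_mul]
    simp only [map_add, map_sub, map_neg, Complex.conj_conj]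
    ring
  refine ⟨g, ?_, h1⟩
  have h2 := (hK.sub ha hf).smul b⁻¹
  refine h2.congr hg fun w => ?_
  rw [TT_smul, TT_sub hhH.1 hf.1.1, hT, ← h1]
  have e : (w + conj w0) * TT g w - (w - w0) * TT g w = b * TT g w := by rw [hbc]; ring
  rw [e, ← mul_assoc, inv_mul_cancel₀ hb0, one_mul]

/-- repeated division -/
lemma KK.div_pow (ha : 0 < a) {w1 : ℂ} (hw1 : w1.re ≠ 0) (j : ℕ) : ∀ {f : ℝ → ℂ}, KK a f →
    (j : ℕ∞) ≤ analyticOrderAt (TT f) w1 → ∃ g : ℝ → ℂ, KK a g ∧ ∀ w, (w - w1) ^ j * TT g w = TT f w := by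
  induction j with
  | zero => intro f hf _; exact ⟨f, hf, fun w => by simp⟩
  | succ j ih =>
    intro f hf hord
    obtain ⟨g, hg, h1⟩ := hf.div_off ha hw1 (order_pos (TT_an hf.1.1 w1) hord)
    have h2 := order_div (TT_an hg.1.1 w1) h1
    rw [h2] at hord
    have h3 : (j : ℕ∞) ≤ analyticOrderAt (TT g) w1 := by
      have h4 : (1 : ℕ∞) + (j : ℕ∞) ≤ 1 + analyticOrderAt (TT g) w1 := by
        rw [add_comm (1 : ℕ∞) (j : ℕ∞)]
        exact_mod_cast hord
      exact (ENat.add_le_add_iff_left (by simp)).1 h4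
    obtain ⟨k, hk, h5⟩ := ih hg h3
    exact ⟨k, hk, fun w => by rw [← h1, ← h5]; ring⟩

/-- the structure of the ground states: data -/
structure GData (a : ℝ) [F : FD a] (e : ℝ → ℂ) (N : ℕ) (w1 : ℂ) : Prop where
  mem : KK a e
  off : w1.re ≠ 0
  nz : TT e w1 ≠ 0
  pow : ∀ j : ℕ, j ≤ N → ∃ g : ℝ → ℂ, KK a g ∧ ∀ w, TT g w = (w - w1) ^ j * TT e w
  max : ∀ f : ℝ → ℂ, KK a f → ((N + 1 : ℕ) : ℕ∞) ≤ analyticOrderAt (TT f) w1 → NH f = 0

lemma exists_data (ha : 0 < a) : ∃ (e : ℝ → ℂ) (N : ℕ) (w1 : ℂ), GData a e N w1 := by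
  classical
  obtain ⟨f0, hf0, hN0⟩ := exists_ground ha
  -- a point off the line where the transform does not vanish
  obtain ⟨w1, hw1, hf1⟩ : ∃ w1 : ℂ, w1.re ≠ 0 ∧ TT f0 w1 ≠ 0 := by
    by_contra hcon
    push Not at hcon
    have h1 : ∀ w, TT f0 w = 0 := by
      intro w
      have hd : Dense {w : ℂ | w.re ≠ 0} := by
        have h2 : Dense ({0}ᶜ : Set ℝ) := dense_compl_singleton 0
        have h3 : IsOpenMap Complex.re := Complex.isOpenMap_re
        exact h2.preimage h3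
      have hc : IsClosed {w : ℂ | TT f0 w = 0} :=
        isClosed_eq (differentiable_TT hf0.1.1).continuous continuous_const
      have h4 : {w : ℂ | w.re ≠ 0} ⊆ {w : ℂ | TT f0 w = 0} := fun w hw => hcon w hw
      have h5 := closure_minimal h4 hc
      rw [hd.closure_eq] at h5
      exact h5 (mem_univ w)
    rw [NH_zero_of_TT h1] at hN0
    exact lt_irrefl _ hN0
  set P : ℕ → Prop := fun n => ∃ f : ℝ → ℂ, KK a f ∧ NH f ≠ 0 ∧ (n : ℕ∞) ≤ analyticOrderAt (TT f) w1 with hP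
  have hP0 : P 0 := ⟨f0, hf0, hN0.ne', by simp⟩
  have hex : ∃ n, ¬ P n := by
    obtain ⟨N, hN⟩ := order_bound ha w1
    exact ⟨N, fun ⟨f, hf, hf2, hf3⟩ => absurd (hN f hf hf2) (not_lt.2 hf3)⟩
  set n0 := Nat.find hex with hn0
  have hn1 : ¬ P n0 := Nat.find_spec hex
  have hn2 : n0 ≠ 0 := by
    intro h
    rw [h] at hn1
    exact hn1 hP0
  obtain ⟨M, hM⟩ := Nat.exists_eq_succ_of_ne_zero hn2
  have hPM : P M := by
    by_contra h
    have := Nat.find_min' hex h
    omega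
  obtain ⟨f, hf, hfN, hford⟩ := hPM
  have hmax : ∀ g : ℝ → ℂ, KK a g → ((M + 1 : ℕ) : ℕ∞) ≤ analyticOrderAt (TT g) w1 → NH g = 0 := by
    intro g hg hg2
    by_contra h
    refine hn1 ⟨g, hg, h, ?_⟩
    rw [hM]
    exact hg2
  obtain ⟨e, he, hee⟩ := hf.div_pow ha hw1 M hford
  have hnz : TT e w1 ≠ 0 := by
    intro h0
    obtain ⟨g, hg, h1⟩ := he.div_off ha hw1 h0
    apply hfN
    refine hmax f hf ?_
    rw [natCast_le_analyticOrderAt (TT_an hf.1.1 w1)]
    refine ⟨TT g, TT_an hg.1.1 w1, Eventually.of_forall fun w => ?_⟩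
    rw [← hee, ← h1, smul_eq_mul, pow_succ]
    ring
  refine ⟨e, M, w1, ⟨he, hw1, hnz, fun j hj => ?_, hmax⟩⟩
  obtain ⟨g, hg, h1⟩ := hf.div_pow ha hw1 (M - j) (le_trans (by exact_mod_cast Nat.sub_le M j) hford)
  refine ⟨g, hg, fun w => ?_⟩
  have h2 : ∀ w, (fun w => TT g w - (w - w1) ^ j * TT e w) w * ((w - w1) ^ (M - j)) = 0 := by
    intro w
    have h3 := h1 w
    have h4 := hee w
    have h5 : (w - w1) ^ M = (w - w1) ^ (M - j) * (w - w1) ^ j := by
      rw [← pow_add]; congr 1; omega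
    rw [h5] at h4
    simp only
    linear_combination h3 - h4
  have h3 := entire_mul_zero (r := fun w => TT g w - (w - w1) ^ j * TT e w) (E := fun w => (w - w1) ^ (M - j))
    ((differentiable_TT hg.1.1).sub (Differentiable.mul (by fun_prop) (differentiable_TT he.1.1))) (by fun_prop)
    (w1 := w1 + 1) (by simp) h2 w
  exact sub_eq_zero.1 h3

/-- combinations are ground states -/
lemma GData.comb (ha : 0 < a) {e : ℝ → ℂ} {N : ℕ} {w1 : ℂ} (h : GData a e N w1) (c : ℕ → ℂ) (n : ℕ) (hn : n ≤ N + 1) :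
    ∃ g : ℝ → ℂ, KK a g ∧ ∀ w, TT g w = (∑ i ∈ Finset.range n, c i * (w - w1) ^ i) * TT e w := by
  induction n with
  | zero =>
    refine ⟨fun x => 0 * e x, h.mem.smul 0, fun w => ?_⟩
    rw [TT_smul]; simp
  | succ n ih =>
    obtain ⟨g, hg, h1⟩ := ih (by omega)
    obtain ⟨k, hk, h2⟩ := h.pow n (by omega)
    refine ⟨fun x => g x + c n * k x, hg.add ha (hk.smul (c n)), fun w => ?_⟩
    rw [TT_add hg.1.1 (hk.1.1.smul (c n)), TT_smul, h1, h2, Finset.sum_range_succ]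
    ring

lemma GData.poly (ha : 0 < a) {e : ℝ → ℂ} {N : ℕ} {w1 : ℂ} (h : GData a e N w1) (p : Polynomial ℂ)
    (hp : p.natDegree ≤ N) : ∃ g : ℝ → ℂ, KK a g ∧ ∀ w, TT g w = p.eval w * TT e w := by
  obtain ⟨g, hg, h1⟩ := h.comb ha (fun i => (Polynomial.taylor w1 p).coeff i) (N + 1) le_rfl
  refine ⟨g, hg, fun w => ?_⟩
  rw [h1]
  congr 1
  have h2 : p.eval w = (Polynomial.taylor w1 p).eval (w - w1) := by
    rw [Polynomial.taylor_eval, sub_add_cancel]
  rw [h2, Polynomial.eval_eq_sum_range' (n := N + 1)]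
  rw [Polynomial.natDegree_taylor]
  omega

/-- every ground state is a polynomial multiple -/
lemma GData.all (ha : 0 < a) {e : ℝ → ℂ} {N : ℕ} {w1 : ℂ} (h : GData a e N w1) {f : ℝ → ℂ} (hf : KK a f) :
    ∃ p : Polynomial ℂ, p.natDegree ≤ N ∧ ∀ w, TT f w = p.eval w * TT e w := by
  have key : ∀ n : ℕ, ∃ c : ℕ → ℂ, ∃ g : ℝ → ℂ, KK a g ∧
      ∀ w, TT f w = (∑ i ∈ Finset.range n, c i * (w - w1) ^ i) * TT e w + (w - w1) ^ n * TT g w := by
    intro n
    induction n with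
    | zero => exact ⟨fun _ => 0, f, hf, fun w => by simp⟩
    | succ n ih =>
      obtain ⟨c, g, hg, h1⟩ := ih
      set c0 := TT g w1 / TT e w1 with hc0
      have h2 : KK a (fun x => g x - c0 * e x) := hg.sub ha (h.mem.smul c0)
      have h3 : ∀ w, TT (fun x => g x - c0 * e x) w = TT g w - c0 * TT e w := fun w => by
        rw [TT_sub hg.1.1 (h.mem.1.1.smul c0), TT_smul]
      have h4 : TT (fun x => g x - c0 * e x) w1 = 0 := by
        rw [h3, hc0, div_mul_cancel₀ _ h.nz, sub_self]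
      obtain ⟨k, hk, h5⟩ := h2.div_off ha h.off h4
      refine ⟨fun i => if i = n then c0 else c i, k, hk, fun w => ?_⟩
      have h6 : ∑ i ∈ Finset.range (n + 1), (if i = n then c0 else c i) * (w - w1) ^ i =
          (∑ i ∈ Finset.range n, c i * (w - w1) ^ i) + c0 * (w - w1) ^ n := by
        rw [Finset.sum_range_succ, if_pos rfl]
        congr 1
        refine Finset.sum_congr rfl fun i hi => ?_
        rw [Finset.mem_range] at hi
        rw [if_neg (by omega)]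
      rw [h6, h1, pow_succ]
      have h7 := h5 w
      rw [h3] at h7
      linear_combination (-(w - w1) ^ n) * h7
  obtain ⟨c, g, hg, h1⟩ := key (N + 1)
  obtain ⟨k, hk, h2⟩ := h.comb ha c (N + 1) le_rfl
  have h3 : KK a (fun x => f x - k x) := hf.sub ha hk
  have h4 : ∀ w, TT (fun x => f x - k x) w = (w - w1) ^ (N + 1) * TT g w := fun w => by
    rw [TT_sub hf.1.1 hk.1.1, h1, h2]; ring
  have h5 : NH (fun x => f x - k x) = 0 := by
    refine h.max _ h3 ?_
    rw [natCast_le_analyticOrderAt (TT_an h3.1.1 w1)]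
    exact ⟨TT g, TT_an hg.1.1 w1, Eventually.of_forall fun w => by rw [h4, smul_eq_mul]⟩
  have h6 : ∀ w, TT f w = TT k w := fun w => by
    have := TT_zero_of_NH h3.1.1 h5 w
    rw [TT_sub hf.1.1 hk.1.1] at this
    exact sub_eq_zero.1 this
  refine ⟨∑ i ∈ Finset.range (N + 1), Polynomial.C (c i) * (Polynomial.X - Polynomial.C w1) ^ i, ?_, fun w => ?_⟩
  · refine Polynomial.natDegree_sum_le_of_forall_le _ _ fun i hi => ?_
    rw [Finset.mem_range] at hi
    refine (Polynomial.natDegree_C_mul_le _ _).trans ?_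
    refine (Polynomial.natDegree_pow_le).trans ?_
    rw [Polynomial.natDegree_X_sub_C]
    omega
  · rw [h6, h2, Polynomial.eval_finsetSum]
    congr 1
    refine Finset.sum_congr rfl fun i _ => ?_
    simp

/-- the generator is not divisible in the kernel -/
lemma GData.no_div (ha : 0 < a) {e : ℝ → ℂ} {N : ℕ} {w1 : ℂ} (h : GData a e N w1) {w0 : ℂ} {g : ℝ → ℂ}
    (hg : KK a g) (h1 : ∀ w, (w - w0) * TT g w = TT e w) : False := by
  obtain ⟨p, _, hp⟩ := h.all ha hg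
  have h2 : ∀ w, (fun w => (w - w0) * p.eval w - 1) w * TT e w = 0 := by
    intro w
    have h3 := h1 w
    rw [hp] at h3
    simp only
    linear_combination h3
  have h3 := entire_mul_zero (r := fun w => (w - w0) * p.eval w - 1)
    ((Differentiable.mul (by fun_prop) (poly_diff p)).sub_const 1) (differentiable_TT h.mem.1.1) h.nz h2 w0
  simp at h3

/-- the zeros of the generator lie on the line -/
lemma GData.line (ha : 0 < a) {e : ℝ → ℂ} {N : ℕ} {w1 : ℂ} (h : GData a e N w1) {w0 : ℂ}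
    (h0 : TT e w0 = 0) : w0.re = 0 := by
  by_contra hre
  obtain ⟨g, hg, h1⟩ := h.mem.div_off ha hre h0
  exact h.no_div ha hg h1

/-- the zeros of the generator are simple -/
lemma GData.simple (ha : 0 < a) {e : ℝ → ℂ} {N : ℕ} {w1 : ℂ} (h : GData a e N w1) {w0 : ℂ}
    (h0 : TT e w0 = 0) : deriv (TT e) w0 ≠ 0 := by
  intro hder
  have hre := h.line ha h0
  obtain ⟨g, hg, h1, _⟩ := h.mem.1.div ha w0 h0
  have h2 : TT g w0 = 0 := by
    have h3 : HasDerivAt (TT e) (TT g w0) w0 := by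
      have h4 : HasDerivAt (fun w => (w - w0) * TT g w) (1 * TT g w0 + (w0 - w0) * deriv (TT g) w0) w0 :=
        ((hasDerivAt_id w0).sub_const w0).mul ((differentiable_TT hg.1).differentiableAt.hasDerivAt)
      rw [one_mul, sub_self, zero_mul, add_zero] at h4
      have e1 : (fun w => (w - w0) * TT g w) = TT e := by funext w; exact h1 w
      rwa [e1] at h4
    rw [← h3.deriv, hder]
  obtain ⟨z, hz, h3, _⟩ := hg.div ha w0 h2
  have hpos : ∀ f, Hd a f → 0 ≤ bq a (GM a) f := fun f hf => bq_nonneg ha hf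
  have h4 := BB_skew (GM a) hre hg.1 hz.1 h.mem.1.1 hg.1 (fun w => (h1 w).symm) (fun w => (h3 w).symm)
  rw [BB_ker ha hpos h.mem.1 hz h.mem.2, BB_self ha _ hg] at h4
  have h5 : bq a (GM a) g = 0 := by
    have : (bq a (GM a) g : ℂ) = 0 := by linear_combination h4
    exact_mod_cast this
  exact h.no_div ha ⟨hg, h5⟩ h1




lemma NH_sh (f : ℝ → ℂ) : NH (sh' f) = NH f := by
  unfold NH
  refine integral_congr_ae (Eventually.of_forall fun t => ?_)
  simp only
  rw [TT_sh, RCLike.norm_conj, line_neg_conj]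

lemma QQ_sh (f : ℝ → ℂ) : QQ a (sh' f) = QQ a f := by
  refine QQ_congr fun w => ?_
  unfold GG
  rw [TT_sh, TT_sh, Complex.conj_conj, map_neg, Complex.conj_conj, neg_neg, mul_comm]

lemma KK.sh {f : ℝ → ℂ} (hf : KK a f) : KK a (sh' f) := by
  refine ⟨Hd_sh hf.1, ?_⟩
  have := hf.2
  unfold bq at this ⊢
  rw [QQ_sh, NH_sh, this]

/-- the reflection of the generator is a multiple of the generator -/
lemma GData.conj_mul (ha : 0 < a) {e : ℝ → ℂ} {N : ℕ} {w1 : ℂ} (h : GData a e N w1) :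
    ∃ c : ℂ, c ≠ 0 ∧ ∀ w, conj (TT e (-conj w)) = c * TT e w := by
  obtain ⟨p, _, hp⟩ := h.all ha h.mem.sh
  have h1 : ∀ w, conj (TT e (-conj w)) = p.eval w * TT e w := fun w => by rw [← TT_sh, hp]
  have h2 : ∀ w, TT e w = ((p.map (starRingEnd ℂ)).comp (-Polynomial.X)).eval w * conj (TT e (-conj w)) := by
    intro w
    have h3 := congrArg (starRingEnd ℂ) (h1 (-conj w))
    have e0 : -conj (-conj w) = w := by rw [map_neg, Complex.conj_conj, neg_neg]
    rw [e0, Complex.conj_conj, map_mul] at h3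
    rw [h3]
    congr 1
    have h4 := Polynomial.eval_map_apply (f := starRingEnd ℂ) (p := p) (-conj w)
    rw [← h4, Polynomial.eval_comp, Polynomial.eval_neg, Polynomial.eval_X, map_neg, Complex.conj_conj]
  have h3 := poly_one (r := (p.map (starRingEnd ℂ)).comp (-Polynomial.X) * p) (differentiable_TT h.mem.1.1) h.nz (fun w => by
    rw [Polynomial.eval_mul, mul_assoc, ← h1, ← h2])
  obtain ⟨c, hc, hc0⟩ := poly_const h3
  refine ⟨c, hc0, fun w => ?_⟩
  rw [h1, hc, Polynomial.eval_C]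

lemma GData.smul {e : ℝ → ℂ} {N : ℕ} {w1 : ℂ} (h : GData a e N w1) {c : ℂ} (hc : c ≠ 0) :
    GData a (fun x => c * e x) N w1 := by
  refine ⟨h.mem.smul c, h.off, ?_, fun j hj => ?_, h.max⟩
  · rw [TT_smul]; exact mul_ne_zero hc h.nz
  · obtain ⟨g, hg, h1⟩ := h.pow j hj
    refine ⟨fun x => c * g x, hg.smul c, fun w => ?_⟩
    rw [TT_smul, TT_smul, h1]; ring

/-- a real generator -/
lemma exists_real_data (ha : 0 < a) : ∃ (e : ℝ → ℂ) (N : ℕ) (w1 : ℂ), GData a e N w1 ∧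
    ∀ w, TT e (-conj w) = conj (TT e w) := by
  obtain ⟨e, N, w1, h⟩ := exists_data ha
  obtain ⟨c, hc0, hc⟩ := h.conj_mul ha
  by_cases h1 : c = -1
  · refine ⟨fun x => I * e x, N, w1, h.smul I_ne_zero, fun w => ?_⟩
    have h2 := hc w
    rw [h1] at h2
    have h3 : TT e (-conj w) = -conj (TT e w) := by
      have := congrArg (starRingEnd ℂ) h2
      rw [Complex.conj_conj, map_mul, map_neg, map_one] at this
      rw [this]; ring
    rw [TT_smul, TT_smul, map_mul, Complex.conj_I, h3]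
    ring
  · have h2 : 1 + c ≠ 0 := by
      intro h3
      exact h1 (by linear_combination h3)
    refine ⟨fun x => (1 + c) * e x, N, w1, h.smul h2, fun w => ?_⟩
    have h3 : ∀ w, TT (fun x => (1 + c) * e x) w = TT e w + conj (TT e (-conj w)) := by
      intro w
      rw [TT_smul, hc]; ring
    have e0 : -conj (-conj w) = w := by rw [map_neg, Complex.conj_conj, neg_neg]
    rw [h3, h3, map_add, e0, Complex.conj_conj, add_comm]

/-- the structure theorem -/
theorem structure_thm (ha : 0 < a) : ∃ (e : ℝ → ℂ) (N : ℕ), KK a e ∧ NH e ≠ 0 ∧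
    (∀ w, TT e (-conj w) = conj (TT e w)) ∧
    (∀ w, TT e w = 0 → w.re = 0 ∧ deriv (TT e) w ≠ 0) ∧
    (∀ f, Hd a f → (KK a f ↔ ∃ p : Polynomial ℂ, p.natDegree ≤ N ∧ ∀ w, TT f w = p.eval w * TT e w)) := by
  obtain ⟨e, N, w1, h, hreal⟩ := exists_real_data ha
  refine ⟨e, N, h.mem, fun h0 => h.nz (TT_zero_of_NH h.mem.1.1 h0 w1), hreal,
    fun w hw => ⟨h.line ha hw, h.simple ha hw⟩, fun f hf => ⟨fun hK => h.all ha hK, ?_⟩⟩
  rintro ⟨p, hp, h1⟩
  obtain ⟨g, hg, h2⟩ := h.poly ha p hp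
  exact hg.congr hf fun w => by rw [h1, h2]



lemma KK.ng (h : ∀ f, QQ a (CB.ng f) = QQ a f) {f : ℝ → ℂ} (hf : KK a f) : KK a (CB.ng f) := by
  refine ⟨CB.Hd_ng hf.1, ?_⟩
  have := hf.2
  unfold bq at this ⊢
  rw [h, CB.NH_ng, this]

/-- **the generator is even or odd** -/
theorem parity (hs : ∀ f, QQ a (CB.ng f) = QQ a f) (ha : 0 < a) {e : ℝ → ℂ} {N : ℕ} {w1 : ℂ} (h : GData a e N w1) :
    (∀ w, TT e (-w) = TT e w) ∨ ∀ w, TT e (-w) = -TT e w := by
  obtain ⟨p, _, hp⟩ := h.all ha (h.mem.ng hs)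
  have h1 : ∀ w, TT e (-w) = p.eval w * TT e w := fun w => by rw [← CB.TT_ng, hp]
  have h2 : ∀ w, TT e w = (p.comp (-Polynomial.X)).eval w * TT e (-w) := by
    intro w
    have h3 := h1 (-w)
    rw [neg_neg] at h3
    rw [h3]
    congr 1
    rw [Polynomial.eval_comp, Polynomial.eval_neg, Polynomial.eval_X]
  have h3 := poly_one (r := p.comp (-Polynomial.X) * p) (differentiable_TT h.mem.1.1) h.nz (fun w => by
    rw [Polynomial.eval_mul, mul_assoc, ← h1, ← h2])
  obtain ⟨c, hc, hc0⟩ := poly_const h3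
  have h4 : ∀ w, TT e (-w) = c * TT e w := fun w => by rw [h1, hc, Polynomial.eval_C]
  have h5 : c * c = 1 := by
    have h6 := h4 (-w1)
    rw [neg_neg, h4 w1, ← mul_assoc] at h6
    have h7 : (c * c - 1) * TT e w1 = 0 := by linear_combination -h6
    rcases mul_eq_zero.1 h7 with h8 | h8
    · linear_combination h8
    · exact absurd h8 h.nz
  rcases mul_self_eq_one_iff.1 h5 with h6 | h6
  · left
    intro w
    rw [h4, h6, one_mul]
  · right
    intro w
    rw [h4, h6, neg_one_mul]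



end Pool.Agent.Run7.h966.FD
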