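import Pool.Agent.Run7.h966.FD.F2

/-! # Weil forms given by a pole, an archimedean density and prime coefficients -/

set_option autoImplicit false
set_option linter.unusedSectionVars false
set_option linter.dupNamespace false
set_option linter.unusedVariables false
set_option maxHeartbeats 2000000

open Complex Filter Topology Set MeasureTheory Metric
open scoped ComplexConjugate

namespace Pool.Agent.Run7.h966.FD

open Pool.Agent.Y23 Pool.Agent.Y23.G
open Pool.Agent.Y23.G.CB (Win wi NH IPH wi_meas wi_compact NH_int NH_nonneg NH_le_N2 NH_le_LL NH_smul NH_add_le TT_zero_of_NH)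

attribute [local instance] Pool.Agent.Y23.G.CA.Z.zL

/-- the data of a Weil form: the order of the pole, the archimedean density, the coefficients at the prime powers -/
structure WD : Type where
  /-- the order of the pole -/
  r : ℕ
  /-- the archimedean density -/
  om : ℝ → ℝ
  /-- the coefficients -/
  b : ℕ → ℝ
  cont : Continuous om
  even : ∀ t, om (-t) = om t
  lo : ∃ C : ℝ, 0 < C ∧ ∀ t, Lg t / 2 - C ≤ om t
  hi : ∃ C : ℝ, 0 < C ∧ ∀ t, |om t| ≤ C * Lg t

variable (D : WD)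

/-- the weight on the line -/
noncomputable def wt (a t : ℝ) : ℝ :=
  D.om t - ∑ n ∈ Finset.Icc 1 ⌊Real.exp (2 * a)⌋₊, 2 * D.b n * Real.cos (t * Real.log n)

lemma wt_cont (a : ℝ) : Continuous (wt D a) := by
  unfold wt
  have := D.cont
  fun_prop

lemma wt_neg (a t : ℝ) : wt D a (-t) = wt D a t := by
  unfold wt
  rw [D.even]
  congr 1
  refine Finset.sum_congr rfl fun n _ => ?_
  rw [neg_mul, Real.cos_neg]

lemma wt_sum_le (a t : ℝ) : |∑ n ∈ Finset.Icc 1 ⌊Real.exp (2 * a)⌋₊, 2 * D.b n * Real.cos (t * Real.log n)| ≤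
    ∑ n ∈ Finset.Icc 1 ⌊Real.exp (2 * a)⌋₊, 2 * |D.b n| := by
  refine (Finset.abs_sum_le_sum_abs _ _).trans (Finset.sum_le_sum fun n _ => ?_)
  rw [abs_mul, abs_mul, abs_two]
  have h1 := Real.abs_cos_le_one (t * Real.log n)
  have h2 : 0 ≤ 2 * |D.b n| := by positivity
  nlinarith

lemma wt_bd (a : ℝ) : ∃ C : ℝ, 0 < C ∧ ∀ t, |wt D a t| ≤ C * Lg t ∧ Lg t / 2 - C ≤ wt D a t := by
  obtain ⟨C1, hC1, h1⟩ := D.lo
  obtain ⟨C2, hC2, h2⟩ := D.hi
  set S := ∑ n ∈ Finset.Icc 1 ⌊Real.exp (2 * a)⌋₊, 2 * |D.b n| with hS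
  have hS0 : 0 ≤ S := Finset.sum_nonneg fun n _ => by positivity
  refine ⟨C1 + C2 + S, by positivity, fun t => ?_⟩
  have h3 := wt_sum_le D a t
  rw [← hS] at h3
  have h4 := one_le_Lg t
  have h5 := abs_le.1 h3
  constructor
  · unfold wt
    refine (abs_sub _ _).trans ?_
    have := h2 t
    nlinarith
  · unfold wt
    have := h1 t
    linarith

/-- the sesquilinear form -/
noncomputable def wB (a : ℝ) (f g : ℝ → ℂ) : ℂ :=
  D.r * (GG f g (1 / 2) + GG f g (-(1 / 2))) + (1 / (2 * Real.pi) : ℝ) * ∫ t : ℝ, (wt D a t : ℂ) * GG f g (t * I)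

lemma half_conj : conj (1 / 2 : ℂ) = 1 / 2 := by
  rw [show (1 / 2 : ℂ) = ((1 / 2 : ℝ) : ℂ) by push_cast; rfl, Complex.conj_ofReal]

lemma GG_half (f g : ℝ → ℂ) : GG f g (1 / 2) = TT f (1 / 2) * conj (TT g (-(1 / 2))) := by
  unfold GG
  rw [half_conj]

lemma GG_half' (f g : ℝ → ℂ) : GG f g (-(1 / 2)) = TT f (-(1 / 2)) * conj (TT g (1 / 2)) := by
  unfold GG
  rw [map_neg, half_conj, neg_neg]

lemma wB_herm (a : ℝ) (f g : ℝ → ℂ) : wB D a g f = conj (wB D a f g) := by
  unfold wB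
  rw [map_add, map_mul, map_mul, map_add, Complex.conj_ofReal, map_natCast, ← integral_conj, GG_half, GG_half',
    GG_half, GG_half', map_mul, map_mul, Complex.conj_conj, Complex.conj_conj]
  congr 1
  · ring
  · congr 1
    refine integral_congr_ae (Eventually.of_forall fun t => ?_)
    simp only
    rw [map_mul, Complex.conj_ofReal, GG_line', GG_line', map_mul, Complex.conj_conj]
    ring

lemma wB_int {a : ℝ} {f g : ℝ → ℂ} (hf : Hd a f) (hg : Hd a g) :
    Integrable (fun t : ℝ => (wt D a t : ℂ) * GG f g (t * I)) := by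
  obtain ⟨C, hC, h1⟩ := wt_bd D a
  refine ((hf.2.add hg.2).const_mul C).mono' ?_ (Eventually.of_forall fun t => ?_)
  · refine Continuous.aestronglyMeasurable ?_
    refine (Complex.continuous_ofReal.comp (wt_cont D a)).mul ?_
    exact (GG_diff hf.1 hg.1).continuous.comp (by fun_prop)
  · rw [norm_mul, Complex.norm_real, Real.norm_eq_abs, GG_line', norm_mul, RCLike.norm_conj]
    have h2 := (h1 t).1
    have h3 : ‖TT f (t * I)‖ * ‖TT g (t * I)‖ ≤ ‖TT f (t * I)‖ ^ 2 + ‖TT g (t * I)‖ ^ 2 := by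
      nlinarith [sq_nonneg (‖TT f (t * I)‖ - ‖TT g (t * I)‖), sq_nonneg ‖TT f (t * I)‖, sq_nonneg ‖TT g (t * I)‖]
    calc |wt D a t| * (‖TT f (t * I)‖ * ‖TT g (t * I)‖) ≤ (C * Lg t) * (‖TT f (t * I)‖ ^ 2 + ‖TT g (t * I)‖ ^ 2) :=
          mul_le_mul h2 h3 (by positivity) ((abs_nonneg _).trans h2)
      _ = C * (Lg t * ‖TT f (t * I)‖ ^ 2 + Lg t * ‖TT g (t * I)‖ ^ 2) := by ring

lemma wB_add {a : ℝ} {f g h : ℝ → ℂ} (hf : Hd a f) (hg : Hd a g) (hh : Hd a h) :
    wB D a (fun x => f x + g x) h = wB D a f h + wB D a g h := by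
  have e : ∫ t : ℝ, (wt D a t : ℂ) * GG (fun x => f x + g x) h (t * I) =
      (∫ t : ℝ, (wt D a t : ℂ) * GG f h (t * I)) + ∫ t : ℝ, (wt D a t : ℂ) * GG g h (t * I) := by
    rw [← integral_add (wB_int D hf hh) (wB_int D hg hh)]
    refine integral_congr_ae (Eventually.of_forall fun t => ?_)
    simp only
    rw [GG_add_left hf.1 hg.1]
    ring
  unfold wB
  rw [e, GG_add_left hf.1 hg.1, GG_add_left hf.1 hg.1]
  ring

lemma wB_smul (a : ℝ) (f g : ℝ → ℂ) (c : ℂ) : wB D a (fun x => c * f x) g = c * wB D a f g := by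
  have e : ∫ t : ℝ, (wt D a t : ℂ) * GG (fun x => c * f x) g (t * I) =
      c * ∫ t : ℝ, (wt D a t : ℂ) * GG f g (t * I) := by
    rw [← integral_const_mul]
    refine integral_congr_ae (Eventually.of_forall fun t => ?_)
    simp only
    rw [GG_smul_left]
    ring
  unfold wB
  rw [e, GG_smul_left, GG_smul_left]
  ring

lemma wB_congr (a : ℝ) {f g f' g' : ℝ → ℂ} (h : ∀ w, GG f g w = GG f' g' w) : wB D a f g = wB D a f' g' := by
  unfold wB
  rw [h, h]
  congr 2
  exact integral_congr_ae (Eventually.of_forall fun t => by simp only [h])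

/-- the form on the diagonal -/
lemma wB_re (a : ℝ) (f : ℝ → ℂ) : (wB D a f f).re = 2 * D.r * (TT f (1 / 2) * conj (TT f (-(1 / 2)))).re +
    1 / (2 * Real.pi) * ∫ t : ℝ, wt D a t * ‖TT f (t * I)‖ ^ 2 := by
  unfold wB
  have e1 : ∫ t : ℝ, (wt D a t : ℂ) * GG f f (t * I) = ((∫ t : ℝ, wt D a t * ‖TT f (t * I)‖ ^ 2 : ℝ) : ℂ) := by
    rw [← integral_complex_ofReal]
    refine integral_congr_ae (Eventually.of_forall fun t => ?_)
    simp only
    rw [GG_line', Complex.mul_conj, Complex.normSq_eq_norm_sq]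
    push_cast
    rfl
  rw [e1, ← Complex.ofReal_mul, Complex.add_re, Complex.ofReal_re, GG_half, GG_half']
  congr 1
  have e2 : TT f (-(1 / 2)) * conj (TT f (1 / 2)) = conj (TT f (1 / 2) * conj (TT f (-(1 / 2)))) := by
    rw [map_mul, Complex.conj_conj]
    ring
  rw [e2, show ((D.r : ℕ) : ℂ) = ((D.r : ℝ) : ℂ) by push_cast; rfl, Complex.re_ofReal_mul, Complex.add_re, Complex.conj_re]
  ring

lemma pole_le {a : ℝ} (ha : 0 < a) : ∃ C : ℝ, 0 < C ∧ ∀ f, Fa a f →
    |(TT f (1 / 2) * conj (TT f (-(1 / 2)))).re| ≤ C * N2 f := by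
  refine ⟨2 * a * Real.exp (2 * a * (1 / 2)), by positivity, fun f hf => ?_⟩
  have h1 := norm_iteratedDeriv_TT ha hf 0 (1 / 2)
  have h2 := norm_iteratedDeriv_TT ha hf 0 (-(1 / 2))
  rw [iteratedDeriv_zero, pow_zero, one_mul] at h1 h2
  have e1 : |(1 / 2 : ℂ).re| = 1 / 2 := by
    rw [show (1 / 2 : ℂ) = ((1 / 2 : ℝ) : ℂ) by push_cast; rfl, Complex.ofReal_re]
    exact abs_of_pos (by norm_num)
  have e2 : |(-(1 / 2) : ℂ).re| = 1 / 2 := by
    rw [Complex.neg_re, abs_neg, e1]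
  rw [e1] at h1
  rw [e2] at h2
  refine (Complex.abs_re_le_norm _).trans ?_
  rw [norm_mul, RCLike.norm_conj]
  nlinarith [sq_nonneg (‖TT f (1 / 2)‖ - ‖TT f (-(1 / 2))‖)]

lemma wt_int {a : ℝ} {f : ℝ → ℂ} (hf : Hd a f) : Integrable (fun t : ℝ => wt D a t * ‖TT f (t * I)‖ ^ 2) := by
  obtain ⟨C, hC, h1⟩ := wt_bd D a
  refine (hf.2.const_mul C).mono' ?_ (Eventually.of_forall fun t => ?_)
  · exact ((wt_cont D a).mul ((TT_line_cont hf.1).norm.pow 2)).aestronglyMeasurable
  · rw [norm_mul, Real.norm_eq_abs, norm_pow, norm_norm]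
    have h2 := (h1 t).1
    calc |wt D a t| * ‖TT f (t * I)‖ ^ 2 ≤ (C * Lg t) * ‖TT f (t * I)‖ ^ 2 := mul_le_mul_of_nonneg_right h2 (sq_nonneg _)
      _ = _ := by ring

/-- the Weil form as a form with the inequality of Garding -/
@[reducible] noncomputable def fd {a : ℝ} (ha : 0 < a) : FD a where
  B := wB D a
  herm := wB_herm D a
  add := fun f g h hf hg hh => wB_add D hf hg hh
  smul := fun f g c => wB_smul D a f g c
  congr := fun f g f' g' h => wB_congr D a h
  co := by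
    obtain ⟨C, hC, h1⟩ := wt_bd D a
    obtain ⟨P, hP, h2⟩ := pole_le ha
    have hpi := Real.pi_pos
    refine ⟨4 * Real.pi * C + 8 * Real.pi * D.r * P, by positivity, fun f hf => ?_⟩
    rw [wB_re]
    have h3 := h2 f hf.1
    have h4 : LL f / 2 - C * (2 * Real.pi * N2 f) ≤ ∫ t : ℝ, wt D a t * ‖TT f (t * I)‖ ^ 2 := by
      rw [← plancherel hf.1]
      unfold LL
      rw [← integral_const_mul, ← integral_div, ← integral_sub (hf.2.div_const 2) ((int_TT_sq hf.1).const_mul C)]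
      refine integral_mono ((hf.2.div_const 2).sub ((int_TT_sq hf.1).const_mul C)) (wt_int D hf) fun t => ?_
      have h5 := (h1 t).2
      have h6 := sq_nonneg ‖TT f (t * I)‖
      simp only
      nlinarith
    have h7 : -(P * N2 f) ≤ (TT f (1 / 2) * conj (TT f (-(1 / 2)))).re := (abs_le.1 h3).1
    have h8 : ∀ J : ℝ, 4 * Real.pi * (1 / (2 * Real.pi) * J) = 2 * J := fun J => by
      field_simp
      ring
    have h9 : (0 : ℝ) ≤ 8 * Real.pi * D.r := by positivity
    have h10 := mul_le_mul_of_nonneg_left h7 h9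
    rw [mul_add, h8]
    nlinarith
  bd := by
    obtain ⟨C, hC, h1⟩ := wt_bd D a
    obtain ⟨P, hP, h2⟩ := pole_le ha
    have hpi := Real.pi_pos
    refine ⟨C + 2 * D.r * P, by positivity, fun f hf => ?_⟩
    rw [wB_re]
    have h3 := h2 f hf.1
    have h4 : |∫ t : ℝ, wt D a t * ‖TT f (t * I)‖ ^ 2| ≤ C * LL f := by
      unfold LL
      rw [← integral_const_mul]
      refine (abs_integral_le_integral_abs).trans ?_
      refine integral_mono (wt_int D hf).abs (hf.2.const_mul C) fun t => ?_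
      simp only
      rw [abs_mul, abs_of_nonneg (sq_nonneg ‖TT f (t * I)‖)]
      have := mul_le_mul_of_nonneg_right (h1 t).1 (sq_nonneg ‖TT f (t * I)‖)
      linarith
    have h5 := N2_le_LL hf
    have h6 := LL_nonneg f
    have h7 : N2 f ≤ LL f := by
      have := N2_nonneg f
      nlinarith [Real.pi_gt_three]
    have h8 : |1 / (2 * Real.pi) * ∫ t : ℝ, wt D a t * ‖TT f (t * I)‖ ^ 2| ≤ C * LL f := by
      rw [abs_mul, abs_of_pos (by positivity : (0 : ℝ) < 1 / (2 * Real.pi))]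
      have h9 : 1 / (2 * Real.pi) ≤ 1 := by
        rw [div_le_one (by positivity)]
        linarith [Real.pi_gt_three]
      calc _ ≤ 1 * |∫ t : ℝ, wt D a t * ‖TT f (t * I)‖ ^ 2| := mul_le_mul_of_nonneg_right h9 (abs_nonneg _)
        _ ≤ _ := by rw [one_mul]; exact h4
    have h10 : |2 * D.r * (TT f (1 / 2) * conj (TT f (-(1 / 2)))).re| ≤ 2 * D.r * P * LL f := by
      rw [abs_mul, abs_of_nonneg (by positivity : (0 : ℝ) ≤ 2 * D.r)]
      have h11 : (0 : ℝ) ≤ 2 * D.r := by positivity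
      calc 2 * (D.r : ℝ) * |(TT f (1 / 2) * conj (TT f (-(1 / 2)))).re| ≤ 2 * D.r * (P * N2 f) :=
            mul_le_mul_of_nonneg_left h3 h11
        _ ≤ 2 * D.r * (P * LL f) := by
            refine mul_le_mul_of_nonneg_left ?_ h11
            exact mul_le_mul_of_nonneg_left h7 hP.le
        _ = _ := by ring
    refine (abs_add_le _ _).trans ?_
    nlinarith

/-- the form is invariant under reflection -/
lemma QQ_ng {a : ℝ} (ha : 0 < a) (f : ℝ → ℂ) : @QQ a (fd D ha) (CB.ng f) = @QQ a (fd D ha) f := by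
  show (wB D a (CB.ng f) (CB.ng f)).re = (wB D a f f).re
  rw [wB_re, wB_re]
  congr 1
  · rw [CB.TT_ng, CB.TT_ng, neg_neg]
    have : TT f (-(1 / 2)) * conj (TT f (1 / 2)) = conj (TT f (1 / 2) * conj (TT f (-(1 / 2)))) := by
      rw [map_mul, Complex.conj_conj]
      ring
    rw [this, Complex.conj_re]
  · congr 1
    rw [← integral_neg_eq_self (fun t : ℝ => wt D a t * ‖TT f (t * I)‖ ^ 2) volume]
    refine integral_congr_ae (Eventually.of_forall fun t => ?_)
    simp only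
    rw [wt_neg, CB.TT_ng]
    congr 3
    push_cast
    ring

/-- Weil's form through the prime powers up to `exp (2 a)` -/
lemma QQ_eq {a : ℝ} (ha : 0 < a) {f : ℝ → ℂ} (hf : Hd a f) : @QQ a (fd D ha) f =
    2 * D.r * (TT f (1 / 2) * conj (TT f (-(1 / 2)))).re +
      1 / (2 * Real.pi) * (∫ v : ℝ, D.om v * ‖TT f (v * I)‖ ^ 2) -
      2 * (∑ n ∈ Finset.Icc 1 ⌊Real.exp (2 * a)⌋₊, (D.b n : ℂ) * ∫ x : ℝ, f (x + Real.log n) * conj (f x)).re := by
  show (wB D a f f).re = _
  rw [wB_re]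
  have hpi := Real.pi_pos
  have iN : ∀ n : ℕ, Integrable (fun t : ℝ => 2 * D.b n * Real.cos (t * Real.log n) * ‖TT f (t * I)‖ ^ 2) := by
    intro n
    refine ((int_TT_sq hf.1).const_mul (2 * |D.b n|)).mono' ?_ (Eventually.of_forall fun t => ?_)
    · refine Continuous.aestronglyMeasurable ?_
      have := (TT_line_cont hf.1).norm.pow 2
      exact Continuous.mul (by fun_prop) this
    · rw [norm_mul, Real.norm_eq_abs, norm_pow, norm_norm, abs_mul, abs_mul, abs_two]
      have h1 := Real.abs_cos_le_one (t * Real.log n)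
      refine mul_le_mul_of_nonneg_right ?_ (sq_nonneg _)
      have : 0 ≤ 2 * |D.b n| := by positivity
      nlinarith
  have iO : Integrable (fun t : ℝ => D.om t * ‖TT f (t * I)‖ ^ 2) := by
    obtain ⟨C, hC, h1⟩ := D.hi
    refine (hf.2.const_mul C).mono' ?_ (Eventually.of_forall fun t => ?_)
    · exact (D.cont.mul ((TT_line_cont hf.1).norm.pow 2)).aestronglyMeasurable
    · rw [norm_mul, Real.norm_eq_abs, norm_pow, norm_norm]
      calc |D.om t| * ‖TT f (t * I)‖ ^ 2 ≤ (C * Lg t) * ‖TT f (t * I)‖ ^ 2 := mul_le_mul_of_nonneg_right (h1 t) (sq_nonneg _)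
        _ = _ := by ring
  have h1 : ∫ t : ℝ, wt D a t * ‖TT f (t * I)‖ ^ 2 = (∫ t : ℝ, D.om t * ‖TT f (t * I)‖ ^ 2) -
      ∑ n ∈ Finset.Icc 1 ⌊Real.exp (2 * a)⌋₊, ∫ t : ℝ, 2 * D.b n * Real.cos (t * Real.log n) * ‖TT f (t * I)‖ ^ 2 := by
    rw [← integral_finsetSum _ fun n _ => iN n, ← integral_sub iO (integrable_finsetSum _ fun n _ => iN n)]
    refine integral_congr_ae (Eventually.of_forall fun t => ?_)
    simp only [wt]
    rw [sub_mul, Finset.sum_mul]
  have h2 : ∀ n : ℕ, ∫ t : ℝ, 2 * D.b n * Real.cos (t * Real.log n) * ‖TT f (t * I)‖ ^ 2 =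
      4 * Real.pi * (((D.b n : ℂ) * ∫ x : ℝ, f (x + Real.log n) * conj (f x)).re) := by
    intro n
    have h3 := four_one hf.1 (Real.log n)
    have hint : Integrable (fun y : ℝ => cexp (-((y * I) * Real.log n)) * (gsq f y : ℂ)) := by
      refine (gsq_int hf.1).mono' ?_ (Eventually.of_forall fun y => ?_)
      · refine Continuous.aestronglyMeasurable (Continuous.mul (by fun_prop) ?_)
        exact Complex.continuous_ofReal.comp (gsq_cont hf.1)
      · have e : -((y * I) * (Real.log n : ℂ)) = ((-(y * Real.log n) : ℝ) : ℂ) * I := by push_cast; ring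
        rw [norm_mul, e, Complex.norm_exp_ofReal_mul_I, one_mul, Complex.norm_real, Real.norm_eq_abs,
          abs_of_nonneg (gsq_nonneg f y)]
    have h5 : ∫ t : ℝ, (cexp (-((t * I) * Real.log n)) * (gsq f t : ℂ)).re =
        (∫ y : ℝ, cexp (-((y * I) * Real.log n)) * (gsq f y : ℂ)).re := Complex.reCLM.integral_comp_comm hint
    have h4 : ∫ t : ℝ, 2 * D.b n * Real.cos (t * Real.log n) * ‖TT f (t * I)‖ ^ 2 =
        2 * D.b n * (∫ y : ℝ, cexp (-((y * I) * Real.log n)) * (gsq f y : ℂ)).re := by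
      rw [← h5, ← integral_const_mul]
      refine integral_congr_ae (Eventually.of_forall fun t => ?_)
      simp only
      have e : cexp (-((t * I) * Real.log n)) = cexp (((-(t * Real.log n) : ℝ) : ℂ) * I) := by
        congr 1
        push_cast
        ring
      rw [e, Complex.re_mul_ofReal, Complex.exp_ofReal_mul_I_re, Real.cos_neg]
      unfold gsq
      ring
    rw [h4, h3, Complex.re_ofReal_mul]
    have h6 : (2 * (Real.pi : ℂ) * CC f (Real.log n)).re = 2 * Real.pi * (CC f (Real.log n)).re := by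
      rw [show (2 * (Real.pi : ℂ)) = ((2 * Real.pi : ℝ) : ℂ) by push_cast; rfl, Complex.re_ofReal_mul]
    rw [h6]
    unfold CC
    ring
  rw [h1, Finset.sum_congr rfl fun n _ => h2 n, Complex.re_sum, ← Finset.mul_sum]
  have h7 : ∀ A J S : ℝ, A + 1 / (2 * Real.pi) * (J - 4 * Real.pi * S) = A + 1 / (2 * Real.pi) * J - 2 * S := by
    intro A J S
    field_simp
    ring
  rw [h7]

end Pool.Agent.Run7.h966.FD
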