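import Pool.Agent.Run7.h966.FD.F3
import Pool.Agent.Run7.h966.FD.A1
import Pool.Agent.Run7.h966.FD.A2
import Pool.Agent.Run7.h336.CB.B18

/-! # Minimisers of a Weil form given without zeros, in the variable `z` -/

set_option autoImplicit false
set_option linter.unusedSectionVars false
set_option linter.dupNamespace false
set_option linter.unusedVariables false
set_option maxHeartbeats 2000000

open Complex Filter Topology Set MeasureTheory Metric
open scoped ComplexConjugate

namespace Pool.Agent.Run7.h966.FD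

open Pool.Agent.Y23 Pool.Agent.Y23.G
open Pool.Agent.Y23.G.CB (Win wi NH NH_nonneg TT_zero_of_NH)
open Pool.Agent.Run7.h336.CB.S (F Window InDom Mass low Minimal Describes RealZeros SimpleZeros inDom_iff exists_win Mass_eq F_eq)

attribute [local instance] Pool.Agent.Y23.G.CA.Z.zL

lemma poly_iz (n : ℕ) (A B : ℂ → ℂ) : (∃ p : Polynomial ℂ, p.natDegree ≤ n ∧ ∀ w, A w = p.eval w * B w) ↔
    ∃ p : Polynomial ℂ, p.natDegree < n + 1 ∧ ∀ z, A (I * z) = p.eval z * B (I * z) := by
  constructor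
  · rintro ⟨p, hp, h⟩
    refine ⟨p.comp (Polynomial.C I * Polynomial.X), ?_, fun z => ?_⟩
    · rw [Polynomial.natDegree_comp, Polynomial.natDegree_C_mul_X _ I_ne_zero, mul_one]
      omega
    · rw [h, Polynomial.eval_comp]
      simp only [Polynomial.eval_mul, Polynomial.eval_C, Polynomial.eval_X]
  · rintro ⟨p, hp, h⟩
    refine ⟨p.comp (Polynomial.C (-I) * Polynomial.X), ?_, fun w => ?_⟩
    · rw [Polynomial.natDegree_comp, Polynomial.natDegree_C_mul_X _ (neg_ne_zero.2 I_ne_zero), mul_one]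
      omega
    · have h1 := h (-I * w)
      have e : I * (-I * w) = w := by linear_combination (-w) * Complex.I_mul_I
      rw [e] at h1
      rw [h1, Polynomial.eval_comp]
      simp only [Polynomial.eval_mul, Polynomial.eval_C, Polynomial.eval_X]

/-- **the minimisers of a Weil form given by its pole, its archimedean density and its prime coefficients** -/
theorem describes (D : WD) (W : ℝ → (ℝ → ℂ) → ℝ)
    (hW : ∀ (a : ℝ) (ha : 0 < a) (f : ℝ → ℂ), InDom a f → W a f = @QQ a (fd D ha) f) {S : Set ℝ} (hS : Window S) :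
    ∃ (E : ℝ → ℂ → ℂ) (d : ℝ → ℕ), Describes W S E d := by
  obtain ⟨K, hK⟩ := exists_win hS
  let iK : Win := K
  have h1 : ∀ a : ℝ, ∃ (e : ℝ → ℂ) (N : ℕ), ∀ ha : 0 < a, @KK iK a (fd D ha) e ∧ NH (K := iK) e ≠ 0 ∧
      (∀ w, TT e (-conj w) = conj (TT e w)) ∧ ((∀ w, TT e (-w) = TT e w) ∨ ∀ w, TT e (-w) = -TT e w) ∧
      (∀ w, TT e w = 0 → w.re = 0 ∧ deriv (TT e) w ≠ 0) ∧
      (∀ f, G.Hd a f → (@KK iK a (fd D ha) f ↔ ∃ p : Polynomial ℂ, p.natDegree ≤ N ∧ ∀ w, TT f w = p.eval w * TT e w)) ∧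
      ∀ p : Polynomial ℂ, p.natDegree ≤ N → ∃ g : ℝ → ℂ, @KK iK a (fd D ha) g ∧ ∀ w, TT g w = p.eval w * TT e w := by
    intro a
    by_cases ha : 0 < a
    · letI := fd D ha
      obtain ⟨e, N, w1, h, hreal⟩ := exists_real_data (a := a) ha
      refine ⟨e, N, fun _ => ⟨h.mem, fun h0 => h.nz (TT_zero_of_NH h.mem.1.1 h0 w1), hreal,
        parity (fun f => QQ_ng D ha f) ha h, fun w hw => ⟨h.line ha hw, h.simple ha hw⟩, fun f hf => ⟨fun hK => h.all ha hK, ?_⟩,
        fun p hp => h.poly ha p hp⟩⟩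
      rintro ⟨p, hp, h1⟩
      obtain ⟨g, hg, h2⟩ := h.poly ha p hp
      exact hg.congr hf fun w => by rw [h1, h2]
    · exact ⟨fun _ => 0, 0, fun h => absurd h ha⟩
  choose e N h using h1
  have hlow : ∀ (a : ℝ) (ha : 0 < a), low W S a = @GM iK a (fd D ha) := by
    intro a ha
    unfold low GM
    congr 1
    ext r
    constructor
    · rintro ⟨f, hf, h1, h2⟩
      exact ⟨f, (inDom_iff a f).1 hf, by rw [← Mass_eq K hK, h1], by rw [← hW a ha f hf, h2]⟩
    · rintro ⟨f, hf, h1, h2⟩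
      have hf' := (inDom_iff a f).2 hf
      exact ⟨f, hf', by rw [Mass_eq K hK, h1], by rw [hW a ha f hf', h2]⟩
  have hmin : ∀ (a : ℝ) (ha : 0 < a) (f : ℝ → ℂ), InDom a f → (Pool.Agent.Run7.h336.CB.S.Minimal W S a f ↔ @KK iK a (fd D ha) f) := by
    intro a ha f hf
    unfold Pool.Agent.Run7.h336.CB.S.Minimal KK bq
    rw [hW a ha f hf, hlow a ha, Mass_eq K hK, sub_eq_zero]
    exact ⟨fun h => ⟨(inDom_iff a f).1 hf, h⟩, fun h => h.2⟩
  have hdiff : ∀ a : ℝ, 0 < a → Differentiable ℂ (TT (e a)) := fun a ha => differentiable_TT (h a ha).1.1.1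
  have hder : ∀ a : ℝ, 0 < a → ∀ z : ℂ, HasDerivAt (fun z => TT (e a) (I * z)) (deriv (TT (e a)) (I * z) * I) z := by
    intro a ha z
    have h2 : HasDerivAt (fun z : ℂ => I * z) I z := by simpa using (hasDerivAt_id z).const_mul I
    exact HasDerivAt.comp z ((hdiff a ha) (I * z)).hasDerivAt h2
  refine ⟨fun a z => TT (e a) (I * z), fun a => N a + 1, ⟨fun a ha z => (hder a ha z).differentiableAt, fun a ha => ?_,
    fun a ha z => ?_, fun a ha => ?_, fun a ha z hz => ?_, fun a ha => Nat.le_add_left 1 (N a), fun a ha f hf => ?_,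
    fun a ha p hp => ?_⟩⟩
  · have hf := (inDom_iff a (e a)).2 (h a ha).1.1
    exact ⟨e a, hf, by rw [Mass_eq K hK]; exact (h a ha).2.1, (hmin a ha _ hf).2 (h a ha).1, fun z => F_eq _ _⟩
  · show TT (e a) (I * conj z) = conj (TT (e a) (I * z))
    rw [← (h a ha).2.2.1]
    congr 1
    rw [map_mul, Complex.conj_I]
    ring
  · rcases (h a ha).2.2.2.1 with h2 | h2
    · exact Or.inl fun z => by
        show TT (e a) (I * -z) = TT (e a) (I * z)
        rw [mul_neg, h2]
    · exact Or.inr fun z => by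
        show TT (e a) (I * -z) = -TT (e a) (I * z)
        rw [mul_neg, h2]
  · obtain ⟨h2, h3⟩ := (h a ha).2.2.2.2.1 _ hz
    refine ⟨?_, ?_⟩
    · have : (I * z).re = -z.im := by simp
      rw [this] at h2
      linarith
    · show deriv (fun z => TT (e a) (I * z)) z ≠ 0
      rw [(hder a ha z).deriv]
      exact mul_ne_zero h3 I_ne_zero
  · rw [hmin a ha f hf, (h a ha).2.2.2.2.2.1 f ((inDom_iff a f).1 hf), poly_iz]
    exact exists_congr fun p => and_congr_right fun _ => forall_congr' fun z => by rw [F_eq]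
  · obtain ⟨q, hq, hq2⟩ := (poly_iz (N a) (fun w => p.eval (-I * w) * TT (e a) w) (TT (e a))).2 ⟨p, hp, fun z => by
      have e1 : -I * (I * z) = z := by linear_combination (-z) * Complex.I_mul_I
      show p.eval (-I * (I * z)) * _ = _
      rw [e1]⟩
    obtain ⟨g, hg, hg2⟩ := (h a ha).2.2.2.2.2.2 q hq
    have hg' := (inDom_iff a g).2 hg.1
    refine ⟨g, hg', (hmin a ha g hg').2 hg, fun z => ?_⟩
    rw [F_eq, hg2, ← hq2]
    show p.eval (-I * (I * z)) * _ = _
    have e1 : -I * (I * z) = z := by linear_combination (-z) * Complex.I_mul_I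
    rw [e1]

end Pool.Agent.Run7.h966.FD
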