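import Pool.Agent.Run7.h966.FD.F4
import Pool.Agent.Run7.h336.CB.B12
import Pool.Agent.Run7.h336.CB.B13
import Pool.Agent.Run7.h114.CA.P7

/-! # If the generators converge on a half-line, the limit is entire, even or odd, with real zeros -/

set_option autoImplicit false
set_option linter.unusedSectionVars false
set_option linter.dupNamespace false
set_option linter.unusedVariables false
set_option maxHeartbeats 2000000

open Complex Filter Topology Set MeasureTheory Metric
open scoped ComplexConjugate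

namespace Pool.Agent.Run7.h966.FD

open Pool.Agent.Y23 Pool.Agent.Y23.G
open Pool.Agent.Run7.h336.CB.S (F Window InDom Mass low Minimal Describes RealZeros SimpleZeros inDom_iff exists_win Mass_eq F_eq)

attribute [local instance] Pool.Agent.Y23.G.CA.Z.zL

variable {W : ℝ → (ℝ → ℂ) → ℝ} {S : Set ℝ} {E : ℝ → ℂ → ℂ} {d : ℝ → ℕ}

/-- the generators are largest on the imaginary axis -/
theorem gen_le (h : Describes W S E d) {a : ℝ} (ha : 0 < a) {x : ℝ} {w : ℂ} (hw : ‖w‖ ≤ x) :
    ‖E a (-(I * w))‖ ≤ ‖E a (-(I * x))‖ := by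
  have hd := h.entire a ha
  have hlin : ∀ w : ℂ, HasDerivAt (fun w : ℂ => -(I * w)) (-I) w := by
    intro w
    have h1 : HasDerivAt (fun w : ℂ => -I * w) (-I) w := by simpa using (hasDerivAt_id w).const_mul (-I)
    have e : (fun w : ℂ => -(I * w)) = fun w : ℂ => -I * w := by
      funext w
      ring
    rw [e]
    exact h1
  have hder : ∀ w : ℂ, HasDerivAt (fun w : ℂ => E a (-(I * w))) (deriv (E a) (-(I * w)) * -I) w := by
    intro w
    exact HasDerivAt.comp w (hd (-(I * w))).hasDerivAt (hlin w)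
  refine An.sym_le (f := fun w => E a (-(I * w))) (fun w => (hder w).differentiableAt) ?_ (fun w => ?_) ?_
    (fun w hw => ?_) (fun w hw => ?_) hw
  · obtain ⟨f, hf, _, _, h1⟩ := h.attained a ha
    obtain ⟨A, hA⟩ := CB.TT_growth ha ((inDom_iff a f).1 hf).1
    refine ⟨A, fun w => ?_⟩
    rw [← h1, F_eq]
    have e : I * -(I * w) = w := by linear_combination (-w) * Complex.I_mul_I
    rw [e]
    exact hA w
  · show E a (-(I * -conj w)) = conj (E a (-(I * w)))
    rw [← h.real a ha]
    congr 1
    rw [map_neg, map_mul, Complex.conj_I]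
    ring
  · rcases h.parity a ha with h1 | h1
    · left
      intro w
      show E a (-(I * -w)) = E a (-(I * w))
      rw [← h1 (-(I * w))]
      congr 1
      ring
    · right
      intro w
      show E a (-(I * -w)) = -E a (-(I * w))
      rw [← h1 (-(I * w))]
      congr 1
      ring
  · have h2 := (h.zeros a ha _ hw).1
    have e : (-(I * w)).im = -w.re := by simp
    rw [e] at h2
    linarith
  · show deriv (fun w : ℂ => E a (-(I * w))) w ≠ 0
    rw [(hder w).deriv]
    exact mul_ne_zero (h.zeros a ha _ hw).2 (neg_ne_zero.2 I_ne_zero)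

lemma gen_ne (h : Describes W S E d) {a : ℝ} (ha : 0 < a) {y : ℝ} (hy : y ≠ 0) : E a (-(I * y)) ≠ 0 := by
  intro h0
  have h1 := (h.zeros a ha _ h0).1
  have e : (-(I * (y : ℂ))).im = -y := by simp
  rw [e] at h1
  exact hy (by linarith)

/-- **the limit of the generators, if they converge on a half-line** -/
theorem limit_core (h : Describes W S E d) {y0 : ℝ} (hy0 : 0 < y0) {Y : ℝ → ℂ}
    (hconv : ∀ y : ℝ, y0 ≤ y → Tendsto (fun a => E a (-(I * y)) / E a (-(I * y0))) atTop (𝓝 (Y y))) :
    ∃ X : ℂ → ℂ, Differentiable ℂ X ∧ (∀ y : ℝ, y0 ≤ y → X (-(I * y)) = Y y) ∧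
      ((∀ z, X (-z) = X z) ∨ ∀ z, X (-z) = -X z) ∧ RealZeros X ∧
      (∀ (z : ℂ) (x : ℝ), ‖z‖ ≤ x → y0 ≤ x → ‖X z‖ ≤ ‖Y x‖) ∧
      TendstoLocallyUniformly (fun a z => E a z / E a (-(I * y0))) X atTop := by
  classical
  set G : ℝ → ℂ → ℂ := fun a w => if 0 < a then E a (-(I * w)) / E a (-(I * y0)) else 0 with hG
  have hGp : ∀ a : ℝ, 0 < a → ∀ w, G a w = E a (-(I * w)) / E a (-(I * y0)) := by
    intro a ha w
    simp only [hG, if_pos ha]
  have hGd : ∀ a, Differentiable ℂ (G a) := by
    intro a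
    by_cases ha : 0 < a
    · have e : G a = fun w => E a (-(I * w)) / E a (-(I * y0)) := funext (hGp a ha)
      rw [e]
      have := h.entire a ha
      exact (this.comp (by fun_prop : Differentiable ℂ fun w : ℂ => -(I * w))).div_const _
    · have e : G a = fun _ => 0 := by
        funext w
        simp only [hG, if_neg ha]
      rw [e]
      exact differentiable_const 0
  have hGY : ∀ y : ℝ, y0 ≤ y → Tendsto (fun a => G a y) atTop (𝓝 (Y y)) := by
    intro y hy
    refine (hconv y hy).congr' ?_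
    filter_upwards [eventually_gt_atTop 0] with a ha
    rw [hGp a ha]
  have hmono : ∀ a : ℝ, 0 < a → ∀ (w : ℂ) (x : ℝ), ‖w‖ ≤ x → ‖G a w‖ ≤ ‖G a x‖ := by
    intro a ha w x hw
    rw [hGp a ha, hGp a ha, norm_div, norm_div]
    exact div_le_div_of_nonneg_right (gen_le h ha hw) (norm_nonneg _)
  have hb : ∀ R : ℝ, ∃ M : ℝ, ∀ᶠ a in atTop, ∀ w, ‖w‖ ≤ R → ‖G a w‖ ≤ M := by
    intro R
    set x := max R y0 with hx
    refine ⟨‖Y x‖ + 1, ?_⟩
    have h1 := (hGY x (le_max_right _ _)).norm.eventually (gt_mem_nhds (show ‖Y x‖ < ‖Y x‖ + 1 by linarith))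
    filter_upwards [h1, eventually_gt_atTop 0] with a h2 ha w hw
    exact (hmono a ha w x (hw.trans (le_max_left _ _))).trans h2.le
  obtain ⟨X, hX, hXY, hlu⟩ := An.vitali hGd hb hGY
  have hpt : ∀ w, Tendsto (fun a => G a w) atTop (𝓝 (X w)) := fun w =>
    (tendstoLocallyUniformlyOn_univ.2 hlu).tendsto_at (mem_univ w)
  have hX0 : X y0 ≠ 0 := by
    have h1 : X y0 = 1 := by
      refine tendsto_nhds_unique (hpt y0) (tendsto_const_nhds.congr' ?_)
      filter_upwards [eventually_gt_atTop 0] with a ha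
      rw [hGp a ha, div_self (gen_ne h ha hy0.ne')]
    rw [h1]
    exact one_ne_zero
  have hpar : (∀ w, X (-w) = X w) ∨ ∀ w, X (-w) = -X w := by
    by_contra hcon
    push Not at hcon
    obtain ⟨⟨w1, h1⟩, ⟨w2, h2⟩⟩ := hcon
    have t1 := ((hpt (-w1)).sub (hpt w1)).eventually_ne (sub_ne_zero.2 h1)
    have t2 := ((hpt (-w2)).add (hpt w2)).eventually_ne (fun h3 => h2 (eq_neg_of_add_eq_zero_left h3))
    obtain ⟨a, h3, h4, ha⟩ := (t1.and (t2.and (eventually_gt_atTop 0))).exists
    rcases h.parity a ha with h5 | h5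
    · apply h3
      rw [hGp a ha, hGp a ha, show -(I * -w1) = -(-(I * w1)) by ring, h5, sub_self]
    · apply h4
      rw [hGp a ha, hGp a ha, show -(I * -w2) = -(-(I * w2)) by ring, h5]
      ring
  have hz : ∀ w, X w = 0 → w.re = 0 := by
    intro w0 hw0
    by_contra hne
    have hr : 0 < |w0.re| := abs_pos.2 hne
    refine CA.hurwitz_point (l := atTop) (F := G) (G := X) (s := w0) hr (Eventually.of_forall hGd) ?_ hlu hX0 hw0
    filter_upwards [eventually_gt_atTop 0] with a ha w hw h0
    rw [hGp a ha, div_eq_zero_iff, or_iff_left (gen_ne h ha hy0.ne')] at h0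
    have h2 := (h.zeros a ha _ h0).1
    have e : (-(I * w)).im = -w.re := by simp
    rw [e] at h2
    rw [mem_ball, dist_eq_norm] at hw
    have h5 := Complex.abs_re_le_norm (w - w0)
    rw [Complex.sub_re, show w.re = 0 by linarith, zero_sub, abs_neg] at h5
    linarith
  have hIz : ∀ z : ℂ, -(I * (I * z)) = z := fun z => by linear_combination (-z) * Complex.I_mul_I
  refine ⟨fun z => X (I * z), hX.comp (by fun_prop), fun y hy => ?_, ?_, fun z hz0 => ?_, fun z x hz1 hx => ?_, ?_⟩
  · show X (I * -(I * y)) = Y y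
    rw [show I * -(I * (y : ℂ)) = y by linear_combination (-(y : ℂ)) * Complex.I_mul_I, hXY y hy]
  · rcases hpar with h1 | h1
    · exact Or.inl fun z => by
        show X (I * -z) = X (I * z)
        rw [mul_neg, h1]
    · exact Or.inr fun z => by
        show X (I * -z) = -X (I * z)
        rw [mul_neg, h1]
  · have h1 := hz _ hz0
    have e : (I * z).re = -z.im := by simp
    rw [e] at h1
    linarith
  · show ‖X (I * z)‖ ≤ ‖Y x‖
    have h1 : ‖I * z‖ ≤ x := by rw [norm_mul, norm_I, one_mul]; exact hz1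
    refine le_of_tendsto_of_tendsto (hpt (I * z)).norm (hGY x hx).norm ?_
    filter_upwards [eventually_gt_atTop 0] with a ha
    exact hmono a ha _ _ h1
  · have h1 : TendstoLocallyUniformly (fun a z => G a (I * z)) (fun z => X (I * z)) atTop :=
      hlu.comp (fun z => I * z) (by fun_prop)
    refine CB.lu_congr h1 ?_
    filter_upwards [eventually_gt_atTop 0] with a ha z
    rw [hGp a ha, hIz]

end Pool.Agent.Run7.h966.FD
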