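import Pool.Agent.Run7.h966.FD.F5
import Pool.Agent.Run7.h336.CB.B22

/-! # Convergence of the minimisers on a half-line and continuation: the normalised form -/

set_option autoImplicit false
set_option linter.unusedSectionVars false
set_option linter.dupNamespace false
set_option linter.unusedVariables false
set_option maxHeartbeats 2000000

open Complex Filter Topology Set MeasureTheory Metric
open scoped ComplexConjugate

namespace Pool.Agent.Run7.h966.FD

open Pool.Agent.Y23 Pool.Agent.Y23.G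
open Pool.Agent.Run7.h336.CB.S (F Window InDom Mass low Describes RealZeros SimpleZeros ConvergesTo inDom_iff
  exists_win Mass_eq F_eq)
open Pool.Agent.TH839.NA Pool.Agent.W355.UN

variable {W : ℝ → (ℝ → ℂ) → ℝ} {S : Set ℝ} {E E' : ℝ → ℂ → ℂ} {d d' : ℝ → ℕ}

/-- the generators are unique up to factors -/
theorem gen_unique (h : Describes W S E d) (h' : Describes W S E' d') {a : ℝ} (ha : 0 < a) :
    ∃ c : ℂ, c ≠ 0 ∧ ∀ z, E' a z = c * E a z := by
  obtain ⟨f, hf, hfm, hfmin, hfE⟩ := h.attained a ha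
  obtain ⟨g, hg, hgm, hgmin, hgE⟩ := h'.attained a ha
  obtain ⟨p, hp, hp1⟩ := (h.minimisers a ha g hg).1 hgmin
  obtain ⟨q, hq, hq1⟩ := (h'.minimisers a ha f hf).1 hfmin
  have e1 : ∀ z, E' a z = p.eval z * E a z := fun z => by rw [← hgE, hp1]
  have e2 : ∀ z, E a z = q.eval z * E' a z := fun z => by rw [← hfE, hq1]
  obtain ⟨z0, hz0⟩ : ∃ z, E a z ≠ 0 := by
    by_contra hcon
    push Not at hcon
    apply hfm
    unfold Pool.Agent.Run7.h336.CB.S.Mass
    have : ∀ t : ℝ, ‖F f t‖ ^ 2 = 0 := fun t => by rw [hfE, hcon, norm_zero]; norm_num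
    simp only [this]
    exact integral_zero _ _
  have hev : ∀ᶠ z in 𝓝 z0, E a z ≠ 0 := (h.entire a ha).continuous.continuousAt.eventually_ne hz0
  have hinf : Set.Infinite {x : ℂ | Polynomial.eval x (q * p) = Polynomial.eval x 1} := by
    refine Set.Infinite.mono (s := {z | E a z ≠ 0}) (fun z hz => ?_) (infinite_of_mem_nhds z0 hev)
    have hz' : E a z ≠ 0 := hz
    show Polynomial.eval z (q * p) = Polynomial.eval z 1
    rw [Polynomial.eval_mul, Polynomial.eval_one]
    have h3 : (q.eval z * p.eval z) * E a z = 1 * E a z := by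
      rw [one_mul, mul_assoc, ← e1, ← e2]
    exact mul_right_cancel₀ hz' h3
  have hone : q * p = 1 := Polynomial.eq_of_infinite_eval_eq _ _ hinf
  obtain ⟨c, hc, hcp⟩ := Polynomial.isUnit_iff.1 (IsUnit.of_mul_eq_one_right q hone)
  exact ⟨c, hc.ne_zero, fun z => by rw [e1, ← hcp, Polynomial.eval_C]⟩

lemma ratio_unique (h : Describes W S E d) (h' : Describes W S E' d') {a : ℝ} (ha : 0 < a) (z q : ℂ) :
    E' a z / E' a q = E a z / E a q := by
  obtain ⟨c, hc, h1⟩ := gen_unique h h' ha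
  rw [h1, h1, mul_div_mul_left _ _ hc]

lemma conv_unique (h : Describes W S E d) (h' : Describes W S E' d') {q : ℂ} {G : ℂ → ℂ}
    (hc : TendstoLocallyUniformly (fun a z => E a z / E a q) G atTop) :
    TendstoLocallyUniformly (fun a z => E' a z / E' a q) G atTop := by
  refine CB.lu_congr hc ?_
  filter_upwards [eventually_gt_atTop 0] with a ha z
  exact (ratio_unique h h' ha z q).symm

/-- the symmetry of the limit under conjugation -/
lemma limit_conj (h : Describes W S E d) {y0 : ℝ} (hy0 : 0 < y0) {X : ℂ → ℂ}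
    (hX : ∀ z, Tendsto (fun a => E a z / E a (-(I * y0))) atTop (𝓝 (X z))) :
    (∀ z, conj (X (conj z)) = X z) ∨ ∀ z, conj (X (conj z)) = -X z := by
  have hq : conj (-(I * (y0 : ℂ))) = -(-(I * y0)) := by
    rw [map_neg, map_mul, Complex.conj_I, Complex.conj_ofReal]
    ring
  have hs : ∀ a : ℝ, 0 < a →
      (∀ z, conj (E a (conj z) / E a (-(I * y0))) = E a z / E a (-(I * y0))) ∨
      ∀ z, conj (E a (conj z) / E a (-(I * y0))) = -(E a z / E a (-(I * y0))) := by
    intro a ha
    have h1 : ∀ z, conj (E a (conj z) / E a (-(I * y0))) = E a z / E a (-(-(I * y0))) := by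
      intro z
      rw [map_div₀, ← h.real a ha, ← h.real a ha, Complex.conj_conj, hq]
    rcases h.parity a ha with h2 | h2
    · left
      intro z
      rw [h1, h2]
    · right
      intro z
      rw [h1, h2, div_neg]
  have hcj : ∀ z, Tendsto (fun a => conj (E a (conj z) / E a (-(I * y0)))) atTop (𝓝 (conj (X (conj z)))) := fun z =>
    (Complex.continuous_conj.tendsto _).comp (hX (conj z))
  by_contra hcon
  push Not at hcon
  obtain ⟨⟨w1, h1⟩, ⟨w2, h2⟩⟩ := hcon
  have t1 := ((hcj w1).sub (hX w1)).eventually_ne (sub_ne_zero.2 h1)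
  have t2 := ((hcj w2).add (hX w2)).eventually_ne (fun h3 => h2 (eq_neg_of_add_eq_zero_left h3))
  obtain ⟨a, h3, h4, ha⟩ := (t1.and (t2.and (eventually_gt_atTop 0))).exists
  rcases hs a ha with h5 | h5
  · apply h3
    rw [h5, sub_self]
  · apply h4
    rw [h5]
    ring

/-- another point of normalisation, below -/
lemma renorm_conv (L : LFun) (hS : Window S) (h : Describes W S E d) {p q : ℂ} {G : ℂ → ℂ} (hq : G q ≠ 0)
    (hne : ∀ a : ℝ, 0 < a → E a p ≠ 0)
    (hc : TendstoLocallyUniformly (fun a z => E a z / E a p) G atTop) :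
    TendstoLocallyUniformly (fun a z => E a z / E a q) (fun z => G z / G q) atTop := by
  have hGc : Continuous G := by
    refine hc.continuous (Eventually.frequently ?_)
    filter_upwards [eventually_gt_atTop 0] with a ha
    exact ((h.entire a ha).div_const _).continuous
  obtain ⟨K, -⟩ := exists_win hS
  refine CB.renorm2 (K := K) (L := L) hc hGc hq ?_
  filter_upwards [eventually_gt_atTop 0] with a ha
  exact hne a ha

variable {m r : ℕ} {N : ℝ} {a' : Fin m → ℂ} {b c : ℕ → ℂ}

/-- the completed Dirichlet series without its poles, in the half-plane of convergence -/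
noncomputable def PP (m r : ℕ) (N : ℝ) (a' : Fin m → ℂ) (b : ℕ → ℂ) (s : ℂ) : ℂ :=
  (s * (s - 1)) ^ r * ((N : ℂ) ^ (s / 2) * ∏ j, Gammaℝ (s + a' j)) * LSeries b s

/-- Weil's form, by its formula -/
noncomputable def WF (m r : ℕ) (N : ℝ) (a' : Fin m → ℂ) (c : ℕ → ℂ) (a : ℝ) (f : ℝ → ℂ) : ℝ :=
  2 * r * (TT f (1 / 2) * conj (TT f (-(1 / 2)))).re +
    1 / (2 * Real.pi) * (∫ v : ℝ, (2 * (H353.E.gaD N (fun j => -a' j) (⟨1 / 2, v⟩ : ℂ)).re) * ‖TT f (v * I)‖ ^ 2) -
    2 * (∑ n ∈ Finset.Icc 1 ⌊Real.exp (2 * a)⌋₊, (((ArithmeticFunction.vonMangoldt n : ℝ) : ℂ) * (c n * pw (-(1 / 2)) n)) *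
      ∫ x : ℝ, f (x + Real.log n) * conj (f x)).re

/-- the properties of a continuation: entire, of finite order, a functional equation, the zeros are simple and on the
line, and there is no zero on the window -/
structure Good (S : Set ℝ) (m r : ℕ) (N : ℝ) (a' : Fin m → ℂ) (b c : ℕ → ℂ) (X : ℂ → ℂ) : Prop where
  raw : RawT (1 / 2) m r N a' b c X
  fe : (∀ s, X (1 - s) = X s) ∨ ∀ s, X (1 - s) = -X s
  line : ∀ s, X s = 0 → s.re = 1 / 2
  simple : ∀ s, X s = 0 → deriv X s ≠ 0
  window : ∀ t : ℝ, t ∈ S → X (1 / 2 + I * t) ≠ 0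

/-- the convergence on the half-line, and no degeneration on the window -/
def HalfLine (E : ℝ → ℂ → ℂ) (S : Set ℝ) (P : ℂ → ℂ) : Prop :=
  (∀ y : ℝ, 2 ≤ y → Tendsto (fun a => E a (-(I * y)) / E a (-(I * 2))) atTop (𝓝 (P (1 / 2 + y) / P (1 / 2 + 2)))) ∧
  ∀ t : ℝ, t ∈ S → ¬ Tendsto (fun a => E a t / E a (-(I * 2))) atTop (𝓝 0)

/-- **if there is a continuation then the minimisers converge** -/
theorem conv_of_good (hS : Window S) (h : Describes W S E d) (hstr : ∀ j, -1 / 2 < (a' j).re)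
    {X : ℂ → ℂ} (hX : Good S m r N a' b c X)
    (hW : ∀ a : ℝ, 0 < a → ∀ f, InDom a f → W a f = WF m r N a' c a f) {P : ℂ → ℂ}
    (hP : ∀ y : ℝ, 2 ≤ y → P (1 / 2 + y) = X (1 / 2 + y)) :
    HalfLine E S P := by
  let L : LFun := ⟨m, r, N, a', b, c, X, hX.raw, hstr⟩
  have hXe : ∀ z : ℂ, 1 / 2 + I * -z = 1 - (1 / 2 + I * z) := fun z => by ring
  have hfull := Pool.Agent.Run7.h336.CB.S.full L (fun z => X (1 / 2 + I * z)) (C := 1) one_ne_zero
    (fun z => (one_mul _).symm) (by
      rcases hX.fe with h1 | h1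
      · exact Or.inl fun z => by show X _ = X _; rw [hXe, h1]
      · exact Or.inr fun z => by show X _ = -X _; rw [hXe, h1]) W (fun a ha f hf => by
        rw [hW a ha f hf, weil (L := L) ha ((inDom_iff a f).1 hf)]
        rfl) hS
    (fun t ht => hX.window t ht)
  obtain ⟨E', d', h', -, h2, -⟩ := hfull.ground
  have hRZ : RealZeros fun z => X (1 / 2 + I * z) := by
    intro z hz
    have h3 := hX.line _ hz
    have e : (1 / 2 + I * z : ℂ).re = 1 / 2 - z.im := by
      rw [Complex.add_re, Complex.mul_re, Complex.I_re, Complex.I_im, zero_mul, one_mul, zero_sub]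
      norm_num
      ring
    rw [e] at h3
    linarith
  have hder : ∀ z : ℂ, deriv (fun z => X (1 / 2 + I * z)) z = deriv X (1 / 2 + I * z) * I := by
    intro z
    have h3 : HasDerivAt (fun z : ℂ => 1 / 2 + I * z) I z := by
      simpa using ((hasDerivAt_id z).const_mul I).const_add (1 / 2)
    exact (HasDerivAt.comp z ((hX.raw.entire (1 / 2 + I * z)).hasDerivAt) h3).deriv
  have hSZ : SimpleZeros fun z => X (1 / 2 + I * z) := by
    intro z hz
    rw [hder]
    exact mul_ne_zero (hX.simple _ hz) I_ne_zero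
  have h3 := conv_unique h' h (h2.1 ⟨hRZ, hSZ⟩)
  have hne2 : X (1 / 2 + 2) ≠ 0 := by
    refine X_ne (L := L) ?_
    norm_num
  have hI2 : (1 / 2 + I * -(I * 2) : ℂ) = 1 / 2 + 2 := by linear_combination (-2 : ℂ) * Complex.I_mul_I
  have hXI : X (1 / 2 + I * I) ≠ 0 := fun h0 => by
    have := hRZ _ h0
    simp at this
  have hI : ∀ a : ℝ, 0 < a → E a I ≠ 0 := fun a ha h0 => by
    have := (h.zeros a ha _ h0).1
    simp at this
  have h4 := renorm_conv L hS h (G := fun z => X (1 / 2 + I * z) / X (1 / 2 + I * I)) (q := -(I * 2)) (by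
    show X (1 / 2 + I * -(I * 2)) / _ ≠ 0
    rw [hI2]
    exact div_ne_zero hne2 hXI) hI h3
  have h5 : ∀ z, Tendsto (fun a => E a z / E a (-(I * 2))) atTop (𝓝 (X (1 / 2 + I * z) / X (1 / 2 + 2))) := by
    intro z
    have h6 := (tendstoLocallyUniformlyOn_univ.2 h4).tendsto_at (mem_univ z)
    have e : X (1 / 2 + I * z) / X (1 / 2 + I * I) / (X (1 / 2 + I * -(I * 2)) / X (1 / 2 + I * I)) =
        X (1 / 2 + I * z) / X (1 / 2 + 2) := by
      rw [hI2, div_div_div_cancel_right₀ hXI]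
    rw [← e]
    exact h6
  refine ⟨fun y hy => ?_, fun t ht h0 => ?_⟩
  · have h6 := h5 (-(I * y))
    rw [show (1 / 2 + I * -(I * (y : ℂ)) : ℂ) = 1 / 2 + y by linear_combination (-(y : ℂ)) * Complex.I_mul_I,
      ← hP y hy] at h6
    have h7 := hP 2 le_rfl
    rw [Complex.ofReal_ofNat] at h7
    rw [h7]
    exact h6
  · exact div_ne_zero (hX.window t ht) hne2 (tendsto_nhds_unique (h5 t) h0)

end Pool.Agent.Run7.h966.FD
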