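import Pool.Agent.Run7.h966.FD.F6

/-! # If the minimisers converge on a half-line then there is a continuation -/

set_option autoImplicit false
set_option linter.unusedSectionVars false
set_option linter.dupNamespace false
set_option linter.unusedVariables false
set_option maxHeartbeats 2000000

open Complex Filter Topology Set MeasureTheory Metric
open scoped ComplexConjugate

namespace Pool.Agent.Run7.h966.FD

open Pool.Agent.Y23 Pool.Agent.Y23.G
open Pool.Agent.Run7.h336.CB.S (F Window InDom Mass low Describes RealZeros SimpleZeros ConvergesTo inDom_iff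
  exists_win Mass_eq F_eq)
open Pool.Agent.TH839.NA Pool.Agent.W355.UN

variable {W : ℝ → (ℝ → ℂ) → ℝ} {S : Set ℝ} {E E' : ℝ → ℂ → ℂ} {d d' : ℝ → ℕ}
variable {m r : ℕ} {N : ℝ} {a' : Fin m → ℂ} {b c : ℕ → ℂ}

/-- the identity theorem from a half-line -/
lemma eq_of_halfline {f g : ℂ → ℂ} (hf : DifferentiableOn ℂ f {s | 2 < s.re}) (hg : DifferentiableOn ℂ g {s | 2 < s.re})
    (h : ∀ y : ℝ, 2 ≤ y → f (1 / 2 + y) = g (1 / 2 + y)) : ∀ s : ℂ, 2 < s.re → f s = g s := by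
  have hop : IsOpen {s : ℂ | 2 < s.re} := isOpen_lt continuous_const Complex.continuous_re
  have hf' : AnalyticOnNhd ℂ f {s | 2 < s.re} := hf.analyticOnNhd hop
  have hg' : AnalyticOnNhd ℂ g {s | 2 < s.re} := hg.analyticOnNhd hop
  have hpre : IsPreconnected {s : ℂ | 2 < s.re} := (convex_halfSpace_re_gt 2).isPreconnected
  have h3 : (1 / 2 + ((5 / 2 : ℝ) : ℂ)) ∈ {s : ℂ | 2 < s.re} := by
    show 2 < (1 / 2 + ((5 / 2 : ℝ) : ℂ)).re
    rw [Complex.add_re, Complex.ofReal_re]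
    norm_num
  have hT : Tendsto (fun y : ℝ => (1 / 2 + y : ℂ)) (𝓝[≠] (5 / 2)) (𝓝[≠] (1 / 2 + ((5 / 2 : ℝ) : ℂ))) := by
    refine tendsto_nhdsWithin_iff.2 ⟨?_, ?_⟩
    · exact ((continuous_const.add Complex.continuous_ofReal).tendsto (5 / 2 : ℝ)).mono_left nhdsWithin_le_nhds
    · filter_upwards [self_mem_nhdsWithin] with y hy
      intro h0
      exact hy (by exact_mod_cast add_left_cancel h0)
  have hev : ∀ᶠ y : ℝ in 𝓝[≠] (5 / 2), f (1 / 2 + y) = g (1 / 2 + y) := by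
    filter_upwards [mem_nhdsWithin_of_mem_nhds (lt_mem_nhds (show (2 : ℝ) < 5 / 2 by norm_num))] with y hy
    exact h y (le_of_lt hy)
  have hfr : ∃ᶠ z in 𝓝[≠] (1 / 2 + ((5 / 2 : ℝ) : ℂ)), f z = g z := hT.frequently hev.frequently
  intro s hs
  exact hf'.eqOn_of_preconnected_of_frequently_eq hg' hpre h3 hfr hs

/-- **if the minimisers converge on the half-line then there is a continuation** -/
theorem good_of_conv (hm : 1 ≤ m) (hr : r ≤ m) (hN : 1 ≤ N) (hstr : ∀ j, -1 / 2 < (a' j).re) (hb1 : b 1 = 1)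
    (hcb : ∀ n : ℕ, ‖c n‖ ≤ m * (n : ℝ) ^ (1 / 2 : ℝ)) (hcv : Conv b c)
    (hS : Window S) (h : Describes W S E d)
    (hW : ∀ a : ℝ, 0 < a → ∀ f, InDom a f → W a f = WF m r N a' c a f) {P : ℂ → ℂ}
    (hPd : DifferentiableOn ℂ P {s | 2 < s.re}) (hPe : ∀ s : ℂ, 2 < s.re → P s = PP m r N a' b s)
    (hgr : ∃ A ρ : ℝ, 0 ≤ A ∧ 0 ≤ ρ ∧ ∀ y : ℝ, 2 ≤ y → ‖P (1 / 2 + y)‖ ≤ Real.exp (A * (1 + y) ^ ρ))
    (hc : HalfLine E S P) : ∃ X : ℂ → ℂ, Good S m r N a' b c X ∧ ∀ s : ℂ, 2 < s.re → X s = P s := by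
  obtain ⟨hc1, hc2⟩ := hc
  have e2 : ((2 : ℝ) : ℂ) = 2 := Complex.ofReal_ofNat 2
  obtain ⟨X0, hd0, hY0, hpar, hRZ, hb0, hlu⟩ := limit_core (y0 := 2) h two_pos
    (Y := fun y => P (1 / 2 + y) / P (1 / 2 + 2)) (fun y hy => by
      rw [e2]
      exact hc1 y hy)
  rw [e2] at hlu
  have hpt : ∀ z, Tendsto (fun a => E a z / E a (-(I * 2))) atTop (𝓝 (X0 z)) := fun z =>
    (tendstoLocallyUniformlyOn_univ.2 hlu).tendsto_at (mem_univ z)
  have hne2 : ∀ a : ℝ, 0 < a → E a (-(I * 2)) ≠ 0 := fun a ha => by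
    have := gen_ne h ha (y := 2) two_ne_zero
    rwa [e2] at this
  set κ : ℂ := P (1 / 2 + 2) with hκ
  have hκ0 : κ ≠ 0 := by
    intro h0
    have h1 := hc1 2 le_rfl
    rw [e2, ← hκ, h0, div_zero] at h1
    refine one_ne_zero (α := ℂ) (tendsto_nhds_unique (tendsto_const_nhds.congr' ?_) h1)
    filter_upwards [eventually_gt_atTop 0] with a ha
    rw [div_self (hne2 a ha)]
  set X : ℂ → ℂ := fun s => κ * X0 (-(I * (s - 1 / 2))) with hX
  have hXd : Differentiable ℂ X := by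
    have h1 : Differentiable ℂ fun s : ℂ => -(I * (s - 1 / 2)) := by fun_prop
    exact (hd0.comp h1).const_mul κ
  have hXz : ∀ z, X (1 / 2 + I * z) = κ * X0 z := by
    intro z
    simp only [hX]
    rw [show -(I * (1 / 2 + I * z - 1 / 2)) = z by linear_combination (-z) * Complex.I_mul_I]
  have hXe : ∀ s, X (1 - s) = κ * X0 (-(-(I * (s - 1 / 2)))) := by
    intro s
    simp only [hX]
    congr 2
    ring
  have hXP : ∀ s : ℂ, 2 < s.re → X s = P s := by
    refine eq_of_halfline hXd.differentiableOn hPd fun y hy => ?_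
    have h1 := hY0 y hy
    simp only [hX]
    rw [show -(I * (1 / 2 + (y : ℂ) - 1 / 2)) = -(I * y) by ring, h1, mul_div_cancel₀ _ hκ0]
  have hfe : (∀ s, X (1 - s) = X s) ∨ ∀ s, X (1 - s) = -X s := by
    rcases hpar with h1 | h1
    · left
      intro s
      rw [hXe, h1]
    · right
      intro s
      rw [hXe, h1, mul_neg]
  have hκc : conj κ ≠ 0 := by
    rw [Ne, map_eq_zero]
    exact hκ0
  have hnc : ‖conj κ‖ = ‖κ‖ := Complex.norm_conj κ
  have hnκ : ‖κ‖ ≠ 0 := norm_ne_zero_iff.2 hκ0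
  have hzc : ∀ s : ℂ, -(I * (1 - conj s - 1 / 2)) = conj (-(I * (s - 1 / 2))) := by
    intro s
    have h12 : conj (1 / 2 : ℂ) = 1 / 2 := half_conj
    rw [map_neg, map_mul, Complex.conj_I, map_sub, h12]
    ring
  have hfe2 : ∃ ε : ℂ, ‖ε‖ = 1 ∧ ∀ s : ℂ, X s = ε * conj (X (1 - conj s)) := by
    rcases limit_conj h (y0 := 2) two_pos (X := X0) (fun z => by rw [e2]; exact hpt z) with h1 | h1
    · refine ⟨κ / conj κ, by rw [norm_div, hnc, div_self hnκ], fun s => ?_⟩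
      simp only [hX]
      rw [hzc, map_mul, h1, ← mul_assoc, div_mul_cancel₀ _ hκc]
    · refine ⟨-(κ / conj κ), by rw [norm_neg, norm_div, hnc, div_self hnκ], fun s => ?_⟩
      simp only [hX]
      rw [hzc, map_mul, h1, ← mul_assoc, neg_mul, div_mul_cancel₀ _ hκc, neg_mul_neg]
  have hord : ∃ A ρ : ℝ, ∀ s : ℂ, ‖X s‖ ≤ Real.exp (A * (1 + ‖s‖) ^ ρ) := by
    obtain ⟨A, ρ, hA, hρ, h1⟩ := hgr
    refine ⟨A * 5 ^ ρ, ρ, fun s => ?_⟩
    have hs := norm_nonneg s
    have h2 : ‖-(I * (s - 1 / 2))‖ ≤ ‖s‖ + 3 := by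
      rw [norm_neg, norm_mul, norm_I, one_mul]
      refine (norm_sub_le _ _).trans ?_
      norm_num
    have h3 := hb0 _ _ h2 (by linarith)
    have h4 : ‖X s‖ ≤ ‖P (1 / 2 + ((‖s‖ + 3 : ℝ) : ℂ))‖ := by
      simp only [hX]
      rw [norm_mul]
      refine (mul_le_mul_of_nonneg_left h3 (norm_nonneg _)).trans ?_
      rw [norm_div, mul_div_cancel₀ _ hnκ]
    refine h4.trans ((h1 _ (by linarith)).trans (Real.exp_le_exp.2 ?_))
    rw [mul_assoc, ← Real.mul_rpow (by norm_num) (by linarith)]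
    refine mul_le_mul_of_nonneg_left (Real.rpow_le_rpow (by linarith) (by linarith) hρ) hA
  have hraw : RawT (1 / 2) m r N a' b c X := by
    refine ⟨hm, hr, hN, by norm_num, by norm_num, fun j => (hstr j).le, hXd, hord, hfe2, hb1, hcb, hcv,
      3, fun s hs => ?_⟩
    rw [hXP s (by linarith), hPe s (by linarith)]
    rfl
  have hline : ∀ s, X s = 0 → s.re = 1 / 2 := by
    intro s hs
    have h1 := hRZ _ ((mul_eq_zero.1 hs).resolve_left hκ0)
    have e : (-(I * (s - 1 / 2))).im = -(s.re - 1 / 2) := by simp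
    rw [e] at h1
    linarith
  have hwin : ∀ t : ℝ, t ∈ S → X (1 / 2 + I * t) ≠ 0 := by
    intro t ht
    rw [hXz]
    refine mul_ne_zero hκ0 fun h0 => hc2 t ht ?_
    rw [← h0]
    exact hpt t
  let L : LFun := ⟨m, r, N, a', b, c, X, hraw, hstr⟩
  have hXe2 : ∀ z : ℂ, 1 / 2 + I * -z = 1 - (1 / 2 + I * z) := fun z => by ring
  have hfull := Pool.Agent.Run7.h336.CB.S.full L (fun z => X (1 / 2 + I * z)) (C := 1) one_ne_zero
    (fun z => (one_mul _).symm) (by
      rcases hfe with h1 | h1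
      · exact Or.inl fun z => by show X _ = X _; rw [hXe2, h1]
      · exact Or.inr fun z => by show X _ = -X _; rw [hXe2, h1]) W (fun a ha f hf => by
        rw [hW a ha f hf, weil (L := L) ha ((inDom_iff a f).1 hf)]
        rfl) hS
    (fun t ht => hwin t ht)
  obtain ⟨E1, d1, h', -, h2, -⟩ := hfull.ground
  have hI : ∀ a : ℝ, 0 < a → E a (-(I * 2)) ≠ 0 := hne2
  have hX0I : X0 I ≠ 0 := fun h0 => by
    have := hRZ _ h0
    simp at this
  have h4 := renorm_conv L hS h (G := X0) (q := I) hX0I hI hlu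
  have h5 : ConvergesTo E1 fun z => X (1 / 2 + I * z) / X (1 / 2 + I * I) := by
    have h6 := conv_unique h h' h4
    have e : (fun z => X (1 / 2 + I * z) / X (1 / 2 + I * I)) = fun z => X0 z / X0 I := by
      funext z
      rw [hXz, hXz, mul_div_mul_left _ _ hκ0]
    rw [e]
    exact h6
  have hSZ := (h2.2 h5).2
  have hsimple : ∀ s, X s = 0 → deriv X s ≠ 0 := by
    intro s hs hder
    have hz : 1 / 2 + I * (-(I * (s - 1 / 2))) = s := by linear_combination (-(s - 1 / 2)) * Complex.I_mul_I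
    refine hSZ (-(I * (s - 1 / 2))) (by show X _ = 0; rw [hz]; exact hs) ?_
    have h3 : HasDerivAt (fun z : ℂ => 1 / 2 + I * z) I (-(I * (s - 1 / 2))) := by
      simpa using ((hasDerivAt_id (-(I * (s - 1 / 2)))).const_mul I).const_add (1 / 2)
    have h6 := (HasDerivAt.comp (-(I * (s - 1 / 2))) ((hXd (1 / 2 + I * (-(I * (s - 1 / 2))))).hasDerivAt) h3).deriv
    have h7 : deriv (fun z => X (1 / 2 + I * z)) (-(I * (s - 1 / 2))) =
        deriv X (1 / 2 + I * (-(I * (s - 1 / 2)))) * I := h6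
    rw [h7, hz, hder, zero_mul]
  exact ⟨X, ⟨hraw, hfe, hline, hsimple, hwin⟩, hXP⟩

end Pool.Agent.Run7.h966.FD
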