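import Pool.Agent.Run7.h966.FD.F6

/-! # The archimedean density of a gamma factor (proofs of `GA_bd`, `GA_diff` of Y23/G/An4, without an L-function) -/

set_option autoImplicit false
set_option linter.unusedSectionVars false
set_option linter.dupNamespace false
set_option linter.unusedVariables false
set_option maxHeartbeats 2000000

open Complex Filter Topology Set MeasureTheory Metric
open scoped ComplexConjugate

namespace Pool.Agent.Run7.h966.FD

open Pool.Agent.Y23 hiding Lg one_le_Lg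
open Pool.Agent.Y23.G
open Pool.Agent.W169.HF H353.E

attribute [local instance] Pool.Agent.Y23.G.CA.Z.zL

variable {m : ℕ} {N : ℝ} {a : Fin m → ℂ}

/-- the logarithmic derivative of the gamma factor -/
noncomputable def gaG (N : ℝ) (a : Fin m → ℂ) (s : ℂ) : ℂ := gaD N (fun j => -a j) s

lemma eta_ex (hm : 1 ≤ m) (hstr : ∀ j, -1 / 2 < (a j).re) : ∃ η : ℝ, 0 < η ∧ ∀ j, η ≤ (1 / 2 + (a j).re) / 2 := by
  have hm : 0 < m := hm
  obtain ⟨j0, _, hj0⟩ := Finset.exists_min_image (Finset.univ : Finset (Fin m)) (fun j => (a j).re)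
    ⟨⟨0, hm⟩, Finset.mem_univ _⟩
  refine ⟨(1 / 2 + (a j0).re) / 2, by linarith [hstr j0], fun j => ?_⟩
  linarith [hj0 j (Finset.mem_univ j)]

/-- bounds for the gamma factor -/
lemma gaG_bd (hm : 1 ≤ m) (hN : 1 ≤ N) (hstr : ∀ j, -1 / 2 < (a j).re) : ∃ C : ℝ, 0 < C ∧ ∀ s : ℂ, 1 / 2 ≤ s.re → s.re ≤ 3 →
    ‖gaG N a s‖ ≤ C * Lg s.im ∧ Lg s.im - C ≤ 2 * (gaG N a s).re := by
  obtain ⟨η, hη, hj⟩ := eta_ex (a := a) hm hstr
  set K : Fin m → ℝ := fun j => 1 / η + 3 + 4 + Real.log (5 + ‖a j‖) + |Real.log Real.pi| with hK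
  have hKj : ∀ j, 0 ≤ K j := fun j => by
    have : 0 ≤ Real.log (5 + ‖a j‖) := Real.log_nonneg (by linarith [norm_nonneg (a j)])
    have := abs_nonneg (Real.log Real.pi)
    simp only [hK]; positivity
  have hKs : 0 ≤ ∑ j, K j := Finset.sum_nonneg fun j _ => hKj j
  have hm : (1 : ℝ) ≤ m := by exact_mod_cast hm
  have hN := Real.log_nonneg hN
  refine ⟨Real.log N + ∑ j, K j + m, by linarith, fun s h1 h2 => ?_⟩
  have hL := one_le_Lg s.im
  have hz : ∀ j, η ≤ ((s - -a j) / 2).re := fun j => by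
    have e : ((s - -a j) / 2).re = (s.re + (a j).re) / 2 := by
      rw [show (2 : ℂ) = ((2 : ℝ) : ℂ) by norm_num, Complex.div_ofReal_re]
      simp
    rw [e]
    linarith [hj j]
  have hre : ∀ j, ((s - -a j) / 2).re = (s.re + (a j).re) / 2 := fun j => by
    rw [show (2 : ℂ) = ((2 : ℝ) : ℂ) by norm_num, Complex.div_ofReal_re]
    simp
  have him : ∀ j, ((s - -a j) / 2).im = (s.im + (a j).im) / 2 := fun j => by
    rw [show (2 : ℂ) = ((2 : ℝ) : ℂ) by norm_num, Complex.div_ofReal_im]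
    simp
  have hn2 : ∀ j, 1 ≤ ‖(s - -a j) / 2 + 2‖ := fun j => by
    have h3 := re_le_norm ((s - -a j) / 2 + 2)
    rw [add_re, re_ofNat] at h3
    linarith [hz j]
  have hup : ∀ j, Real.log ‖(s - -a j) / 2 + 2‖ ≤ Real.log (5 + ‖a j‖) + Lg s.im := fun j => by
    have h3 := Complex.norm_le_abs_re_add_abs_im ((s - -a j) / 2 + 2)
    have h4 : |((s - -a j) / 2 + 2).re| ≤ 4 + ‖a j‖ := by
      rw [add_re, re_ofNat, hre, abs_of_nonneg (by linarith [hz j, hre j])]
      have := (le_abs_self _).trans (Complex.abs_re_le_norm (a j))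
      have := norm_nonneg (a j)
      linarith
    have h5 : |((s - -a j) / 2 + 2).im| ≤ |s.im| + ‖a j‖ := by
      have e : ((s - -a j) / 2 + 2).im = (s.im + (a j).im) / 2 := by
        rw [add_im, him]; simp
      rw [e, abs_div, abs_two]
      have := abs_add_le s.im (a j).im
      have := Complex.abs_im_le_norm (a j)
      have := abs_nonneg s.im
      have := norm_nonneg (a j)
      linarith
    have h6 : ‖(s - -a j) / 2 + 2‖ ≤ (5 + ‖a j‖) * (3 + |s.im|) := by
      have := abs_nonneg s.im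
      have := norm_nonneg (a j)
      nlinarith
    have h7 := Real.log_le_log (by linarith [hn2 j]) h6
    rw [Real.log_mul (by positivity) (by positivity)] at h7
    exact h7
  have hlo : ∀ j, Lg s.im - Real.log (5 + ‖a j‖) ≤ Real.log ‖(s - -a j) / 2 + 2‖ := fun j => by
    have h3 : 3 + |s.im| ≤ (5 + ‖a j‖) * ‖(s - -a j) / 2 + 2‖ := by
      have h4 := Complex.abs_im_le_norm ((s - -a j) / 2 + 2)
      have e : ((s - -a j) / 2 + 2).im = (s.im + (a j).im) / 2 := by
        rw [add_im, him]; simp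
      rw [e, abs_div, abs_two] at h4
      have h5 : |s.im| ≤ |s.im + (a j).im| + ‖a j‖ := by
        have h6 := abs_add_le (s.im + (a j).im) (-(a j).im)
        rw [add_neg_cancel_right, abs_neg] at h6
        have := Complex.abs_im_le_norm (a j)
        linarith
      have := norm_nonneg (a j)
      nlinarith [hn2 j]
    have h7 := Real.log_le_log (by positivity) h3
    rw [Real.log_mul (by positivity) (by linarith [hn2 j])] at h7
    unfold Lg
    linarith
  have hdig := fun j => dig_bd hη (hz j)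
  constructor
  · unfold gaG gaD
    have t1 : ‖((Real.log N / 2 : ℝ) : ℂ)‖ ≤ Real.log N := by
      rw [Complex.norm_real, Real.norm_eq_abs, abs_of_nonneg (by linarith)]
      linarith
    have t2 : ∀ j, ‖((-(Real.log Real.pi) / 2 : ℝ) : ℂ) + logDeriv Gamma ((s - -a j) / 2) / 2‖ ≤ K j + Lg s.im := by
      intro j
      have h3 : ‖logDeriv Gamma ((s - -a j) / 2)‖ ≤ 1 / η + 3 + (Real.log (5 + ‖a j‖) + Lg s.im + 4) := by
        have e : logDeriv Gamma ((s - -a j) / 2) = (logDeriv Gamma ((s - -a j) / 2) - log ((s - -a j) / 2 + 2)) +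
          log ((s - -a j) / 2 + 2) := by ring
        rw [e]
        refine (norm_add_le _ _).trans (add_le_add (hdig j) ?_)
        refine (Complex.norm_le_abs_re_add_abs_im _).trans ?_
        rw [Complex.log_re, Complex.log_im, abs_of_nonneg (Real.log_nonneg (hn2 j))]
        have := Complex.abs_arg_le_pi ((s - -a j) / 2 + 2)
        have := Real.pi_le_four
        linarith [hup j]
      have h4 : ‖((-(Real.log Real.pi) / 2 : ℝ) : ℂ)‖ ≤ |Real.log Real.pi| := by
        rw [Complex.norm_real, Real.norm_eq_abs, abs_div, abs_neg, abs_two]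
        have := abs_nonneg (Real.log Real.pi)
        linarith
      refine (norm_add_le _ _).trans ?_
      rw [norm_div, Complex.norm_ofNat]
      have h5 := norm_nonneg (logDeriv Gamma ((s - -a j) / 2))
      simp only [hK]
      linarith
    refine (norm_add_le _ _).trans ((add_le_add t1 (norm_sum_le_of_le _ fun j _ => t2 j)).trans ?_)
    rw [Finset.sum_add_distrib, Finset.sum_const, Finset.card_univ, Fintype.card_fin, nsmul_eq_mul]
    nlinarith
  · have e : 2 * (gaG N a s).re = Real.log N + ∑ j, (-(Real.log Real.pi) + (logDeriv Gamma ((s - -a j) / 2)).re) := by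
      unfold gaG gaD
      rw [add_re, Complex.ofReal_re, Complex.re_sum, mul_add, Finset.mul_sum]
      congr 1
      · ring
      · refine Finset.sum_congr rfl fun j _ => ?_
        rw [add_re, Complex.ofReal_re, show (2 : ℂ) = ((2 : ℝ) : ℂ) by norm_num, Complex.div_ofReal_re]
        ring
    rw [e]
    have t2 : ∀ j, Lg s.im - K j ≤ -(Real.log Real.pi) + (logDeriv Gamma ((s - -a j) / 2)).re := by
      intro j
      have h3 := (Complex.abs_re_le_norm _).trans (hdig j)
      rw [sub_re, Complex.log_re] at h3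
      have h4 := (abs_le.1 h3).1
      have h5 := hlo j
      have h6 := le_abs_self (Real.log Real.pi)
      simp only [hK]
      linarith
    have t3 := Finset.sum_le_sum fun j (_ : j ∈ Finset.univ) => t2 j
    rw [Finset.sum_sub_distrib, Finset.sum_const, Finset.card_univ, Fintype.card_fin, nsmul_eq_mul] at t3
    nlinarith

lemma gaG_diff (N : ℝ) (hstr : ∀ j, -1 / 2 < (a j).re) {s : ℂ} (hs : 1 / 2 ≤ s.re) : DifferentiableAt ℂ (gaG N a) s := by
  unfold gaG gaD
  refine DifferentiableAt.const_add _ (DifferentiableAt.fun_sum fun j _ => ?_)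
  refine DifferentiableAt.const_add _ (DifferentiableAt.div_const ?_ _)
  have hre : 0 < ((s - -a j) / 2).re := by
    rw [show (2 : ℂ) = ((2 : ℝ) : ℂ) by norm_num, Complex.div_ofReal_re]
    simp
    linarith [hstr j]
  have h1 : DifferentiableAt ℂ (logDeriv Gamma) ((s - -a j) / 2) := by
    have hopen : IsOpen {z : ℂ | 0 < z.re} := isOpen_lt continuous_const Complex.continuous_re
    have han : AnalyticAt ℂ Gamma ((s - -a j) / 2) := by
      refine DifferentiableOn.analyticAt (s := {z : ℂ | 0 < z.re}) (fun z hz => ?_) (hopen.mem_nhds hre)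
      refine (differentiableAt_Gamma z fun k hk => ?_).differentiableWithinAt
      have hz' : 0 < z.re := hz
      rw [hk] at hz'
      simp at hz'
      have : (0 : ℝ) ≤ k := Nat.cast_nonneg k
      linarith
    have h2 := han.deriv.differentiableAt.div han.differentiableAt (Gamma_ne_zero_of_re_pos hre)
    exact h2
  exact DifferentiableAt.comp (f := fun s : ℂ => (s - -a j) / 2) s h1 (by fun_prop)


/-- the archimedean density -/
noncomputable def gD (N : ℝ) (a : Fin m → ℂ) (y : ℝ) : ℝ := 2 * (gaD N (fun j => -a j) (⟨1 / 2, y⟩ : ℂ)).re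

lemma gD_cont (N : ℝ) (hstr : ∀ j, -1 / 2 < (a j).re) : Continuous (gD N a) := by
  have h1 : Continuous (fun y : ℝ => gaG N a (⟨1 / 2, y⟩ : ℂ)) := by
    rw [continuous_iff_continuousAt]
    intro y
    exact ContinuousAt.comp (f := fun y : ℝ => (⟨1 / 2, y⟩ : ℂ)) (x := y)
      (gaG_diff N hstr (s := ⟨1 / 2, y⟩) le_rfl).continuousAt (line_ct (1 / 2)).continuousAt
  exact ((Complex.continuous_re.comp h1).const_mul 2).congr fun _ => rfl

lemma gD_bd (hm : 1 ≤ m) (hN : 1 ≤ N) (hstr : ∀ j, -1 / 2 < (a j).re) :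
    ∃ C : ℝ, 0 < C ∧ ∀ y : ℝ, |gD N a y| ≤ C * Lg y ∧ Lg y - C ≤ gD N a y := by
  obtain ⟨C, hC, h⟩ := gaG_bd (a := a) hm hN hstr
  refine ⟨2 * C, by positivity, fun y => ?_⟩
  obtain ⟨h1, h2⟩ := h ⟨1 / 2, y⟩ le_rfl (by norm_num)
  have e : (⟨1 / 2, y⟩ : ℂ).im = y := rfl
  rw [e] at h1 h2
  have e2 : gD N a y = 2 * (gaG N a ⟨1 / 2, y⟩).re := rfl
  rw [e2]
  constructor
  · rw [abs_mul, abs_two]
    have := (Complex.abs_re_le_norm _).trans h1
    linarith
  · linarith

lemma logDeriv_conj {z : ℂ} (hz : 0 < z.re) : logDeriv Gamma (conj z) = conj (logDeriv Gamma z) := by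
  have hd : ∀ w : ℂ, 0 < w.re → DifferentiableAt ℂ Gamma w := by
    intro w hw
    refine differentiableAt_Gamma w fun k hk => ?_
    rw [hk] at hw
    simp at hw
    have : (0 : ℝ) ≤ k := Nat.cast_nonneg k
    linarith
  have h1 : HasDerivAt (conj ∘ Gamma ∘ conj) (conj (deriv Gamma z)) (conj z) :=
    ((hd z hz).hasDerivAt).conj_conj
  have h2 : (conj ∘ Gamma ∘ conj : ℂ → ℂ) = Gamma := by
    funext w
    show conj (Gamma (conj w)) = Gamma w
    rw [Complex.Gamma_conj, Complex.conj_conj]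
  rw [h2] at h1
  rw [logDeriv_apply, logDeriv_apply, h1.deriv, Complex.Gamma_conj, map_div₀]

lemma gD_even (N : ℝ) (hstr : ∀ j, -1 / 2 < (a j).re) (him : ∀ j, (a j).im = 0) (y : ℝ) : gD N a (-y) = gD N a y := by
  unfold gD
  have hc : (⟨1 / 2, -y⟩ : ℂ) = conj ⟨1 / 2, y⟩ := rfl
  have h1 : gaD N (fun j => -a j) (conj ⟨1 / 2, y⟩) = conj (gaD N (fun j => -a j) ⟨1 / 2, y⟩) := by
    unfold gaD
    rw [map_add, Complex.conj_ofReal, map_sum]
    congr 1
    refine Finset.sum_congr rfl fun j _ => ?_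
    have h2 : (conj (⟨1 / 2, y⟩ : ℂ) - -a j) / 2 = conj (((⟨1 / 2, y⟩ : ℂ) - -a j) / 2) := by
      rw [map_div₀, map_sub, map_neg, Complex.conj_eq_iff_im.2 (him j), Complex.conj_ofNat]
    have hre : 0 < (((⟨1 / 2, y⟩ : ℂ) - -a j) / 2).re := by
      rw [show (2 : ℂ) = ((2 : ℝ) : ℂ) by norm_num, Complex.div_ofReal_re]
      simp
      linarith [hstr j]
    rw [h2, logDeriv_conj hre, map_add, Complex.conj_ofReal, map_div₀, Complex.conj_ofNat]
  rw [hc, h1, Complex.conj_re]

/-- the data of the Weil form -/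
noncomputable def gWD (hm : 1 ≤ m) (hN : 1 ≤ N) (hstr : ∀ j, -1 / 2 < (a j).re) (him : ∀ j, (a j).im = 0) (r : ℕ)
    (c : ℕ → ℝ) : WD where
  r := r
  om := gD N a
  b := fun n => ArithmeticFunction.vonMangoldt n * (c n * (n : ℝ) ^ (-(1 / 2) : ℝ))
  cont := gD_cont N hstr
  even := gD_even N hstr him
  lo := by
    obtain ⟨C, hC, h⟩ := gD_bd (a := a) hm hN hstr
    refine ⟨C, hC, fun t => ?_⟩
    have h1 := (h t).2
    have h2 := one_le_Lg t
    linarith
  hi := by
    obtain ⟨C, hC, h⟩ := gD_bd (a := a) hm hN hstr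
    exact ⟨C, hC, fun t => (h t).1⟩

open Pool.Agent.Run7.h336.CB.S (InDom inDom_iff) in
/-- the minimisers of the Weil form with real coefficients -/
theorem describes_WF (hm : 1 ≤ m) (hN : 1 ≤ N) (hstr : ∀ j, -1 / 2 < (a j).re) (him : ∀ j, (a j).im = 0) {r : ℕ}
    {c : ℕ → ℂ} (hc : ∀ n, (c n).im = 0) {W : ℝ → (ℝ → ℂ) → ℝ}
    (hW : ∀ t : ℝ, 0 < t → ∀ f, InDom t f → W t f = WF m r N a c t f)
    {S : Set ℝ} (hS : Pool.Agent.Run7.h336.CB.S.Window S) :
    ∃ (E : ℝ → ℂ → ℂ) (d : ℝ → ℕ), Pool.Agent.Run7.h336.CB.S.Describes W S E d := by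
  refine describes (gWD hm hN hstr him r fun n => (c n).re) W (fun t ht f hf => ?_) hS
  rw [hW t ht f hf, QQ_eq _ ht ((inDom_iff t f).1 hf)]
  unfold WF
  have e : ∀ n : ℕ, (((gWD hm hN hstr him r fun n => (c n).re).b n : ℝ) : ℂ) =
      ((ArithmeticFunction.vonMangoldt n : ℝ) : ℂ) * (c n * Pool.Agent.TH839.NA.pw (-(1 / 2)) n) := by
    intro n
    have h1 : ((c n).re : ℂ) = c n := by
      apply Complex.ext
      · simp
      · simp [hc n]
    show ((ArithmeticFunction.vonMangoldt n * ((c n).re * (n : ℝ) ^ (-(1 / 2) : ℝ)) : ℝ) : ℂ) = _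
    unfold Pool.Agent.TH839.NA.pw
    rw [← h1]
    push_cast
    simp
  simp only [e]
  rfl

end Pool.Agent.Run7.h966.FD
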