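import Pool.Agent.Run7.h966.FD.F7
import Pool.Agent.Run7.h966.FD.G1
import Pool.Agent.Run7.h833.GW.EPL

/-! # The completed Dirichlet series in the half-plane of convergence: growth on the real axis -/

set_option autoImplicit false
set_option linter.unusedSectionVars false
set_option linter.dupNamespace false
set_option linter.unusedVariables false
set_option maxHeartbeats 2000000

open Complex Filter Topology Set MeasureTheory Metric
open scoped ComplexConjugate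

namespace Pool.Agent.Run7.h966.FD

open Pool.Agent.TH839.NA Pool.Agent.W355.UN
open Pool.Agent.Run7.h833.GW (lE lE_summable lE_absc lser_exp)

variable {m r : ℕ} {N : ℝ} {a : Fin m → ℂ} {b c : ℕ → ℂ}

lemma Lb_diff (hb1 : b 1 = 1) (hcv : Conv b c) (hcb : ∀ n : ℕ, ‖c n‖ ≤ m * (n : ℝ) ^ (1 / 2 : ℝ)) :
    DifferentiableOn ℂ (LSeries b) {s | 2 < s.re} := by
  have h1 : DifferentiableOn ℂ (fun s => cexp (LSeries (lE c) s)) {s | 2 < s.re} := by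
    refine DifferentiableOn.cexp ?_
    refine (LSeries_differentiableOn (lE c)).mono fun s hs => ?_
    have hs' : 2 < s.re := hs
    refine lt_of_le_of_lt (lE_absc hcb) ?_
    exact_mod_cast (by linarith : (3 / 2 : ℝ) < s.re)
  refine h1.congr fun s hs => ?_
  have hs' : 2 < s.re := hs
  exact lser_exp hb1 hcv hcb (by linarith)

lemma Lb_bd (hb1 : b 1 = 1) (hcv : Conv b c) (hcb : ∀ n : ℕ, ‖c n‖ ≤ m * (n : ℝ) ^ (1 / 2 : ℝ)) :
    ∃ C : ℝ, 0 ≤ C ∧ ∀ s : ℂ, 2 ≤ s.re → ‖LSeries b s‖ ≤ Real.exp C := by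
  have h2 : LSeriesSummable (lE c) 2 := lE_summable hcb (by norm_num)
  have hn : Summable fun n => ‖LSeries.term (lE c) 2 n‖ := h2.norm
  refine ⟨∑' n, ‖LSeries.term (lE c) 2 n‖, tsum_nonneg fun _ => norm_nonneg _, fun s hs => ?_⟩
  rw [lser_exp hb1 hcv hcb (by linarith), Complex.norm_exp]
  refine Real.exp_le_exp.2 ((Complex.re_le_norm _).trans ?_)
  unfold LSeries
  refine tsum_of_norm_bounded hn.hasSum fun n => ?_
  exact LSeries.norm_term_le_of_re_le_re (lE c) (by simpa using hs) n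

lemma gammaR_diff {s : ℂ} (hs : 0 < s.re) : DifferentiableAt ℂ Gammaℝ s := by
  have h1 : DifferentiableAt ℂ (fun s => (Gammaℝ s)⁻¹) s := differentiable_Gammaℝ_inv s
  have h2 : (Gammaℝ s)⁻¹ ≠ 0 := inv_ne_zero (Gammaℝ_ne_zero_of_re_pos hs)
  have h3 := h1.inv h2
  have e : (fun s : ℂ => (Gammaℝ s)⁻¹)⁻¹ = Gammaℝ := by
    funext s
    simp
  rwa [e] at h3

lemma PP_diff (hN : 1 ≤ N) (hstr : ∀ j, -1 / 2 < (a j).re) (hb1 : b 1 = 1) (hcv : Conv b c)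
    (hcb : ∀ n : ℕ, ‖c n‖ ≤ m * (n : ℝ) ^ (1 / 2 : ℝ)) :
    DifferentiableOn ℂ (PP m r N a b) {s | 2 < s.re} := by
  have h1 := Lb_diff hb1 hcv hcb
  unfold PP
  refine DifferentiableOn.mul (DifferentiableOn.mul (by fun_prop) (DifferentiableOn.mul ?_ ?_)) h1
  · intro s _
    have hN0 : (N : ℂ) ≠ 0 := by exact_mod_cast (by linarith : N ≠ 0)
    exact ((differentiableAt_id.div_const 2).const_cpow (Or.inl hN0)).differentiableWithinAt
  · refine DifferentiableOn.fun_finsetProd fun j _ s hs => ?_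
    have hs' : 2 < s.re := hs
    have h2 : 0 < (s + a j).re := by
      rw [Complex.add_re]
      linarith [hstr j]
    exact (DifferentiableAt.comp (f := fun s : ℂ => s + a j) s (gammaR_diff h2) (by fun_prop)).differentiableWithinAt

/-- a crude bound for the gamma function -/
lemma gamma_crude {u : ℝ} (hu : 1 < u) : Real.Gamma u ≤ Real.exp ((u + 1) ^ 2) := by
  have hu0 : 0 < u := by linarith
  have h1 : Real.Gamma u ≤ Real.Gamma (u + 1) := by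
    rw [Real.Gamma_add_one hu0.ne']
    have := Real.Gamma_pos_of_pos hu0
    nlinarith
  have h2 : Real.Gamma (u + 1) ≤ Real.Gamma ((⌈u⌉₊ : ℝ) + 1) := by
    refine Real.Gamma_strictMonoOn_Ici.monotoneOn ?_ ?_ ?_
    · show (2 : ℝ) ≤ u + 1
      linarith
    · show (2 : ℝ) ≤ ⌈u⌉₊ + 1
      have := Nat.le_ceil u
      linarith
    · have := Nat.le_ceil u
      linarith
  rw [Real.Gamma_nat_eq_factorial] at h2
  have hn : (⌈u⌉₊ : ℝ) ≤ u + 1 := (Nat.ceil_lt_add_one hu0.le).le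
  have hn0 : 0 < ⌈u⌉₊ := Nat.ceil_pos.2 hu0
  have hn1 : (0 : ℝ) < ⌈u⌉₊ := by exact_mod_cast hn0
  have h3 : ((Nat.factorial ⌈u⌉₊ : ℕ) : ℝ) ≤ (⌈u⌉₊ : ℝ) ^ ⌈u⌉₊ := by exact_mod_cast Nat.factorial_le_pow _
  have h4 : (⌈u⌉₊ : ℝ) ^ ⌈u⌉₊ ≤ Real.exp ((u + 1) ^ 2) := by
    have e : (⌈u⌉₊ : ℝ) ^ ⌈u⌉₊ = Real.exp (⌈u⌉₊ * Real.log ⌈u⌉₊) := by rw [Real.exp_nat_mul, Real.exp_log hn1]
    rw [e]
    refine Real.exp_le_exp.2 ?_
    have h5 : Real.log ⌈u⌉₊ ≤ ⌈u⌉₊ := (Real.log_le_sub_one_of_pos hn1).trans (by linarith)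
    nlinarith [Real.log_nonneg (by exact_mod_cast hn0 : (1 : ℝ) ≤ ⌈u⌉₊)]
  linarith

lemma gammaR_crude {a : ℂ} (ha : -1 / 2 < a.re) (him : a.im = 0) :
    ∃ C : ℝ, 0 ≤ C ∧ ∀ y : ℝ, 2 ≤ y → ‖Gammaℝ (1 / 2 + y + a)‖ ≤ Real.exp (C * (1 + y) ^ (2 : ℝ)) := by
  refine ⟨(|a.re| + 2) ^ 2, by positivity, fun y hy => ?_⟩
  have hreal : a = ((a.re : ℝ) : ℂ) := by
    apply Complex.ext <;> simp [him]
  set x := a.re with hx
  have hxa := le_abs_self x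
  have hx0 := abs_nonneg x
  have e1 : (1 / 2 + (y : ℂ) + a) = ((1 / 2 + y + x : ℝ) : ℂ) := by
    rw [hreal]
    push_cast
    rfl
  rw [e1, Gammaℝ_def, norm_mul]
  have e2 : (((1 / 2 + y + x : ℝ) : ℂ) / 2) = (((1 / 2 + y + x) / 2 : ℝ) : ℂ) := by push_cast; ring
  rw [e2, Complex.Gamma_ofReal, Complex.norm_real, Real.norm_eq_abs]
  have hu : 1 < (1 / 2 + y + x) / 2 := by linarith
  rw [abs_of_pos (Real.Gamma_pos_of_pos (by linarith))]
  have h1 := gamma_crude hu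
  have h2 : ‖(Real.pi : ℂ) ^ (-((1 / 2 + y + x : ℝ) : ℂ) / 2)‖ ≤ 1 := by
    rw [Complex.norm_cpow_eq_rpow_re_of_pos Real.pi_pos]
    refine Real.rpow_le_one_of_one_le_of_nonpos (by linarith [Real.pi_gt_three]) ?_
    have e3 : (-((1 / 2 + y + x : ℝ) : ℂ) / 2) = ((-(1 / 2 + y + x) / 2 : ℝ) : ℂ) := by push_cast; ring
    rw [e3, Complex.ofReal_re]
    linarith
  have h3 : ((1 / 2 + y + x) / 2 + 1) ^ 2 ≤ (|x| + 2) ^ 2 * (1 + y) ^ (2 : ℝ) := by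
    rw [Real.rpow_two, ← mul_pow]
    refine pow_le_pow_left₀ (by linarith) ?_ 2
    nlinarith
  calc _ ≤ 1 * Real.exp (((1 / 2 + y + x) / 2 + 1) ^ 2) :=
        mul_le_mul h2 h1 (Real.Gamma_pos_of_pos (by linarith)).le zero_le_one
    _ ≤ _ := by rw [one_mul]; exact Real.exp_le_exp.2 h3

lemma prod_crude {ι : Type*} (s : Finset ι) (f : ι → ℝ → ℂ)
    (h : ∀ j ∈ s, ∃ C : ℝ, 0 ≤ C ∧ ∀ y : ℝ, 2 ≤ y → ‖f j y‖ ≤ Real.exp (C * (1 + y) ^ (2 : ℝ))) :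
    ∃ C : ℝ, 0 ≤ C ∧ ∀ y : ℝ, 2 ≤ y → ‖∏ j ∈ s, f j y‖ ≤ Real.exp (C * (1 + y) ^ (2 : ℝ)) := by
  classical
  induction s using Finset.induction_on with
  | empty => exact ⟨0, le_rfl, fun y _ => by simp⟩
  | insert i s hi ih =>
      obtain ⟨C1, hC1, h1⟩ := h i (Finset.mem_insert_self _ _)
      obtain ⟨C2, hC2, h2⟩ := ih fun j hj => h j (Finset.mem_insert_of_mem hj)
      refine ⟨C1 + C2, by positivity, fun y hy => ?_⟩
      rw [Finset.prod_insert hi, norm_mul, add_mul, Real.exp_add]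
      exact mul_le_mul (h1 y hy) (h2 y hy) (norm_nonneg _) (Real.exp_pos _).le

/-- growth on the half-line -/
lemma PP_growth (hN : 1 ≤ N) (hstr : ∀ j, -1 / 2 < (a j).re) (him : ∀ j, (a j).im = 0) (hb1 : b 1 = 1)
    (hcv : Conv b c) (hcb : ∀ n : ℕ, ‖c n‖ ≤ m * (n : ℝ) ^ (1 / 2 : ℝ)) :
    ∃ A ρ : ℝ, 0 ≤ A ∧ 0 ≤ ρ ∧ ∀ y : ℝ, 2 ≤ y → ‖PP m r N a b (1 / 2 + y)‖ ≤ Real.exp (A * (1 + y) ^ ρ) := by
  obtain ⟨C1, hC1, h1⟩ := Lb_bd hb1 hcv hcb
  obtain ⟨C2, hC2, h2⟩ := prod_crude Finset.univ (fun (j : Fin m) (y : ℝ) => Gammaℝ (1 / 2 + y + a j))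
    fun j _ => gammaR_crude (hstr j) (him j)
  have hN0 : 0 < N := by linarith
  have hlN := Real.log_nonneg hN
  refine ⟨2 * r + Real.log N + C2 + C1, 2, by positivity, by norm_num, fun y hy => ?_⟩
  have hy1 : (1 : ℝ) ≤ 1 + y := by linarith
  have hsq : 1 + y ≤ (1 + y) ^ (2 : ℝ) := by
    rw [Real.rpow_two]
    nlinarith
  have hsq1 : 1 ≤ (1 + y) ^ (2 : ℝ) := by linarith
  unfold PP
  rw [norm_mul, norm_mul, norm_mul]
  have k1 : ‖((1 / 2 + (y : ℂ)) * (1 / 2 + y - 1)) ^ r‖ ≤ Real.exp (2 * r * (1 + y) ^ (2 : ℝ)) := by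
    have e : ((1 / 2 + (y : ℂ)) * (1 / 2 + y - 1)) = (((1 / 2 + y) * (y - 1 / 2) : ℝ) : ℂ) := by
      push_cast
      ring
    rw [e, norm_pow, Complex.norm_real, Real.norm_eq_abs, abs_of_nonneg (by
      refine mul_nonneg ?_ ?_ <;> linarith)]
    have h3 : (1 / 2 + y) * (y - 1 / 2) ≤ Real.exp (2 * (1 + y) ^ (2 : ℝ)) := by
      have h4 := Real.add_one_le_exp (2 * (1 + y) ^ (2 : ℝ))
      rw [Real.rpow_two] at h4 ⊢
      nlinarith [sq_nonneg y]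
    calc ((1 / 2 + y) * (y - 1 / 2)) ^ r ≤ (Real.exp (2 * (1 + y) ^ (2 : ℝ))) ^ r :=
          pow_le_pow_left₀ (by refine mul_nonneg ?_ ?_ <;> linarith) h3 r
      _ = Real.exp (2 * r * (1 + y) ^ (2 : ℝ)) := by
          rw [← Real.exp_nat_mul]
          congr 1
          ring
  have k2 : ‖(N : ℂ) ^ ((1 / 2 + (y : ℂ)) / 2)‖ ≤ Real.exp (Real.log N * (1 + y) ^ (2 : ℝ)) := by
    rw [Complex.norm_cpow_eq_rpow_re_of_pos hN0, Real.rpow_def_of_pos hN0]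
    refine Real.exp_le_exp.2 (mul_le_mul_of_nonneg_left ?_ hlN)
    have e : ((1 / 2 + (y : ℂ)) / 2) = (((1 / 2 + y) / 2 : ℝ) : ℂ) := by push_cast; ring
    rw [e, Complex.ofReal_re]
    linarith
  have k3 := h2 y hy
  have k4 : ‖LSeries b (1 / 2 + y)‖ ≤ Real.exp (C1 * (1 + y) ^ (2 : ℝ)) := by
    refine (h1 (1 / 2 + y) ?_).trans (Real.exp_le_exp.2 ?_)
    · rw [Complex.add_re, Complex.ofReal_re]
      norm_num
      linarith
    · exact le_mul_of_one_le_right hC1 hsq1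
  rw [show (2 * (r : ℝ) + Real.log N + C2 + C1) * (1 + y) ^ (2 : ℝ) = 2 * r * (1 + y) ^ (2 : ℝ) +
    (Real.log N * (1 + y) ^ (2 : ℝ) + C2 * (1 + y) ^ (2 : ℝ)) + C1 * (1 + y) ^ (2 : ℝ) by ring, Real.exp_add,
    Real.exp_add, Real.exp_add]
  refine mul_le_mul (mul_le_mul k1 (mul_le_mul k2 k3 (norm_nonneg _) (Real.exp_pos _).le) (by positivity)
    (Real.exp_pos _).le) k4 (norm_nonneg _) (by positivity)

open Pool.Agent.Run7.h336.CB.S (F Window InDom Describes)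

/-- **Criterion for continuation, normalised form.** -/
theorem criterion (hm : 1 ≤ m) (hr : r ≤ m) (hN : 1 ≤ N) (hstr : ∀ j, -1 / 2 < (a j).re) (him : ∀ j, (a j).im = 0)
    (hb1 : b 1 = 1) (hcb : ∀ n : ℕ, ‖c n‖ ≤ m * (n : ℝ) ^ (1 / 2 : ℝ)) (hcv : Conv b c) (hcr : ∀ n, (c n).im = 0)
    {W : ℝ → (ℝ → ℂ) → ℝ} (hW : ∀ t : ℝ, 0 < t → ∀ f, InDom t f → W t f = WF m r N a c t f)
    {S : Set ℝ} (hS : Window S) : ∃ (E : ℝ → ℂ → ℂ) (d : ℝ → ℕ), Describes W S E d ∧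
      ((∃ X : ℂ → ℂ, Good S m r N a b c X) ↔ HalfLine E S (PP m r N a b)) := by
  obtain ⟨E, d, h⟩ := describes_WF hm hN hstr him hcr hW hS
  refine ⟨E, d, h, ?_, fun hc => ?_⟩
  · rintro ⟨X, hX⟩
    refine conv_of_good hS h hstr hX hW fun y hy => ?_
    obtain ⟨σ, hσ⟩ := hX.raw.eq
    have hop : IsOpen {s : ℂ | 2 < s.re} := isOpen_lt continuous_const Complex.continuous_re
    have hP := (PP_diff (r := r) hN hstr hb1 hcv hcb).analyticOnNhd hop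
    have hXa : AnalyticOnNhd ℂ X {s : ℂ | 2 < s.re} := fun z _ => hX.raw.entire.analyticAt z
    have hpre : IsPreconnected {s : ℂ | 2 < s.re} := (convex_halfSpace_re_gt 2).isPreconnected
    set z0 : ℂ := ((max σ 2 + 1 : ℝ) : ℂ) with hz0
    have hz0' : 2 < z0.re := by
      rw [hz0, Complex.ofReal_re]
      linarith [le_max_right σ 2]
    have hev : PP m r N a b =ᶠ[𝓝 z0] X := by
      have h1 : {s : ℂ | σ < s.re} ∈ 𝓝 z0 := (isOpen_lt continuous_const Complex.continuous_re).mem_nhds (by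
        show σ < z0.re
        rw [hz0, Complex.ofReal_re]
        linarith [le_max_left σ 2])
      filter_upwards [h1] with s hs
      rw [hσ s (le_of_lt hs)]
      rfl
    refine hP.eqOn_of_preconnected_of_eventuallyEq hXa hpre hz0' hev ?_
    show 2 < (1 / 2 + (y : ℂ)).re
    rw [Complex.add_re, Complex.ofReal_re]
    norm_num
    linarith
  · obtain ⟨X, hX, -⟩ := good_of_conv hm hr hN hstr hb1 hcb hcv hS h hW (PP_diff hN hstr hb1 hcv hcb)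
      (fun s _ => rfl) (PP_growth hN hstr him hb1 hcv hcb) hc
    exact ⟨X, hX⟩

end Pool.Agent.Run7.h966.FD
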